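import Pool.Agent.V11103.MaxErg

set_option autoImplicit false

/-!
# Frequencies of visits from the independence of the invariant sets
-/

namespace Pool.Agent.V1152.SMI

open MeasureTheory Function Filter Topology Pool.Agent.H165R3.BPE
open Pool.Agent.V11103 (ergAv Mx_set)

variable {X : Type*} [MeasurableSpace X] {μ : Measure X}

omit [MeasurableSpace X] in
theorem Mx_zero {T : X → X} {A : Set X} (hTA : T ⁻¹' A = A) {f : X → ℝ} (n : ℕ) :
    ∀ x, x ∉ A → Mx T (A.indicator f) n x = 0 := by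
  induction n with
  | zero => intro x _; rfl
  | succ n ih =>
    intro x hx
    show max 0 (A.indicator f x + Mx T (A.indicator f) n (T x)) = 0
    have h1 : T x ∉ A := fun h => hx (by rw [← hTA]; exact h)
    rw [Set.indicator_of_notMem hx, ih _ h1]
    simp

/-- the maximal ergodic theorem on an invariant set -/
theorem max_inv [IsProbabilityMeasure μ] {T : X → X} (hT : MeasurePreserving T μ μ) {A : Set X}
    (hA : MeasurableSet A) (hTA : T ⁻¹' A = A) {f : X → ℝ} (hf : Measurable f)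
    (hfi : Integrable f μ) (h : ∀ x ∈ A, ∃ k : ℕ, 0 < ∑ j ∈ Finset.range k, f (T^[j] x)) :
    0 ≤ ∫ x in A, f x ∂μ := by
  set φ : X → ℝ := A.indicator f with hφ
  have hφm : Measurable φ := hf.indicator hA
  have hφi : Integrable φ μ := hfi.indicator hA
  have hTk : ∀ k, (T^[k]) ⁻¹' A = A := by
    intro k
    induction k with
    | zero => rfl
    | succ k ih => rw [iterate_succ, Set.preimage_comp, ih, hTA]
  have hmono : Monotone fun n => {x : X | 0 < Mx T φ n x} := by
    refine monotone_nat_of_le_succ fun n => ?_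
    intro x hx
    exact lt_of_lt_of_le hx (Mx_mono T φ n x)
  have hU : ⋃ n, {x | 0 < Mx T φ n x} = A := by
    ext x
    rw [Set.mem_iUnion]
    constructor
    · rintro ⟨n, hn⟩
      by_contra hx
      have h1 : 0 < Mx T φ n x := hn
      rw [Mx_zero hTA n x hx] at h1
      exact lt_irrefl _ h1
    · intro hx
      obtain ⟨k, hk⟩ := h x hx
      refine ⟨k, ?_⟩
      show 0 < Mx T φ k x
      refine lt_of_lt_of_le ?_ (Mx_sum T φ k x)
      have e : ∑ j ∈ Finset.range k, φ (T^[j] x) = ∑ j ∈ Finset.range k, f (T^[j] x) := by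
        refine Finset.sum_congr rfl fun j _ => ?_
        have hj : T^[j] x ∈ A := by
          rw [← Set.mem_preimage, hTk j]
          exact hx
        rw [hφ, Set.indicator_of_mem hj]
      rw [e]
      exact hk
  have hm : ∀ n, MeasurableSet {x | 0 < Mx T φ n x} := fun n =>
    measurableSet_lt measurable_const (Mx_meas hT.measurable hφm n)
  have hlim := tendsto_setIntegral_of_monotone (μ := μ) (f := φ) hm hmono hφi.integrableOn
  rw [hU] at hlim
  have e : ∫ x in A, φ x ∂μ = ∫ x in A, f x ∂μ := by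
    apply setIntegral_congr_fun hA
    intro x hx
    exact Set.indicator_of_mem hx f
  rw [← e]
  exact ge_of_tendsto' hlim fun n => Mx_set hT hφm hφi n

/-- the points at which the averages are often above the level `c` -/
def Up (T : X → X) (f : X → ℝ) (c : ℝ) : Set X :=
  {x | ∃ r : ℚ, c < (r : ℝ) ∧ ∃ᶠ n in atTop, (r : ℝ) < ergAv T f n x}

theorem ergAv_meas' {T : X → X} (hT : Measurable T) {f : X → ℝ} (hf : Measurable f) (k : ℕ) :
    Measurable (ergAv T f k) := by
  unfold ergAv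
  exact (Finset.measurable_fun_sum _ fun j _ => hf.comp (hT.iterate j)).const_mul _

theorem Up_meas {T : X → X} (hT : Measurable T) {f : X → ℝ} (hf : Measurable f) (c : ℝ) :
    MeasurableSet (Up T f c) := by
  have e : Up T f c = ⋃ r : ℚ, ⋃ _ : c < (r : ℝ), ⋂ N : ℕ, ⋃ n : ℕ, ⋃ _ : N ≤ n,
      {x | (r : ℝ) < ergAv T f n x} := by
    ext x
    simp only [Up, Set.mem_ofPred_eq, Set.mem_iUnion, Set.mem_iInter, frequently_atTop,
      exists_prop]
  rw [e]
  refine MeasurableSet.iUnion fun r => MeasurableSet.iUnion fun _ => MeasurableSet.iInter fun N =>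
    MeasurableSet.iUnion fun n => MeasurableSet.iUnion fun _ => ?_
  exact measurableSet_lt measurable_const (ergAv_meas' hT hf n)

omit [MeasurableSpace X] in
theorem ergAv_shift {T : X → X} {f : X → ℝ} {M : ℝ} (hM : ∀ x, |f x| ≤ M) (n : ℕ) (x : X) :
    |ergAv T f n (T x) - ergAv T f n x| ≤ 2 * M / n := by
  have h1 : ∑ j ∈ Finset.range n, f (T^[j] (T x)) - ∑ j ∈ Finset.range n, f (T^[j] x) =
      f (T^[n] x) - f x := by
    have e : ∀ j, f (T^[j] (T x)) = f (T^[j + 1] x) := fun j => by rw [iterate_succ_apply]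
    simp_rw [e]
    rw [← Finset.sum_sub_distrib]
    exact Finset.sum_range_sub (fun j => f (T^[j] x)) n
  unfold ergAv
  rw [← mul_sub, h1, abs_mul, abs_of_nonneg (by positivity : (0:ℝ) ≤ 1 / (n:ℝ))]
  have h2 : |f (T^[n] x) - f x| ≤ 2 * M := by
    have a1 := abs_le.1 (hM (T^[n] x))
    have a2 := abs_le.1 (hM x)
    rw [abs_le]
    constructor <;> linarith
  calc 1 / (n : ℝ) * |f (T^[n] x) - f x| ≤ 1 / (n : ℝ) * (2 * M) :=
        mul_le_mul_of_nonneg_left h2 (by positivity)
    _ = 2 * M / n := by ring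

theorem freq_shift {u v : ℕ → ℝ} {M : ℝ} (h : ∀ n, |u n - v n| ≤ 2 * M / n) {r s : ℝ}
    (hrs : s < r) (hu : ∃ᶠ n in atTop, r < u n) : ∃ᶠ n in atTop, s < v n := by
  have h1 : ∀ᶠ n : ℕ in atTop, 2 * M / n < r - s := by
    have h2 : Tendsto (fun n : ℕ => 2 * M / (n : ℝ)) atTop (𝓝 0) :=
      tendsto_const_nhds.div_atTop tendsto_natCast_atTop_atTop
    exact h2.eventually (gt_mem_nhds (by linarith))
  refine (hu.and_eventually h1).mono ?_
  rintro n ⟨h3, h4⟩
  have h5 := (abs_le.1 (h n)).2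
  linarith

theorem Up_inv {T : X → X} {f : X → ℝ} {M : ℝ} (hM : ∀ x, |f x| ≤ M) (c : ℝ) :
    T ⁻¹' (Up T f c) = Up T f c := by
  ext x
  constructor
  · rintro ⟨r, hr, h⟩
    obtain ⟨s, hs1, hs2⟩ := exists_rat_btwn hr
    exact ⟨s, hs1, freq_shift (fun n => ergAv_shift hM n x) hs2 h⟩
  · rintro ⟨r, hr, h⟩
    obtain ⟨s, hs1, hs2⟩ := exists_rat_btwn hr
    have h2 : ∀ n, |ergAv T f n x - ergAv T f n (T x)| ≤ 2 * M / n := fun n => by
      rw [abs_sub_comm]
      exact ergAv_shift hM n x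
    exact ⟨s, hs1, freq_shift h2 hs2 h⟩

/-- one side -/
theorem freq_one [IsProbabilityMeasure μ] {T : X → X} (hT : MeasurePreserving T μ μ)
    {f : X → ℝ} (hf : Measurable f) {M : ℝ} (hM : ∀ x, |f x| ≤ M) {c₀ K : ℝ} (hK : 0 ≤ K)
    (H : ∀ A, MeasurableSet A → T ⁻¹' A = A →
      |(∫ x in A, f x ∂μ) - μ.real A * c₀| ≤ K * √(μ.real A)) {ε : ℝ} (hε : 0 < ε) :
    μ.real (Up T f (c₀ + ε)) ≤ K ^ 2 / ε ^ 2 := by
  set A := Up T f (c₀ + ε) with hAd
  have hA : MeasurableSet A := Up_meas hT.measurable hf _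
  have hinv : T ⁻¹' A = A := Up_inv hM _
  have hfi : Integrable f μ := Integrable.of_bound hf.aestronglyMeasurable M
    (Eventually.of_forall fun x => by rw [Real.norm_eq_abs]; exact hM x)
  have h1 : 0 ≤ ∫ x in A, (f x - (c₀ + ε)) ∂μ := by
    apply max_inv (f := fun x => f x - (c₀ + ε)) hT hA hinv (hf.sub measurable_const)
      (hfi.sub (integrable_const _))
    rintro x ⟨r, hr, h⟩
    obtain ⟨n, hn, hn1⟩ := (h.and_eventually (eventually_ge_atTop 1)).exists
    refine ⟨n, ?_⟩
    have hn0 : (0 : ℝ) < n := by exact_mod_cast hn1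
    rw [Finset.sum_sub_distrib, Finset.sum_const, Finset.card_range, nsmul_eq_mul]
    have h2 : c₀ + ε < ergAv T f n x := hr.trans hn
    unfold ergAv at h2
    rw [one_div, ← div_eq_inv_mul, lt_div_iff₀ hn0] at h2
    linarith
  rw [integral_sub hfi.integrableOn (integrable_const _).integrableOn, setIntegral_const,
    smul_eq_mul] at h1
  have h2 := (abs_le.1 (H A hA hinv)).2
  set v := μ.real A with hv
  have hv0 : 0 ≤ v := measureReal_nonneg
  have h3 : v * ε ≤ K * √v := by nlinarith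
  rcases hv0.lt_or_eq with hpos | hz
  · have hs : 0 < √v := Real.sqrt_pos.2 hpos
    have h4 : √v * ε ≤ K := by
      have h5 : √v * (√v * ε) ≤ √v * K := by
        rw [← mul_assoc, Real.mul_self_sqrt hv0]
        linarith
      exact le_of_mul_le_mul_left h5 hs
    rw [le_div_iff₀ (by positivity)]
    have h6 : (√v * ε) ^ 2 ≤ K ^ 2 := pow_le_pow_left₀ (by positivity) h4 2
    rwa [mul_pow, Real.sq_sqrt hv0] at h6
  · rw [← hz]
    positivity

/-- **the frequencies** -/
theorem freq_two [IsProbabilityMeasure μ] {T : X → X} (hT : MeasurePreserving T μ μ)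
    {f : X → ℝ} (hf : Measurable f) {M : ℝ} (hM : ∀ x, |f x| ≤ M) {c₀ K : ℝ} (hK : 0 ≤ K)
    (H : ∀ A, MeasurableSet A → T ⁻¹' A = A →
      |(∫ x in A, f x ∂μ) - μ.real A * c₀| ≤ K * √(μ.real A)) {ε : ℝ} (hε : 0 < ε) :
    ∃ Z : Set X, MeasurableSet Z ∧ μ.real Z ≤ 2 * (K ^ 2 / ε ^ 2) ∧
      ∀ x, x ∉ Z → ∀ r : ℝ, ε < r → ∀ᶠ n in atTop, |ergAv T f n x - c₀| ≤ r := by
  have h1 := freq_one hT hf hM hK H hε
  have h2 := freq_one (f := fun x => -f x) (c₀ := -c₀) hT hf.neg
    (fun x => by rw [abs_neg]; exact hM x) hK (fun A hA hi => by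
      rw [integral_neg]
      have := H A hA hi
      rwa [show -(∫ x in A, f x ∂μ) - μ.real A * -c₀ = -((∫ x in A, f x ∂μ) - μ.real A * c₀) by
        ring, abs_neg]) hε
  refine ⟨Up T f (c₀ + ε) ∪ Up T (fun x => -f x) (-c₀ + ε),
    (Up_meas hT.measurable hf _).union (Up_meas hT.measurable hf.neg _), ?_, ?_⟩
  · refine (measureReal_union_le _ _).trans ?_
    linarith
  · intro x hx r hr
    rw [Set.mem_union, not_or] at hx
    have a1 : ∀ᶠ n in atTop, ¬ (c₀ + r < ergAv T f n x) := by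
      by_contra hcon
      rw [not_eventually] at hcon
      simp only [not_not] at hcon
      obtain ⟨s, hs1, hs2⟩ := exists_rat_btwn (show c₀ + ε < c₀ + r by linarith)
      exact hx.1 ⟨s, hs1, hcon.mono fun n hn => hs2.trans hn⟩
    have a2 : ∀ᶠ n in atTop, ¬ (-c₀ + r < ergAv T (fun x => -f x) n x) := by
      by_contra hcon
      rw [not_eventually] at hcon
      simp only [not_not] at hcon
      obtain ⟨s, hs1, hs2⟩ := exists_rat_btwn (show -c₀ + ε < -c₀ + r by linarith)
      exact hx.2 ⟨s, hs1, hcon.mono fun n hn => hs2.trans hn⟩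
    filter_upwards [a1, a2] with n b1 b2
    have e : ergAv T (fun x => -f x) n x = -ergAv T f n x := by
      unfold ergAv
      rw [Finset.sum_neg_distrib, mul_neg]
    rw [e] at b2
    rw [abs_le]
    constructor <;> linarith

end Pool.Agent.V1152.SMI
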