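import Mathlib

/-!
# Counting units along intervals and along arrangements

The recursion behind the comparison of the total domination number of the unitary Cayley graph
with Jacobsthal's function.
-/

set_option autoImplicit false

namespace Pool.Agent.V1152.Unitary

open Finset

open Classical in
/-- The indicator of the units of `ZMod P`. -/
noncomputable def ind {P : ℕ} (z : ZMod P) : ℕ := if IsUnit z then 1 else 0

theorem sum_period {P : ℕ} [NeZero P] (f : ZMod P → ℕ) (w : ZMod P) :
    ∑ k ∈ range P, f (w + (k : ZMod P)) = ∑ z, f z := by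
  rw [← Fin.sum_univ_eq_sum_range (fun k => f (w + (k : ZMod P))) P]
  refine Fintype.sum_bijective (fun k : Fin P => w + ((k : ℕ) : ZMod P)) ?_ _ _ (fun _ => rfl)
  refine (Fintype.bijective_iff_injective_and_card _).2 ⟨?_, by simp [ZMod.card]⟩
  intro a b hab
  have h := add_left_cancel hab
  rw [ZMod.natCast_eq_natCast_iff'] at h
  rw [Nat.mod_eq_of_lt a.2, Nat.mod_eq_of_lt b.2] at h
  exact Fin.ext h

theorem sum_periods {P : ℕ} [NeZero P] (f : ZMod P → ℕ) (w : ZMod P) (m : ℕ) :
    ∑ k ∈ range (P * m), f (w + (k : ZMod P)) = m * ∑ z, f z := by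
  induction m with
  | zero => simp
  | succ m ih =>
    rw [Nat.mul_succ, sum_range_add, ih]
    have : ∑ x ∈ range P, f (w + ((P * m + x : ℕ) : ZMod P)) = ∑ z, f z := by
      rw [← sum_period f w]
      refine sum_congr rfl fun x _ => ?_
      simp
    rw [this]
    ring

theorem sum_periods_sub {P : ℕ} [NeZero P] (f : ZMod P → ℕ) (w : ZMod P) (m : ℕ) :
    ∑ k ∈ range (P * m), f (w - (k : ZMod P)) = m * ∑ z, f z := by
  have h := sum_periods (fun z => f (-z)) (-w) m
  rw [show ∑ z, f (-z) = ∑ z, f z from Equiv.sum_comp (Equiv.neg (ZMod P)) f] at h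
  rw [← h]
  refine sum_congr rfl fun k _ => ?_
  congr 1
  ring

/-- The number of units in an interval. -/
noncomputable def cntI {P : ℕ} (L : ℕ) (y : ZMod P) : ℕ := ∑ i ∈ range L, ind (y + (i : ZMod P))

/-- The number of members `c j` of an arrangement for which `x - c j` is a unit. -/
noncomputable def cntA {P L : ℕ} (c : Fin L → ZMod P) (x : ZMod P) : ℕ := ∑ j, ind (x - c j)

theorem cntI_add {P : ℕ} [NeZero P] (L m : ℕ) (y : ZMod P) :
    cntI (L + P * m) y = cntI L y + m * ∑ z : ZMod P, ind z := by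
  rw [cntI, sum_range_add, cntI]
  congr 1
  rw [← sum_periods (fun z => ind z) (y + (L : ZMod P)) m]
  refine sum_congr rfl fun k _ => ?_
  push_cast
  rw [add_assoc]

/-- The state of the recursion. -/
def State (P L δ δ' : ℕ) : Prop :=
  ∃ a b α β : ℕ, a + δ ≤ α ∧ β + δ' ≤ b ∧ α ≤ β ∧
    (∃ y : ZMod P, cntI L y ≤ a) ∧ (∃ y : ZMod P, b ≤ cntI L y) ∧
    (∃ c : Fin L → ZMod P, ∀ x, α ≤ cntA c x) ∧ (∃ c : Fin L → ZMod P, ∀ x, cntA c x ≤ β)

section Step

variable {P u : ℕ}

theorem coprime_aux : P.Coprime (P * u + 1) := by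
  rw [Nat.coprime_mul_left_add_right]
  exact Nat.coprime_one_right P

theorem ind_crt (h : P.Coprime (P * u + 1)) (z : ZMod (P * (P * u + 1)))
    (hp : (P * u + 1).Prime) :
    ind z = if (ZMod.chineseRemainder h z).2 = 0 then 0 else ind (ZMod.chineseRemainder h z).1 := by
  have : Fact (P * u + 1).Prime := ⟨hp⟩
  have h1 : IsUnit z ↔ IsUnit (ZMod.chineseRemainder h z).1 ∧ (ZMod.chineseRemainder h z).2 ≠ 0 := by
    rw [← isUnit_iff_ne_zero, ← Prod.isUnit_iff]
    exact (MulEquiv.isUnit_map (ZMod.chineseRemainder h)).symm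
  unfold ind
  by_cases h2 : (ZMod.chineseRemainder h z).2 = 0
  · rw [if_pos h2, if_neg]
    rw [h1]
    exact fun h3 => h3.2 h2
  · rw [if_neg h2]
    by_cases h3 : IsUnit (ZMod.chineseRemainder h z).1
    · rw [if_pos h3, if_pos (h1.2 ⟨h3, h2⟩)]
    · rw [if_neg h3, if_neg]
      rw [h1]
      exact fun h4 => h3 h4.1

theorem interval_step [NeZero P] (hu : 0 < u) (hp : (P * u + 1).Prime) (L : ℕ) (y y' : ZMod P) :
    ∃ Y : ZMod (P * (P * u + 1)), cntI ((P * u + 1) * L) Y + cntI L y' =
      cntI L y + u * L * ∑ z : ZMod P, ind z := by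
  have h : P.Coprime (P * u + 1) := coprime_aux
  have : Fact (P * u + 1).Prime := ⟨hp⟩
  set e := ZMod.chineseRemainder h with he
  set i0 : ℕ := (y' - y).val with hi0
  have hi0P : i0 < P := ZMod.val_lt _
  have hi0p : i0 < P * u + 1 := by
    have : P ≤ P * u := Nat.le_mul_of_pos_right P hu
    omega
  have hy' : y + (i0 : ZMod P) = y' := by
    rw [hi0, ZMod.natCast_zmod_val]
    ring
  set z : ZMod (P * u + 1) := -(i0 : ZMod (P * u + 1)) with hz
  refine ⟨e.symm (y, z), ?_⟩
  have hsum : ∀ i : ℕ, ind (e.symm (y, z) + (i : ZMod (P * (P * u + 1)))) +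
      (if z + (i : ZMod (P * u + 1)) = 0 then ind (y + (i : ZMod P)) else 0) =
      ind (y + (i : ZMod P)) := by
    intro i
    rw [ind_crt h _ hp, ← he]
    have e1 : e (e.symm (y, z) + (i : ZMod (P * (P * u + 1)))) = (y + i, z + i) := by
      rw [map_add, RingEquiv.apply_symm_apply, map_natCast]
      rfl
    rw [e1]
    by_cases hc : z + (i : ZMod (P * u + 1)) = 0
    · simp [hc]
    · simp [hc]
  have h1 : cntI ((P * u + 1) * L) (e.symm (y, z)) +
      ∑ i ∈ range ((P * u + 1) * L),
        (if z + (i : ZMod (P * u + 1)) = 0 then ind (y + (i : ZMod P)) else 0) =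
      cntI ((P * u + 1) * L) y := by
    rw [cntI, cntI, ← sum_add_distrib]
    exact sum_congr rfl fun i _ => hsum i
  have h2 : ∀ M : ℕ, ∑ i ∈ range ((P * u + 1) * M),
      (if z + (i : ZMod (P * u + 1)) = 0 then ind (y + (i : ZMod P)) else 0) = cntI M y' := by
    intro M
    induction M with
    | zero => simp [cntI]
    | succ M ih =>
      rw [Nat.mul_succ, sum_range_add, ih, cntI, cntI,
        sum_range_succ (fun i : ℕ => ind (y' + (i : ZMod P))) M]
      congr 1
      rw [sum_eq_single i0]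
      · have c1 : ((((P * u + 1) * M + i0 : ℕ)) : ZMod (P * u + 1)) = i0 := by
          push_cast
          have : ((P : ZMod (P * u + 1)) * u + 1) = 0 := by
            have := ZMod.natCast_self (P * u + 1)
            push_cast at this
            exact this
          rw [this]
          ring
        have c2 : ((((P * u + 1) * M + i0 : ℕ)) : ZMod P) = M + i0 := by
          push_cast
          simp
        rw [c1, c2, if_pos (by rw [hz]; ring), ← hy']
        congr 1
        ring
      · intro k hk hne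
        rw [if_neg]
        have c1 : ((((P * u + 1) * M + k : ℕ)) : ZMod (P * u + 1)) = k := by
          push_cast
          have : ((P : ZMod (P * u + 1)) * u + 1) = 0 := by
            have := ZMod.natCast_self (P * u + 1)
            push_cast at this
            exact this
          rw [this]
          ring
        rw [c1, hz]
        intro h0
        apply hne
        have h3 : (k : ZMod (P * u + 1)) = (i0 : ZMod (P * u + 1)) := by
          have := congrArg (· + (i0 : ZMod (P * u + 1))) h0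
          simpa [add_comm, add_left_comm] using this
        rw [ZMod.natCast_eq_natCast_iff', Nat.mod_eq_of_lt (mem_range.1 hk),
          Nat.mod_eq_of_lt hi0p] at h3
        exact h3
      · intro hn
        exact absurd (mem_range.2 hi0p) hn
  rw [h2] at h1
  rw [h1, show (P * u + 1) * L = L + P * (u * L) by ring, cntI_add]

theorem arrangement_step [NeZero P] (hp : (P * u + 1).Prime) (L : ℕ) (c c' : Fin L → ZMod P) :
    ∃ C : Fin ((P * u + 1) * L) → ZMod (P * (P * u + 1)), ∀ x, ∃ x1,
      (cntA C x + cntA c x1 = u * L * (∑ z : ZMod P, ind z) + cntA c x1) ∨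
      ∃ x2, cntA C x + cntA c' x2 = u * L * (∑ z : ZMod P, ind z) + cntA c x1 := by
  have h : P.Coprime (P * u + 1) := coprime_aux
  have : Fact (P * u + 1).Prime := ⟨hp⟩
  set e := ZMod.chineseRemainder h with he
  -- the classes
  set cl : Fin (P * u + 1) → Fin L → ZMod P := fun κ j =>
    if κ = Fin.last (P * u) then c j else ((κ : ℕ) : ZMod P) + c' j with hcl
  refine ⟨fun i => e.symm (cl (finProdFinEquiv.symm i).1 (finProdFinEquiv.symm i).2,
    (((finProdFinEquiv.symm i).1 : ℕ) : ZMod (P * u + 1))), fun x => ?_⟩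
  set x1 := (e x).1 with hx1
  set κ0 : Fin (P * u + 1) := ⟨(e x).2.val, ZMod.val_lt _⟩ with hκ0
  have hκ : ∀ κ : Fin (P * u + 1), ((e x).2 - ((κ : ℕ) : ZMod (P * u + 1)) = 0) ↔ κ = κ0 := by
    intro κ
    rw [sub_eq_zero]
    constructor
    · intro hh
      apply Fin.ext
      rw [hκ0]
      simp only
      rw [hh, ZMod.val_natCast, Nat.mod_eq_of_lt κ.2]
    · intro hh
      rw [hh, hκ0]
      simp
  have hA : cntA (fun i => e.symm (cl (finProdFinEquiv.symm i).1 (finProdFinEquiv.symm i).2,
      (((finProdFinEquiv.symm i).1 : ℕ) : ZMod (P * u + 1)))) x =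
      ∑ κ : Fin (P * u + 1), if κ = κ0 then 0 else ∑ j, ind (x1 - cl κ j) := by
    rw [cntA, ← Equiv.sum_comp finProdFinEquiv, Fintype.sum_prod_type]
    refine sum_congr rfl fun κ _ => ?_
    simp only [Equiv.symm_apply_apply]
    have hterm : ∀ j, ind (x - e.symm (cl κ j, ((κ : ℕ) : ZMod (P * u + 1)))) =
        if κ = κ0 then 0 else ind (x1 - cl κ j) := by
      intro j
      rw [ind_crt h _ hp, ← he, map_sub, RingEquiv.apply_symm_apply, Prod.snd_sub, Prod.fst_sub]
      simp only
      rw [← hx1]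
      by_cases hk : κ = κ0
      · rw [if_pos ((hκ κ).2 hk), if_pos hk]
      · rw [if_neg (fun h3 => hk ((hκ κ).1 h3)), if_neg hk]
    rw [sum_congr rfl fun j _ => hterm j]
    by_cases hk : κ = κ0
    · simp [hk]
    · simp [hk]
  have hB : cntA (fun i => e.symm (cl (finProdFinEquiv.symm i).1 (finProdFinEquiv.symm i).2,
      (((finProdFinEquiv.symm i).1 : ℕ) : ZMod (P * u + 1)))) x + ∑ j, ind (x1 - cl κ0 j) =
      ∑ κ : Fin (P * u + 1), ∑ j, ind (x1 - cl κ j) := by
    rw [hA]
    rw [← Finset.add_sum_erase univ (fun κ => ∑ j, ind (x1 - cl κ j)) (mem_univ κ0)]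
    rw [← Finset.add_sum_erase univ (fun κ => if κ = κ0 then 0 else ∑ j, ind (x1 - cl κ j))
      (mem_univ κ0)]
    simp only [if_true, zero_add]
    rw [add_comm]
    congr 1
    refine sum_congr rfl fun κ hκe => ?_
    rw [if_neg (ne_of_mem_erase hκe)]
  have hC : ∑ κ : Fin (P * u + 1), ∑ j, ind (x1 - cl κ j) =
      u * L * (∑ z : ZMod P, ind z) + cntA c x1 := by
    rw [Fin.sum_univ_castSucc]
    congr 1
    · have hterm : ∀ κ : Fin (P * u), ∑ j, ind (x1 - cl κ.castSucc j) =
          ∑ j, ind ((x1 - c' j) - ((κ : ℕ) : ZMod P)) := by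
        intro κ
        refine sum_congr rfl fun j _ => ?_
        have : cl κ.castSucc j = ((κ : ℕ) : ZMod P) + c' j := by
          rw [hcl]
          simp only
          rw [if_neg (Fin.castSucc_ne_last κ)]
          rfl
        rw [this]
        congr 1
        ring
      rw [sum_congr rfl fun κ _ => hterm κ, sum_comm]
      have hper : ∀ j : Fin L, ∑ κ : Fin (P * u), ind ((x1 - c' j) - ((κ : ℕ) : ZMod P)) =
          u * ∑ z : ZMod P, ind z := by
        intro j
        rw [Fin.sum_univ_eq_sum_range (fun k => ind ((x1 - c' j) - (k : ZMod P))) (P * u)]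
        exact sum_periods_sub (fun z => ind z) (x1 - c' j) u
      rw [sum_congr rfl fun j _ => hper j]
      simp only [sum_const, card_univ, Fintype.card_fin, smul_eq_mul]
      ring
    · rw [cntA]
      refine sum_congr rfl fun j _ => ?_
      rw [hcl]
      simp
  rw [hC] at hB
  refine ⟨x1, ?_⟩
  by_cases hlast : κ0 = Fin.last (P * u)
  · left
    have : ∑ j, ind (x1 - cl κ0 j) = cntA c x1 := by
      rw [cntA]
      refine sum_congr rfl fun j _ => ?_
      rw [hcl, hlast]
      simp
    rw [this] at hB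
    exact hB
  · right
    refine ⟨x1 - ((κ0 : ℕ) : ZMod P), ?_⟩
    have : ∑ j, ind (x1 - cl κ0 j) = cntA c' (x1 - ((κ0 : ℕ) : ZMod P)) := by
      rw [cntA]
      refine sum_congr rfl fun j _ => ?_
      rw [hcl]
      simp only
      rw [if_neg hlast]
      congr 1
      ring
    rw [this] at hB
    exact hB

end Step

theorem step {P L δ δ' : ℕ} (hP : 0 < P) (h : State P L δ δ') :
    ∃ P' L' : ℕ, 0 < P' ∧ State P' L' (δ + δ') (δ + δ') := by
  have : NeZero P := ⟨hP.ne'⟩
  obtain ⟨a, b, α, β, h1, h2, h3, ⟨y, hy⟩, ⟨y', hy'⟩, ⟨c, hc⟩, ⟨c', hc'⟩⟩ := h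
  obtain ⟨p, hp, hpgt, hpmod⟩ := Nat.exists_prime_gt_modEq_one (P + 1) hP.ne'
  obtain ⟨u, hu⟩ : ∃ u, p = P * u + 1 := by
    have : P ∣ p - 1 := (Nat.modEq_iff_dvd' (by omega)).1 hpmod.symm
    obtain ⟨u, hu⟩ := this
    exact ⟨u, by omega⟩
  subst hu
  have hu0 : 0 < u := by
    rcases Nat.eq_zero_or_pos u with h0 | h0
    · subst h0
      simp at hpgt
    · exact h0
  set N := u * L * ∑ z : ZMod P, ind z with hN
  obtain ⟨Y, hY⟩ := interval_step hu0 hp L y y'
  obtain ⟨Y', hY'⟩ := interval_step hu0 hp L y' y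
  obtain ⟨C, hC⟩ := arrangement_step (u := u) hp L c c'
  obtain ⟨C', hC'⟩ := arrangement_step (u := u) hp L c' c
  rw [← hN] at hY hY'
  have hab : cntI ((P * u + 1) * L) Y + b ≤ a + N := by omega
  refine ⟨P * (P * u + 1), (P * u + 1) * L, by positivity, N + a - b, N + b - a, N + α - β,
    N + β - α, by omega, by omega, by omega, ⟨Y, by omega⟩, ⟨Y', by omega⟩, ⟨C, fun x => ?_⟩,
    ⟨C', fun x => ?_⟩⟩
  · obtain ⟨x1, hx | ⟨x2, hx⟩⟩ := hC x
    · omega
    · have e1 := hc x1
      have e2 := hc' x2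
      omega
  · obtain ⟨x1, hx | ⟨x2, hx⟩⟩ := hC' x
    · omega
    · have e1 := hc' x1
      have e2 := hc x2
      omega

theorem ind_fifteen (z : ZMod 15) : ind z = if z.val.Coprime 15 then 1 else 0 := by
  unfold ind
  have : IsUnit z ↔ z.val.Coprime 15 := by
    conv_lhs => rw [← ZMod.natCast_zmod_val z]
    exact ZMod.isUnit_iff_coprime _ _
  by_cases h : z.val.Coprime 15
  · rw [if_pos h, if_pos (this.2 h)]
  · rw [if_neg h, if_neg (fun h' => h (this.1 h'))]

theorem base : State 15 8 1 0 := by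
  refine ⟨3, 5, 4, 5, by norm_num, by norm_num, by norm_num, ⟨3, ?_⟩, ⟨1, ?_⟩,
    ⟨![0, 6, 12, 10, 1, 7, 8, 14], ?_⟩, ⟨![0, 1, 2, 3, 4, 5, 6, 7], ?_⟩⟩
  · simp only [cntI, ind_fifteen]
    decide
  · simp only [cntI, ind_fifteen]
    decide
  · simp only [cntA, ind_fifteen]
    decide
  · simp only [cntA, ind_fifteen]
    decide

theorem exists_state (j : ℕ) : ∃ P L : ℕ, 0 < P ∧ State P L (2 ^ j) (2 ^ j) := by
  induction j with
  | zero => exact step (by norm_num) base
  | succ j ih =>
    obtain ⟨P, L, hP, h⟩ := ih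
    have := step hP h
    rwa [← two_mul, ← pow_succ'] at this

end Pool.Agent.V1152.Unitary
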