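import Mathlib
import Pool.Agent.V1152.Unitary

/-!
# Total domination of unitary Cayley graphs versus Jacobsthal's function
-/

set_option autoImplicit false

namespace Pool.Agent.V1152.Unitary

open Finset

/-- The unitary Cayley graph of `ℤ/n`: two distinct residues are adjacent when their difference
is a unit. -/
def unitaryCayley (n : ℕ) : SimpleGraph (ZMod n) where
  Adj x y := x ≠ y ∧ IsUnit (x - y)
  symm := ⟨by
    rintro x y ⟨h1, h2⟩
    refine ⟨h1.symm, ?_⟩
    rw [← neg_sub]
    exact h2.neg⟩
  loopless := ⟨fun x h => h.1 rfl⟩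

/-- The domination number: the least size of a set `D` such that each vertex is in `D` or is
adjacent to a vertex of `D`. -/
noncomputable def domNumber {V : Type} (G : SimpleGraph V) : ℕ :=
  sInf {k | ∃ D : Finset V, D.card = k ∧ ∀ v, v ∈ D ∨ ∃ d ∈ D, G.Adj v d}

/-- The total domination number: the least size of a set `D` such that each vertex is adjacent
to a vertex of `D`. -/
noncomputable def totalDomNumber {V : Type} (G : SimpleGraph V) : ℕ :=
  sInf {k | ∃ D : Finset V, D.card = k ∧ ∀ v, ∃ d ∈ D, G.Adj v d}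

/-- Jacobsthal's function: the least positive integer `m` such that among any `m` consecutive
integers at least one is coprime to `n`. -/
noncomputable def jacobsthal (n : ℕ) : ℕ :=
  sInf {m | 0 < m ∧ ∀ a : ℤ, ∃ i : ℕ, i < m ∧ IsCoprime (a + i) (n : ℤ)}

theorem jacobsthal_set_nonempty (n : ℕ) (hn : 0 < n) :
    {m | 0 < m ∧ ∀ a : ℤ, ∃ i : ℕ, i < m ∧ IsCoprime (a + i) (n : ℤ)}.Nonempty := by
  refine ⟨n, hn, fun a => ⟨((1 - a) % n).toNat, ?_, ?_⟩⟩
  · have h1 := Int.emod_lt_of_pos (1 - a) (by exact_mod_cast hn : (0 : ℤ) < n)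
    have h2 := Int.emod_nonneg (1 - a) (by exact_mod_cast hn.ne' : (n : ℤ) ≠ 0)
    omega
  · have h2 := Int.emod_nonneg (1 - a) (by exact_mod_cast hn.ne' : (n : ℤ) ≠ 0)
    rw [Int.toNat_of_nonneg h2]
    have h3 := Int.emod_add_mul_ediv (1 - a) n
    refine ⟨1, (1 - a) / n, ?_⟩
    linarith

theorem domNumber_le_total {V : Type} [Finite V] (G : SimpleGraph V)
    (h : ∀ v, ∃ w, G.Adj v w) : domNumber G ≤ totalDomNumber G := by
  classical
  cases nonempty_fintype V
  have hne : {k | ∃ D : Finset V, D.card = k ∧ ∀ v, ∃ d ∈ D, G.Adj v d}.Nonempty :=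
    ⟨_, univ, rfl, fun v => by simpa using h v⟩
  obtain ⟨D, hD, hD'⟩ := Nat.sInf_mem hne
  exact Nat.sInf_le ⟨D, hD, fun v => Or.inr (hD' v)⟩

theorem ind_eq_one_iff {P : ℕ} (z : ZMod P) : ind z = 1 ↔ IsUnit z := by
  unfold ind
  split_ifs with h
  · simp [h]
  · simp [h]

theorem card_filter_ind {P : ℕ} {ι : Type} (s : Finset ι) (f : ι → ZMod P) :
    (s.filter fun i => ind (f i) = 1).card = ∑ i ∈ s, ind (f i) := by
  rw [card_filter]
  refine sum_congr rfl fun i _ => ?_
  unfold ind
  split_ifs <;> simp_all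

theorem main_of_state {P L a α δ : ℕ} (hP : 0 < P) (hδ : 2 ≤ δ) (haα : a + δ ≤ α)
    (y : ZMod P) (hy : cntI L y ≤ a) (c : Fin L → ZMod P) (hc : ∀ x, α ≤ cntA c x) :
    ∃ n : ℕ, 1 < n ∧ δ - 1 ≤ n.primeFactors.card ∧
      totalDomNumber (unitaryCayley n) + δ ≤ jacobsthal n := by
  classical
  set r := α - 1 with hr
  set M := L + (r - a) with hM
  set U : Finset ℕ := (range M).filter fun i => ind (y + (i : ZMod P)) = 1 with hU
  have hUcard : U.card ≤ r := by
    have h1 : U.card = cntI M y := by
      rw [hU, card_filter_ind, cntI]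
    have h2 : cntI M y ≤ cntI L y + (r - a) := by
      rw [hM, cntI, sum_range_add, ← cntI]
      refine Nat.add_le_add_left ?_ _
      calc _ ≤ ∑ x ∈ range (r - a), 1 := by
            refine sum_le_sum fun i _ => ?_
            unfold ind
            split_ifs <;> norm_num
        _ = r - a := by simp
    omega
  obtain ⟨U', hUU', hU'sub, hU'card⟩ := exists_subsuperset_card_eq
    (s := U) (t := range (M + r)) (n := r)
    ((filter_subset _ _).trans (range_subset_range.2 (by omega))) hUcard (by simp)
  set q : ℕ → ℕ := fun i => Nat.nth Nat.Prime (P + M + r + i) with hq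
  have hqp : ∀ i, (q i).Prime := fun i => Nat.prime_nth_prime _
  have hqgt : ∀ i, P + M + r + i < q i := by
    intro i
    have := Nat.add_two_le_nth_prime (P + M + r + i)
    simp only [hq]
    omega
  have hqinj : Function.Injective q := by
    intro i j hij
    have := Nat.nth_injective Nat.infinite_setOfPred_prime hij
    omega
  have hpair : Set.Pairwise (U' : Set ℕ) (Function.onFun Nat.Coprime q) := by
    intro i _ j _ hij
    exact (Nat.coprime_primes (hqp i) (hqp j)).2 fun h => hij (hqinj h)
  set Q : ℕ := ∏ i ∈ U', q i with hQ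
  have hQpos : 0 < Q := prod_pos fun i _ => (hqp i).pos
  have hdvd : ∀ i ∈ U', q i ∣ Q := fun i hi => dvd_prod_of_mem q hi
  have hcopQ : ∀ w : ℤ, (∀ i ∈ U', ¬ (q i : ℤ) ∣ w) → IsCoprime (Q : ℤ) w := by
    intro w hw
    rw [hQ, Nat.cast_prod]
    refine IsCoprime.prod_left fun i hi => ?_
    exact (Prime.coprime_iff_not_dvd (Nat.prime_iff_prime_int.1 (hqp i))).2 (hw i hi)
  have hPQ : P.Coprime Q := by
    rw [hQ]
    refine Nat.Coprime.prod_right fun i _ => ?_
    rw [Nat.coprime_comm, (hqp i).coprime_iff_not_dvd]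
    intro h
    have h1 := Nat.le_of_dvd hP h
    have h2 := hqgt i
    omega
  have hr1 : 1 ≤ r := by omega
  obtain ⟨i1, hi1⟩ : U'.Nonempty := by
    rw [← card_pos, hU'card]
    exact hr1
  have hQ1 : 1 < Q := lt_of_lt_of_le (hqp i1).one_lt (Nat.le_of_dvd hQpos (hdvd i1 hi1))
  have hn1 : 1 < P * Q := by
    calc 1 < Q := hQ1
      _ ≤ P * Q := Nat.le_mul_of_pos_left Q hP
  have : NeZero P := ⟨hP.ne'⟩
  have : NeZero Q := ⟨hQpos.ne'⟩
  have : Fact (1 < P * Q) := ⟨hn1⟩
  have : NeZero (P * Q) := ⟨by omega⟩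
  set e := ZMod.chineseRemainder hPQ with he
  have hunit : ∀ z, IsUnit z ↔ IsUnit (e z).1 ∧ IsUnit (e z).2 := by
    intro z
    rw [← Prod.isUnit_iff]
    exact (MulEquiv.isUnit_map e).symm
  refine ⟨P * Q, hn1, ?_, ?_⟩
  · -- the number of prime factors
    have hsub : U'.image q ⊆ (P * Q).primeFactors := by
      intro p hp
      obtain ⟨i, hi, rfl⟩ := mem_image.1 hp
      rw [Nat.mem_primeFactors]
      exact ⟨hqp i, (hdvd i hi).mul_left P, by omega⟩
    have h1 := card_le_card hsub
    rw [card_image_of_injective _ hqinj, hU'card] at h1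
    omega
  · -- upper bound for the total domination number
    have hup : totalDomNumber (unitaryCayley (P * Q)) ≤ L := by
      set D : Finset (ZMod (P * Q)) :=
        univ.image (fun j : Fin L => e.symm (c j, ((j : ℕ) : ZMod Q))) with hD
      have hDcard : D.card ≤ L := by
        calc D.card ≤ (univ : Finset (Fin L)).card := card_image_le
          _ = L := by simp
      refine le_trans (Nat.sInf_le ⟨D, rfl, fun v => ?_⟩) hDcard
      set Γ : Finset (Fin L) := univ.filter fun j => ind ((e v).1 - c j) = 1 with hΓ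
      have hΓcard : α ≤ Γ.card := by
        have h1 : Γ.card = cntA c (e v).1 := by
          rw [hΓ, card_filter_ind, cntA]
        rw [h1]
        exact hc _
      set B : Finset ℕ := U'.image fun i => (e v).2.val % q i with hB
      have hBcard : B.card ≤ r := by
        calc B.card ≤ U'.card := card_image_le
          _ = r := hU'card
      obtain ⟨j, hj, hjB⟩ : ∃ j ∈ Γ, (j : ℕ) ∉ B := by
        by_contra hcon
        push Not at hcon
        have h1 : Γ.image (fun j : Fin L => (j : ℕ)) ⊆ B := by
          intro k hk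
          obtain ⟨j, hj, rfl⟩ := mem_image.1 hk
          exact hcon j hj
        have h2 := card_le_card h1
        rw [card_image_of_injective _ Fin.val_injective] at h2
        omega
      have hUv : IsUnit (v - e.symm (c j, ((j : ℕ) : ZMod Q))) := by
        rw [hunit, map_sub, RingEquiv.apply_symm_apply, Prod.fst_sub, Prod.snd_sub]
        refine ⟨(ind_eq_one_iff _).1 (mem_filter.1 hj).2, ?_⟩
        have hcast : (e v).2 - ((j : ℕ) : ZMod Q) =
            ((((e v).2.val : ℤ) - (j : ℕ) : ℤ) : ZMod Q) := by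
          push_cast
          rw [ZMod.natCast_zmod_val]
        rw [show ((e v).2, (e v).1).1 - ((j : ℕ) : ZMod Q) = (e v).2 - ((j : ℕ) : ZMod Q) from rfl,
          hcast, ZMod.coe_int_isUnit_iff_isCoprime]
        refine hcopQ _ fun i hi hdiv => ?_
        apply hjB
        rw [hB, mem_image]
        refine ⟨i, hi, ?_⟩
        have hmod : (e v).2.val ≡ j.1 [MOD q i] := by
          rw [Nat.ModEq.comm, Nat.modEq_iff_dvd]
          exact hdiv
        have hjlt : j.1 < q i := by
          have h1 := hqgt i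
          have h2 := j.2
          omega
        rw [Nat.ModEq, Nat.mod_eq_of_lt hjlt] at hmod
        exact hmod
      refine ⟨_, mem_image_of_mem _ (mem_univ j), ?_, hUv⟩
      intro hv
      rw [← hv, sub_self] at hUv
      exact not_isUnit_zero hUv
    -- lower bound for Jacobsthal's function
    have hlow : M + 1 ≤ jacobsthal (P * Q) := by
      obtain ⟨-, hg⟩ := Nat.sInf_mem (jacobsthal_set_nonempty (P * Q) (by omega))
      change ∀ a : ℤ, ∃ i : ℕ, i < jacobsthal (P * Q) ∧
        IsCoprime (a + i) ((P * Q : ℕ) : ℤ) at hg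
      obtain ⟨b, hb⟩ := Nat.chineseRemainderOfFinset (fun i => q i - i) q U'
        (fun i _ => (hqp i).ne_zero) hpair
      set A : ZMod (P * Q) := e.symm (y, (b : ZMod Q)) with hA
      obtain ⟨k, hk, hcop⟩ := hg (A.val : ℤ)
      by_contra hcon
      have hkM : k < M := by omega
      rw [isCoprime_comm, ← ZMod.coe_int_isUnit_iff_isCoprime, hunit] at hcop
      have hval : e (((A.val : ℤ) + (k : ℤ) : ℤ) : ZMod (P * Q)) =
          (y + (k : ZMod P), ((b + k : ℕ) : ZMod Q)) := by
        push_cast
        rw [ZMod.natCast_zmod_val, map_add, hA, RingEquiv.apply_symm_apply, map_natCast]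
        rfl
      rw [hval] at hcop
      obtain ⟨hc1, hc2⟩ := hcop
      have hkU : k ∈ U := by
        rw [hU, mem_filter]
        exact ⟨mem_range.2 hkM, (ind_eq_one_iff _).2 hc1⟩
      have hkU' := hUU' hkU
      have hqb : q k ∣ b + k := by
        have h1 := hb k hkU'
        have h2 : b + k ≡ q k - k + k [MOD q k] := h1.add_right k
        have h3 : q k - k + k = q k := by
          have := hqgt k
          omega
        rw [h3] at h2
        exact (Nat.modEq_zero_iff_dvd.1 (h2.trans (by simp [Nat.ModEq])))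
      have hcop2 : (b + k).Coprime Q := (ZMod.isUnit_iff_coprime _ _).1 hc2
      exact Nat.Prime.not_coprime_iff_dvd.2 ⟨q k, hqp k, hqb, hdvd k hkU'⟩ hcop2
    omega

/-- For every `j` there is an integer `n > 1` with at least `j` distinct prime factors such that
the total domination number of the unitary Cayley graph of `ℤ/n` is at most `g(n) - j`. -/
theorem exists_gap (j : ℕ) : ∃ n : ℕ, 1 < n ∧ j ≤ n.primeFactors.card ∧
    totalDomNumber (unitaryCayley n) + j ≤ jacobsthal n := by
  obtain ⟨P, L, hP, a, b, α, β, h1, -, -, ⟨y, hy⟩, -, ⟨c, hc⟩, -⟩ := exists_state (j + 1)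
  have h2 : j + 2 ≤ 2 ^ (j + 1) := by
    have := Nat.lt_two_pow_self (n := j)
    rw [pow_succ]
    omega
  obtain ⟨n, hn1, hn2, hn3⟩ := main_of_state hP (by omega : 2 ≤ 2 ^ (j + 1)) h1 y hy c hc
  exact ⟨n, hn1, by omega, by omega⟩

theorem exists_adj (n : ℕ) (hn : 1 < n) (v : ZMod n) : ∃ w, (unitaryCayley n).Adj v w := by
  have : Fact (1 < n) := ⟨hn⟩
  refine ⟨v - 1, ?_, ?_⟩
  · intro h
    have : (1 : ZMod n) = 0 := by
      have := congrArg (fun z => v - z) h
      simpa using this.symm
    exact one_ne_zero this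
  · simp

end Pool.Agent.V1152.Unitary
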