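import Mathlib

/-!
# Trees given by a parent function
-/

set_option autoImplicit false

namespace Pool.Agent.V1152.ParentTree

/-- The graph whose edges join each vertex `x ≠ r` to `parent x`. -/
def parentGraph {V : Type} (r : V) (parent : V → V) : SimpleGraph V :=
  SimpleGraph.fromRel fun x y => x ≠ r ∧ parent x = y

theorem adj_parent {V : Type} {r : V} {parent : V → V} {rank : V → ℕ}
    (h : ∀ x, x ≠ r → rank (parent x) < rank x) {x : V} (hx : x ≠ r) :
    (parentGraph r parent).Adj x (parent x) := by
  rw [parentGraph, SimpleGraph.fromRel_adj]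
  refine ⟨fun e => ?_, Or.inl ⟨hx, rfl⟩⟩
  have := h x hx
  rw [← e] at this
  exact lt_irrefl _ this

theorem isTree {V : Type} [Finite V] (r : V) (parent : V → V) (rank : V → ℕ)
    (h : ∀ x, x ≠ r → rank (parent x) < rank x) : (parentGraph r parent).IsTree := by
  classical
  cases nonempty_fintype V
  have hreach : ∀ n : ℕ, ∀ x, rank x ≤ n → (parentGraph r parent).Reachable x r := by
    intro n
    induction n with
    | zero =>
      intro x hx
      by_cases hxr : x = r
      · rw [hxr]
      · have := h x hxr
        omega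
    | succ n ih =>
      intro x hx
      by_cases hxr : x = r
      · rw [hxr]
      · have h1 := h x hxr
        exact (adj_parent h hxr).reachable.trans (ih _ (by omega))
  have hne : Nonempty V := ⟨r⟩
  have hconn : (parentGraph r parent).Connected :=
    ⟨fun x y => (hreach _ x le_rfl).trans (hreach _ y le_rfl).symm⟩
  rw [SimpleGraph.isTree_iff_connected_and_card]
  refine ⟨hconn, ?_⟩
  set f : {x // x ≠ r} → (parentGraph r parent).edgeSet := fun x =>
    ⟨s(x.1, parent x.1), (SimpleGraph.mem_edgeSet _).2 (adj_parent h x.2)⟩ with hf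
  have hbij : Function.Bijective f := by
    constructor
    · rintro ⟨x, hx⟩ ⟨y, hy⟩ hxy
      simp only [hf, Subtype.mk.injEq, Sym2.eq_iff] at hxy
      rcases hxy with ⟨e, -⟩ | ⟨e1, e2⟩
      · exact Subtype.ext e
      · exfalso
        have h1 := h x hx
        have h2 := h y hy
        rw [e2] at h1
        rw [← e1] at h2
        omega
    · rintro ⟨e, he⟩
      induction e with
      | _ a b =>
        rw [SimpleGraph.mem_edgeSet, parentGraph, SimpleGraph.fromRel_adj] at he
        rcases he with ⟨-, ⟨h1, h2⟩ | ⟨h1, h2⟩⟩
        · exact ⟨⟨a, h1⟩, Subtype.ext (by simp [hf, h2])⟩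
        · exact ⟨⟨b, h1⟩, Subtype.ext (by simp [hf, h2, Sym2.eq_swap])⟩
  rw [← Nat.card_eq_of_bijective f hbij, Nat.card_eq_fintype_card, Nat.card_eq_fintype_card,
    Fintype.card_subtype_compl, Fintype.card_subtype_eq]
  have : 0 < Fintype.card V := Fintype.card_pos
  omega

/-- A function which changes by at most one along edges bounds distances from below. -/
theorem le_dist {V : Type} {G : SimpleGraph V} (hG : G.Connected) (φ : V → ℤ)
    (h : ∀ a b, G.Adj a b → φ b ≤ φ a + 1) (x y : V) : φ y ≤ φ x + G.dist x y := by
  obtain ⟨w, hw⟩ := hG.exists_walk_length_eq_dist x y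
  rw [← hw]
  clear hw
  induction w with
  | nil => simp
  | cons hadj p ih =>
    have := h _ _ hadj
    rw [SimpleGraph.Walk.length_cons]
    push_cast
    omega

end Pool.Agent.V1152.ParentTree
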