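import Pool.Agent.V1152.SMIM

set_option autoImplicit false

/-!
# The length of the essential boundary of an invariant set
-/

namespace Pool.Agent.V1152.SMI

open Real MeasureTheory Function Filter Topology Pool.Agent.TH705.SM
open Pool.Agent.Y332.SM (HasCurve bad hnbd vol_bad meet front_swap vol_hnbd haus_swap)
open scoped ENNReal

/-- the essential boundary -/
def EB (A : Set T2) : Set T2 := {p | ∀ r : ℝ, 0 < r → Both A r p}

theorem front_EB (A : Set T2) : frontier (NN A) ⊆ EB A := by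
  intro z hz r hr
  have h := both_frontier (A := A) (δ := r / 2) (p := z) (by positivity)
    (Metric.self_subset_cthickening _ hz)
  rwa [mul_div_cancel₀ r (by norm_num)] at h

theorem front_EB' (A : Set T2) : frontier (NN Aᶜ) ⊆ EB A :=
  fun _ hz r hr => both_compl (front_EB Aᶜ hz r hr)

theorem rest_EB (A : Set T2) : (NN A ∪ NN Aᶜ)ᶜ ⊆ EB A := by
  intro p hp r hr
  rw [Set.mem_compl_iff, Set.mem_union, not_or] at hp
  exact both_rest hr hp.1 hp.2

theorem hnbd_mono {r : ℝ} {F F' : Set T2} (h : F ⊆ F') : hnbd r F ⊆ hnbd r F' := by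
  rintro p ⟨b, hb, hp⟩
  exact ⟨b, hb, h hp⟩

theorem sub_hnbd {r : ℝ} (hr : 0 ≤ r) (F : Set T2) : F ⊆ hnbd r F := by
  intro p hp
  refine ⟨0, by simpa using hr, ?_⟩
  simpa using hp

/-- the error terms against the length of the essential boundary -/
theorem ess_len {a M : ℝ} (hM : 16 ≤ M) (haM : |a| = M ^ 2) {n : ℕ} (hn : 1 ≤ n) {A : Set T2}
    (hA : MeasurableSet A) (hinv : S a ⁻¹' A = A) {η : ℝ≥0∞} (h1 : η ≤ volume A)
    (h2 : η ≤ volume Aᶜ) :
    η ≤ ENNReal.ofReal (3 * n / |a| + 3.71 / M) +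
      ENNReal.ofReal (4 * ((1 / √M) ^ (n + 1) / 5)) * Measure.hausdorffMeasure 1 (EB A) := by
  have hM0 : 0 < M := by linarith
  have hs0 : 0 < √M := Real.sqrt_pos.2 hM0
  have hr : 0 < (1 / √M) ^ (n + 1) / 5 := by positivity
  set r := (1 / √M) ^ (n + 1) / 5 with hrd
  have hinvc : S a ⁻¹' Aᶜ = Aᶜ := by rw [Set.preimage_compl, hinv]
  have hv := vol_bad hM haM hn (n := n)
  have e1 : volume (hnbd r (EB A)) ≤
      ENNReal.ofReal (4 * r) * Measure.hausdorffMeasure 1 (EB A) := vol_hnbd hr _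
  have e2 : volume (hnbd r (Prod.swap ⁻¹' EB A)) ≤
      ENNReal.ofReal (4 * r) * Measure.hausdorffMeasure 1 (EB A) :=
    (vol_hnbd hr _).trans (mul_le_mul_right (haus_swap _) _)
  have dich : ∀ B : Set T2, S a ⁻¹' B = B → frontier B ⊆ EB A →
      B ⊆ bad a M n ∪ hnbd r (EB A) ∨
      Bᶜ ⊆ Prod.swap ⁻¹' (bad a M n ∪ hnbd r (Prod.swap ⁻¹' EB A)) := by
    intro B hB hF
    by_cases h1 : HasCurve B
    · right
      have h2 : ¬ HasCurve (Prod.swap ⁻¹' Bᶜ) := by
        intro h2
        obtain ⟨p, hp1, hp2⟩ := meet h1 h2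
        exact hp2 hp1
      have h3 := sub_of_no_curve hM haM hn (Y332.SM.swap_inv hB) h2
      intro p hp
      have h4 : p.swap ∈ Prod.swap ⁻¹' Bᶜ := by
        rw [Set.mem_preimage, Prod.swap_swap]
        exact hp
      rcases h3 h4 with h5 | h5
      · exact Or.inl h5
      · right
        rw [front_swap] at h5
        exact hnbd_mono (Set.preimage_mono hF) h5
    · left
      have h3 := sub_of_no_curve hM haM hn hB h1
      intro p hp
      rcases h3 hp with h5 | h5
      · exact Or.inl h5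
      · exact Or.inr (hnbd_mono hF h5)
  have two : ∀ L : Set T2, L ⊆ Prod.swap ⁻¹' (bad a M n ∪ hnbd r (Prod.swap ⁻¹' EB A)) →
      volume L ≤ ENNReal.ofReal (3 * n / |a| + 3.71 / M) +
        ENNReal.ofReal (4 * r) * Measure.hausdorffMeasure 1 (EB A) := by
    intro L hL
    refine (measure_mono hL).trans ?_
    rw [Y332.SM.vol_swap]
    exact (measure_union_le _ _).trans (add_le_add hv e2)
  rcases dich (NN A) (NN_inv hA hinv) (front_EB A) with d1 | d1
  · rcases dich (NN Aᶜ) (NN_inv hA.compl hinvc) (front_EB' A) with d2 | d2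
    · have h3 : (Set.univ : Set T2) ⊆ bad a M n ∪ hnbd r (EB A) := by
        intro p _
        by_cases h1 : p ∈ NN A
        · exact d1 h1
        · by_cases h2 : p ∈ NN Aᶜ
          · exact d2 h2
          · right
            apply sub_hnbd hr.le
            apply rest_EB
            rw [Set.mem_compl_iff, Set.mem_union, not_or]
            exact ⟨h1, h2⟩
      exact (h1.trans (measure_mono (Set.subset_univ _))).trans
        (((measure_mono h3).trans (measure_union_le _ _)).trans (add_le_add hv e1))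
    · exact (h2.trans NN_le).trans (two _ d2)
  · exact (h1.trans NN_le).trans (two _ d1)

/-- the exponential lower bound -/
theorem ess_length {a M : ℝ} (hM : 16 ≤ M) (haM : |a| = M ^ 2) {A : Set T2}
    (hAm : MeasurableSet A) (hA : S a ⁻¹' A = A) {η : ℝ} (h1 : ENNReal.ofReal η ≤ volume A)
    (h2 : ENNReal.ofReal η ≤ volume Aᶜ) :
    ENNReal.ofReal (|a| ^ ((η * |a| - 5 * M) / 12)) ≤
      1 + 2 * Measure.hausdorffMeasure 1 (EB A) := by
  have hM0 : 0 < M := by linarith
  have ha0 : 0 < |a| := by rw [haM]; positivity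
  have ha1 : 1 < |a| := by rw [haM]; nlinarith
  have hla : 0 < log |a| := Real.log_pos ha1
  have hs0 : 0 < √M := Real.sqrt_pos.2 hM0
  by_cases htop : Measure.hausdorffMeasure 1 (EB A) = (⊤ : ℝ≥0∞)
  · rw [htop]
    have : (1:ℝ≥0∞) + 2 * ⊤ = ⊤ := by
      rw [ENNReal.mul_top (by norm_num)]
      simp
    rw [this]
    exact le_top
  · set ℓ : ℝ := (Measure.hausdorffMeasure 1 (EB A)).toReal with hℓ
    have hℓ0 : 0 ≤ ℓ := ENNReal.toReal_nonneg
    have hℓe : Measure.hausdorffMeasure 1 (EB A) = ENNReal.ofReal ℓ :=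
      (ENNReal.ofReal_toReal htop).symm
    set g : ℝ := log (1 + 2 * ℓ) with hg
    have hg0 : 0 ≤ g := Real.log_nonneg (by linarith)
    set k : ℕ := ⌈4 * g / log |a|⌉₊ with hk
    have hk1 : 4 * g / log |a| ≤ k := Nat.le_ceil _
    have hk2 : (k:ℝ) < 4 * g / log |a| + 1 := Nat.ceil_lt_add_one (by positivity)
    have h3 := ess_len hM haM (n := k + 1) (by omega) hAm hA h1 h2
    rw [hℓe, ← ENNReal.ofReal_mul (by positivity), ← ENNReal.ofReal_add (by positivity)
      (by positivity), ENNReal.ofReal_le_ofReal_iff (by positivity)] at h3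
    -- the last term
    have hlogM : log |a| = 2 * log M := by rw [haM, Real.log_pow]; push_cast; ring
    have hlog : log √M = log |a| / 4 := by rw [Real.log_sqrt hM0.le, hlogM]; ring
    have h4 : 1 + 2 * ℓ ≤ √M ^ k := by
      rw [← Real.log_le_log_iff (by positivity) (by positivity), Real.log_pow, hlog, ← hg]
      rw [div_le_iff₀ hla] at hk1
      linarith
    have hsq : √M ^ 2 = M := Real.sq_sqrt hM0.le
    have h5 : 4 * ((1 / √M) ^ (k + 1 + 1) / 5) * ℓ ≤ 0.4 / M := by
      have e : (1 / √M) ^ (k + 1 + 1) = (1 / √M ^ k) * (1 / M) := by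
        rw [div_pow, one_pow, pow_add, pow_add, pow_one, mul_assoc, ← pow_two, hsq]
        field_simp
      rw [e]
      have h6 : (1 / √M ^ k) * (2 * ℓ) ≤ 1 := by
        rw [one_div, ← div_eq_inv_mul, div_le_one (by positivity)]
        linarith
      have e2 : 4 * ((1 / √M ^ k) * (1 / M) / 5) * ℓ = ((1 / √M ^ k) * (2 * ℓ)) * (0.4 / M) := by
        ring
      rw [e2]
      exact mul_le_of_le_one_left (by positivity) h6
    have h6 : η ≤ 3 * ((k + 1 : ℕ) : ℝ) / |a| + 3.71 / M + 0.4 / M := by linarith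
    push_cast at h6
    have h7 : η * |a| ≤ 3 * (k + 1) + 4.11 * M := by
      have h8 := mul_le_mul_of_nonneg_right h6 ha0.le
      have e : (3 * ((k:ℝ) + 1) / |a| + 3.71 / M + 0.4 / M) * |a| = 3 * (k + 1) + 4.11 * M := by
        have e3 : (3 * ((k:ℝ) + 1) / |a| + 3.71 / M + 0.4 / M) * |a| =
          3 * (k + 1) * (|a| / |a|) + 4.11 * (|a| / M) := by ring
        rw [e3, div_self ha0.ne', haM]
        field_simp
      rw [e] at h8
      exact h8
    have h8 : (η * |a| - 5 * M) / 12 * log |a| ≤ g := by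
      have h9 : (η * |a| - 5 * M) / 12 ≤ g / log |a| := by
        have : 4 * g / log |a| = 4 * (g / log |a|) := by ring
        linarith
      rwa [le_div_iff₀ hla] at h9
    have h9 : |a| ^ ((η * |a| - 5 * M) / 12) ≤ 1 + 2 * ℓ := by
      rw [Real.rpow_def_of_pos ha0, ← Real.exp_log (show (0:ℝ) < 1 + 2 * ℓ by positivity)]
      apply Real.exp_le_exp.2
      rw [mul_comm]
      exact h8
    rw [hℓe]
    have e1 : (1:ℝ≥0∞) = ENNReal.ofReal 1 := by norm_num
    have e2 : (2:ℝ≥0∞) = ENNReal.ofReal 2 := by norm_num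
    rw [e1, e2, ← ENNReal.ofReal_mul (by norm_num), ← ENNReal.ofReal_add (by norm_num)
      (by positivity)]
    exact ENNReal.ofReal_le_ofReal h9


end Pool.Agent.V1152.SMI
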