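import Mathlib

/-!
# Holomorphic extension of a real analytic function of two variables in one of the variables
-/

set_option autoImplicit false

namespace Pool.Agent.V1152.Complexify

open Filter Topology Metric

/-- The terms of the complexified series: the real displacement is `s`, the complex one `z`. -/
noncomputable def term (p : FormalMultilinearSeries ℝ (ℝ × ℝ) ℝ) (n : ℕ) (s : ℝ) (z : ℂ) : ℂ :=
  ∑ A : Finset (Fin n), (∏ i : Fin n, if i ∈ A then (s : ℂ) else z) *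
    ((p n (A.piecewise (fun _ => ((1 : ℝ), (0 : ℝ))) (fun _ => ((0 : ℝ), (1 : ℝ)))) : ℝ) : ℂ)

theorem term_real (p : FormalMultilinearSeries ℝ (ℝ × ℝ) ℝ) (n : ℕ) (s t : ℝ) :
    term p n s (t : ℂ) = ((p n (fun _ => (s, t)) : ℝ) : ℂ) := by
  have h1 : (fun _ : Fin n => ((s, t) : ℝ × ℝ)) = (fun _ => s • ((1 : ℝ), (0 : ℝ))) +
      (fun _ => t • ((0 : ℝ), (1 : ℝ))) := by
    funext i
    simp
  rw [h1]
  have h2 := (p n).toMultilinearMap.map_add_univ (fun _ : Fin n => s • ((1 : ℝ), (0 : ℝ)))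
    (fun _ => t • ((0 : ℝ), (1 : ℝ)))
  have h3 : (p n) ((fun _ => s • ((1 : ℝ), (0 : ℝ))) + (fun _ => t • ((0 : ℝ), (1 : ℝ))))
      = ∑ A : Finset (Fin n), (p n) (A.piecewise (fun _ : Fin n => s • ((1 : ℝ), (0 : ℝ)))
    (fun _ => t • ((0 : ℝ), (1 : ℝ)))) := h2
  rw [h3, term, Complex.ofReal_sum]
  refine Finset.sum_congr rfl fun A _ => ?_
  have h4 : (A.piecewise (fun _ : Fin n => s • ((1 : ℝ), (0 : ℝ)))
      (fun _ => t • ((0 : ℝ), (1 : ℝ)))) = fun i => (if i ∈ A then s else t) •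
      (A.piecewise (fun _ => ((1 : ℝ), (0 : ℝ))) (fun _ => ((0 : ℝ), (1 : ℝ)))) i := by
    funext i
    by_cases hi : i ∈ A <;> simp [hi, Finset.piecewise]
  rw [h4, (p n).map_smul_univ, smul_eq_mul, Complex.ofReal_mul, Complex.ofReal_prod]
  congr 1
  refine Finset.prod_congr rfl fun i _ => ?_
  split_ifs <;> rfl

theorem norm_term_le (p : FormalMultilinearSeries ℝ (ℝ × ℝ) ℝ) (n : ℕ) (s : ℝ) (z : ℂ) {ρ : ℝ}
    (hs : |s| ≤ ρ) (hz : ‖z‖ ≤ ρ) : ‖term p n s z‖ ≤ ‖p n‖ * (2 * ρ) ^ n := by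
  have hρ : 0 ≤ ρ := (abs_nonneg s).trans hs
  have h1 : ∀ A : Finset (Fin n), ‖(∏ i : Fin n, if i ∈ A then (s : ℂ) else z) *
    ((p n (A.piecewise (fun _ => ((1 : ℝ), (0 : ℝ))) (fun _ => ((0 : ℝ), (1 : ℝ)))) : ℝ) : ℂ)‖
      ≤ ρ ^ n * ‖p n‖ := by
    intro A
    rw [norm_mul]
    refine mul_le_mul ?_ ?_ (norm_nonneg _) (by positivity)
    · rw [norm_prod]
      calc ∏ i : Fin n, ‖if i ∈ A then (s : ℂ) else z‖ ≤ ∏ _i : Fin n, ρ := by
            refine Finset.prod_le_prod (fun i _ => norm_nonneg _) fun i _ => ?_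
            split_ifs
            · simpa using hs
            · exact hz
        _ = ρ ^ n := by simp
    · rw [Complex.norm_real]
      refine ((p n).le_opNorm _).trans ?_
      calc ‖p n‖ * ∏ i, ‖(A.piecewise (fun _ => ((1 : ℝ), (0 : ℝ)))
            (fun _ => ((0 : ℝ), (1 : ℝ))) : Fin n → ℝ × ℝ) i‖ ≤ ‖p n‖ * ∏ _i : Fin n, (1 : ℝ) := by
            refine mul_le_mul_of_nonneg_left ?_ (norm_nonneg _)
            refine Finset.prod_le_prod (fun i _ => norm_nonneg _) fun i _ => ?_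
            by_cases hi : i ∈ A <;> simp [hi, Prod.norm_def]
        _ = ‖p n‖ := by simp
  calc ‖term p n s z‖ ≤ ∑ A : Finset (Fin n), ρ ^ n * ‖p n‖ :=
        (norm_sum_le _ _).trans (Finset.sum_le_sum fun A _ => h1 A)
    _ = ‖p n‖ * (2 * ρ) ^ n := by
        rw [Finset.sum_const, Finset.card_univ, Fintype.card_finset, Fintype.card_fin,
          nsmul_eq_mul, mul_pow]
        push_cast
        ring

theorem exists_complexification {f : ℝ × ℝ → ℝ} {u₀ v₀ : ℝ} (hf : AnalyticAt ℝ f (u₀, v₀)) :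
    ∃ ρ > 0, ∃ F : ℝ → ℂ → ℂ,
      ContinuousOn (fun q : ℝ × ℂ => F q.1 q.2) (ball u₀ ρ ×ˢ ball (v₀ : ℂ) ρ) ∧
      (∀ s ∈ ball u₀ ρ, DifferentiableOn ℂ (F s) (ball (v₀ : ℂ) ρ)) ∧
      ∀ s ∈ ball u₀ ρ, ∀ t ∈ ball v₀ ρ, F s (t : ℂ) = (f (s, t) : ℂ) := by
  obtain ⟨p, r, hp⟩ := hf
  obtain ⟨q, hq0, hqr⟩ := ENNReal.lt_iff_exists_nnreal_btwn.1 hp.r_pos
  have hq0' : (0 : ℝ) < q := by exact_mod_cast hq0
  set ρ : ℝ := q / 4 with hρ
  have hρ0 : 0 < ρ := by positivity
  have hρr : ENNReal.ofReal (4 * ρ) < r := by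
    rw [hρ, mul_div_cancel₀ _ (by norm_num : (4 : ℝ) ≠ 0), ENNReal.ofReal_coe_nnreal]
    exact hqr
  have hsum : Summable fun n => ‖p n‖ * (2 * ρ) ^ n := by
    have h0 : (q / 2 : NNReal) ≤ q := half_le_self zero_le
    have h1 : ((q / 2 : NNReal) : ENNReal) < p.radius :=
      lt_of_le_of_lt (ENNReal.coe_le_coe.2 h0) (hqr.trans_le hp.r_le)
    have h2 := p.summable_norm_mul_pow h1
    have h3 : 2 * ρ = ((q / 2 : NNReal) : ℝ) := by
      rw [hρ]
      push_cast
      ring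
    rw [h3]
    exact h2
  set F : ℝ → ℂ → ℂ := fun s z => ∑' n, term p n (s - u₀) (z - v₀) with hF
  have hterm : ∀ n, Continuous fun q : ℝ × ℂ => term p n (q.1 - u₀) (q.2 - v₀) := by
    intro n
    unfold term
    refine continuous_finsetSum _ fun A _ => Continuous.mul ?_ continuous_const
    refine continuous_finsetProd _ fun i _ => ?_
    split_ifs <;> fun_prop
  refine ⟨ρ, hρ0, F, ?_, ?_, ?_⟩
  · refine continuousOn_tsum (fun n => (hterm n).continuousOn) hsum ?_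
    rintro n ⟨s, z⟩ ⟨hs, hz⟩
    refine norm_term_le p n _ _ ?_ ?_
    · rw [mem_ball, Real.dist_eq] at hs
      exact hs.le
    · rw [mem_ball, dist_eq_norm] at hz
      exact hz.le
  · intro s hs
    refine Complex.differentiableOn_tsum_of_summable_norm hsum (fun n => ?_) isOpen_ball ?_
    · unfold term
      refine DifferentiableOn.fun_sum fun A _ => DifferentiableOn.mul ?_ (differentiableOn_const _)
      refine DifferentiableOn.fun_finsetProd fun i _ => ?_
      split_ifs <;> fun_prop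
    · intro n z hz
      refine norm_term_le p n _ _ ?_ ?_
      · rw [mem_ball, Real.dist_eq] at hs
        exact hs.le
      · rw [mem_ball, dist_eq_norm] at hz
        exact hz.le
  · intro s hs t ht
    rw [mem_ball, Real.dist_eq] at hs ht
    have h1 : ((s - u₀, t - v₀) : ℝ × ℝ) ∈ Metric.eball (0 : ℝ × ℝ) r := by
      rw [Metric.mem_eball, edist_dist]
      refine lt_of_le_of_lt (ENNReal.ofReal_le_ofReal ?_) hρr
      rw [dist_zero_right, Prod.norm_def]
      simp only [Real.norm_eq_abs]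
      exact (max_le (by linarith) (by linarith))
    have h2 := hp.hasSum h1
    have h3 : ((u₀, v₀) : ℝ × ℝ) + (s - u₀, t - v₀) = (s, t) := by
      ext <;> simp
    rw [h3] at h2
    have h4 := Complex.hasSum_ofReal.2 h2
    have h5 : (fun n => (((p n) fun _ => ((s - u₀, t - v₀) : ℝ × ℝ) : ℝ) : ℂ))
        = fun n => term p n (s - u₀) ((t : ℂ) - v₀) := by
      funext n
      rw [← term_real, Complex.ofReal_sub]
    rw [hF]
    simp only
    rw [← h4.tsum_eq]
    congr 1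
    exact h5.symm

end Pool.Agent.V1152.Complexify
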