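import Pool.Agent.V1152.Complexify

/-!
# The differential form `(a db - b da) / c` on a surface `c ^ 2 = a ^ 4 + b ^ 4`
-/

set_option autoImplicit false
set_option linter.unusedSectionVars false

namespace Pool.Agent.V1152.Quartic

open Filter Topology Metric Pool.Agent.V1152.Complexify

section Local

variable {𝕜 : Type*} [NontriviallyNormedField 𝕜] [CompleteSpace 𝕜]

/-- Two analytic functions are a power of `z - z₀` times analytic functions which do not vanish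
simultaneously. -/
theorem common_factor {f g : 𝕜 → 𝕜} {z₀ : 𝕜} (hf : AnalyticAt 𝕜 f z₀) (hg : AnalyticAt 𝕜 g z₀)
    (hne : ¬ ∀ᶠ z in 𝓝 z₀, f z = 0 ∧ g z = 0) :
    ∃ (k : ℕ) (f₁ g₁ : 𝕜 → 𝕜), AnalyticAt 𝕜 f₁ z₀ ∧ AnalyticAt 𝕜 g₁ z₀ ∧
      (∀ᶠ z in 𝓝 z₀, f z = (z - z₀) ^ k * f₁ z ∧ g z = (z - z₀) ^ k * g₁ z) ∧
      (f₁ z₀ ≠ 0 ∨ g₁ z₀ ≠ 0) := by
  have key : ∀ {f g : 𝕜 → 𝕜}, AnalyticAt 𝕜 f z₀ → AnalyticAt 𝕜 g z₀ →
      analyticOrderAt f z₀ ≤ analyticOrderAt g z₀ → analyticOrderAt f z₀ ≠ ⊤ →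
      ∃ (k : ℕ) (f₁ g₁ : 𝕜 → 𝕜), AnalyticAt 𝕜 f₁ z₀ ∧ AnalyticAt 𝕜 g₁ z₀ ∧
      (∀ᶠ z in 𝓝 z₀, f z = (z - z₀) ^ k * f₁ z ∧ g z = (z - z₀) ^ k * g₁ z) ∧ f₁ z₀ ≠ 0 := by
    intro f g hf hg hle htop
    obtain ⟨f₁, hf₁, hf₁0, hf₂⟩ := (hf.analyticOrderAt_ne_top).1 htop
    have h1 : ((analyticOrderNatAt f z₀ : ℕ) : ℕ∞) ≤ analyticOrderAt g z₀ := by
      rw [Nat.cast_analyticOrderNatAt htop]
      exact hle
    obtain ⟨g₁, hg₁, hg₂⟩ := (natCast_le_analyticOrderAt hg).1 h1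
    refine ⟨analyticOrderNatAt f z₀, f₁, g₁, hf₁, hg₁, ?_, hf₁0⟩
    filter_upwards [hf₂, hg₂] with z h2 h3
    exact ⟨by rw [h2, smul_eq_mul], by rw [h3, smul_eq_mul]⟩
  rcases le_total (analyticOrderAt f z₀) (analyticOrderAt g z₀) with hle | hle
  · have htop : analyticOrderAt f z₀ ≠ ⊤ := by
      intro htop
      rw [htop, top_le_iff] at hle
      apply hne
      filter_upwards [analyticOrderAt_eq_top.1 htop, analyticOrderAt_eq_top.1 hle] with z h1 h2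
      exact ⟨h1, h2⟩
    obtain ⟨k, f₁, g₁, h1, h2, h3, h4⟩ := key hf hg hle htop
    exact ⟨k, f₁, g₁, h1, h2, h3, Or.inl h4⟩
  · have htop : analyticOrderAt g z₀ ≠ ⊤ := by
      intro htop
      rw [htop, top_le_iff] at hle
      apply hne
      filter_upwards [analyticOrderAt_eq_top.1 htop, analyticOrderAt_eq_top.1 hle] with z h1 h2
      exact ⟨h2, h1⟩
    obtain ⟨k, g₁, f₁, h1, h2, h3, h4⟩ := key hg hf hle htop
    exact ⟨k, f₁, g₁, h2, h1, h3.mono fun z hz => ⟨hz.2, hz.1⟩, Or.inr h4⟩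

theorem eventually_eq_of_ne {f g : 𝕜 → 𝕜} {z₀ : 𝕜} (hf : AnalyticAt 𝕜 f z₀)
    (hg : AnalyticAt 𝕜 g z₀) (h : ∀ᶠ z in 𝓝[≠] z₀, f z = g z) : ∀ᶠ z in 𝓝 z₀, f z = g z :=
  (hf.frequently_eq_iff_eventually_eq hg).1 h.frequently

theorem eventually_deriv_mul {f f₁ : 𝕜 → 𝕜} {z₀ : 𝕜} {k : ℕ} (hf₁ : AnalyticAt 𝕜 f₁ z₀)
    (h : ∀ᶠ z in 𝓝 z₀, f z = (z - z₀) ^ k * f₁ z) :
    ∀ᶠ z in 𝓝 z₀, deriv f z = (k : 𝕜) * (z - z₀) ^ (k - 1) * f₁ z + (z - z₀) ^ k * deriv f₁ z := by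
  have h1 : deriv f =ᶠ[𝓝 z₀] deriv (fun z => (z - z₀) ^ k * f₁ z) :=
    EventuallyEq.deriv h
  have h2 : ∀ᶠ z in 𝓝 z₀, AnalyticAt 𝕜 f₁ z := hf₁.eventually_analyticAt
  filter_upwards [h1, h2] with z hz hz2
  rw [hz]
  have h3 : HasDerivAt (fun z => (z - z₀) ^ k) ((k : 𝕜) * (z - z₀) ^ (k - 1)) z := by
    simpa using ((hasDerivAt_id z).sub_const z₀).fun_pow k
  exact (h3.mul hz2.differentiableAt.hasDerivAt).deriv

/-- `(a db - b da) / c` is analytic in one variable. -/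
theorem local_quotient [CharZero 𝕜] {A B C : 𝕜 → 𝕜} {z₀ : 𝕜} (hA : AnalyticAt 𝕜 A z₀)
    (hB : AnalyticAt 𝕜 B z₀) (hC : AnalyticAt 𝕜 C z₀)
    (h : ∀ᶠ z in 𝓝 z₀, C z ^ 2 = A z ^ 4 + B z ^ 4) (hne : ¬ ∀ᶠ z in 𝓝 z₀, C z = 0) :
    ∃ G : 𝕜 → 𝕜, AnalyticAt 𝕜 G z₀ ∧
      ∀ᶠ z in 𝓝 z₀, A z * deriv B z - B z * deriv A z = C z * G z := by
  obtain ⟨k, A₁, B₁, hA₁, hB₁, hAB, h0⟩ := common_factor hA hB (by
    intro hcon
    apply hne
    filter_upwards [hcon, h] with z h1 h2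
    rw [h1.1, h1.2] at h2
    simpa using h2)
  -- the order of `C`
  have hord : ((2 * k : ℕ) : ℕ∞) ≤ analyticOrderAt C z₀ := by
    have h1 : ((4 * k : ℕ) : ℕ∞) ≤ analyticOrderAt (C ^ 2) z₀ := by
      rw [natCast_le_analyticOrderAt (hC.pow 2)]
      refine ⟨fun z => A₁ z ^ 4 + B₁ z ^ 4, (hA₁.pow 4).add (hB₁.pow 4), ?_⟩
      filter_upwards [hAB, h] with z h1 h2
      rw [Pi.pow_apply, h2, h1.1, h1.2, smul_eq_mul]
      ring
    rw [analyticOrderAt_pow hC] at h1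
    by_cases htop : analyticOrderAt C z₀ = ⊤
    · rw [htop]
      exact le_top
    · obtain ⟨n, hn⟩ := ENat.ne_top_iff_exists.1 htop
      rw [← hn] at h1 ⊢
      have h2 : (4 * k : ℕ) ≤ 2 * n := by
        have : (2 • (n : ℕ∞)) = ((2 * n : ℕ) : ℕ∞) := by
          rw [nsmul_eq_mul]
          push_cast
          ring
        rw [this] at h1
        exact_mod_cast h1
      have h3 : 2 * k ≤ n := by omega
      exact_mod_cast h3
  obtain ⟨C₁, hC₁, hCC⟩ := (natCast_le_analyticOrderAt hC).1 hord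
  have hrel : ∀ᶠ z in 𝓝 z₀, C₁ z ^ 2 = A₁ z ^ 4 + B₁ z ^ 4 := by
    apply eventually_eq_of_ne (hC₁.pow 2) ((hA₁.pow 4).add (hB₁.pow 4))
    have hz : ∀ᶠ z in 𝓝[≠] z₀, z ≠ z₀ := self_mem_nhdsWithin
    filter_upwards [hz, hAB.filter_mono nhdsWithin_le_nhds, hCC.filter_mono nhdsWithin_le_nhds,
      h.filter_mono nhdsWithin_le_nhds] with z hz h1 h2 h3
    rw [h1.1, h1.2, h2, smul_eq_mul] at h3
    have h4 : (z - z₀) ^ (4 * k) ≠ 0 := pow_ne_zero _ (sub_ne_zero.2 hz)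
    simp only [Pi.pow_apply, Pi.add_apply]
    apply mul_left_cancel₀ h4
    linear_combination h3
  have hdA := eventually_deriv_mul hA₁ (hAB.mono fun z hz => hz.1)
  have hdB := eventually_deriv_mul hB₁ (hAB.mono fun z hz => hz.2)
  -- reduction to the reduced functions
  suffices hs : ∃ G : 𝕜 → 𝕜, AnalyticAt 𝕜 G z₀ ∧
      ∀ᶠ z in 𝓝 z₀, A₁ z * deriv B₁ z - B₁ z * deriv A₁ z = C₁ z * G z by
    obtain ⟨G, hG, hG2⟩ := hs
    refine ⟨G, hG, ?_⟩
    filter_upwards [hG2, hAB, hCC, hdA, hdB] with z h1 h2 h3 h4 h5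
    rw [h2.1, h2.2, h3, h4, h5, smul_eq_mul]
    linear_combination (z - z₀) ^ (2 * k) * h1
  by_cases hC0 : C₁ z₀ = 0
  · have hz0 := hrel.self_of_nhds
    rw [hC0] at hz0
    have hB0 : B₁ z₀ ≠ 0 := by
      intro hb
      rw [hb] at hz0
      have ha : A₁ z₀ = 0 := by
        by_contra ha
        have : A₁ z₀ ^ 4 ≠ 0 := pow_ne_zero _ ha
        apply this
        linear_combination -hz0
      rcases h0 with h0 | h0
      · exact h0 ha
      · exact h0 hb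
    refine ⟨fun z => (A₁ z * deriv C₁ z / 2 - C₁ z * deriv A₁ z) / B₁ z ^ 3, ?_, ?_⟩
    · refine AnalyticAt.div ?_ (hB₁.pow 3) (pow_ne_zero _ hB0)
      exact ((hA₁.mul hC₁.deriv).div analyticAt_const two_ne_zero).sub (hC₁.mul hA₁.deriv)
    · have hd : ∀ᶠ z in 𝓝 z₀, 2 * C₁ z * deriv C₁ z
          = 4 * A₁ z ^ 3 * deriv A₁ z + 4 * B₁ z ^ 3 * deriv B₁ z := by
        have h1 : deriv (fun z => C₁ z ^ 2) =ᶠ[𝓝 z₀] deriv (fun z => A₁ z ^ 4 + B₁ z ^ 4) :=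
          EventuallyEq.deriv hrel
        filter_upwards [h1, hC₁.eventually_analyticAt, hA₁.eventually_analyticAt,
          hB₁.eventually_analyticAt] with z h1 h2 h3 h4
        have e1 := (h2.differentiableAt.hasDerivAt.pow 2).deriv
        have e2 := ((h3.differentiableAt.hasDerivAt.pow 4).add
          (h4.differentiableAt.hasDerivAt.pow 4)).deriv
        have e3 : deriv (fun z => C₁ z ^ 2) z = deriv (C₁ ^ 2) z := rfl
        have e4 : deriv (fun z => A₁ z ^ 4 + B₁ z ^ 4) z = deriv (A₁ ^ 4 + B₁ ^ 4) z := rfl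
        rw [e3, e4, e1, e2] at h1
        simp only [Nat.cast_ofNat, Nat.add_one_sub_one, pow_one] at h1
        norm_num at h1
        linear_combination h1
      have hBne : ∀ᶠ z in 𝓝 z₀, B₁ z ≠ 0 := hB₁.continuousAt.eventually_ne hB0
      filter_upwards [hd, hBne, hrel] with z h1 h2 h3
      field_simp
      linear_combination (A₁ z * (-1 / 2)) * h1 + (2 * deriv A₁ z) * h3
  · refine ⟨fun z => (A₁ z * deriv B₁ z - B₁ z * deriv A₁ z) / C₁ z, ?_, ?_⟩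
    · exact ((hA₁.mul hB₁.deriv).sub (hB₁.mul hA₁.deriv)).div hC₁ hC0
    · filter_upwards [hC₁.continuousAt.eventually_ne hC0] with z hz
      field_simp

end Local

/-- Local analytic quotients glue. -/
theorem exists_global {U : Set ℂ} {N C : ℂ → ℂ}
    (hC : ∀ z₀ ∈ U, ∀ᶠ z in 𝓝[≠] z₀, C z ≠ 0)
    (h : ∀ z₀ ∈ U, ∃ G : ℂ → ℂ, AnalyticAt ℂ G z₀ ∧ ∀ᶠ z in 𝓝 z₀, N z = C z * G z) :
    ∃ G : ℂ → ℂ, (∀ z ∈ U, AnalyticAt ℂ G z) ∧ ∀ z ∈ U, N z = C z * G z := by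
  classical
  choose! G hG1 hG2 using h
  refine ⟨fun z => if C z = 0 then G z z else N z / C z, ?_, ?_⟩
  · intro z₀ hz₀
    refine (hG1 z₀ hz₀).congr ?_
    have h1 : ∀ᶠ z in 𝓝 z₀, z ≠ z₀ → C z ≠ 0 := eventually_nhdsWithin_iff.1 (hC z₀ hz₀)
    filter_upwards [h1, hG2 z₀ hz₀] with z h2 h3
    by_cases hz : z = z₀
    · subst hz
      split_ifs with h4
      · rfl
      · rw [h3, mul_div_cancel_left₀ _ h4]
    · rw [if_neg (h2 hz), h3, mul_div_cancel_left₀ _ (h2 hz)]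
  · intro z hz
    simp only
    split_ifs with h4
    · rw [(hG2 z hz).self_of_nhds, h4]
    · field_simp

/-- The derivative in the second variable. -/
noncomputable def dv (a : ℝ × ℝ → ℝ) (p : ℝ × ℝ) : ℝ := deriv (fun t => a (p.1, t)) p.2

theorem analyticAt_slice {a : ℝ × ℝ → ℝ} {u v : ℝ} (ha : AnalyticAt ℝ a (u, v)) :
    AnalyticAt ℝ (fun t => a (u, t)) v :=
  AnalyticAt.fun_comp (f := fun t : ℝ => (u, t)) (g := a) ha
    (analyticAt_const.prod analyticAt_id)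

theorem dv_eq {a : ℝ × ℝ → ℝ} {p : ℝ × ℝ} (ha : AnalyticAt ℝ a p) :
    dv a p = fderiv ℝ a p (0, 1) := by
  have h1 : HasDerivAt (fun t : ℝ => ((p.1, t) : ℝ × ℝ)) (0, 1) p.2 :=
    (hasDerivAt_const p.2 p.1).prodMk (hasDerivAt_id p.2)
  exact ((ha.differentiableAt.hasFDerivAt).comp_hasDerivAt p.2 h1).deriv

theorem analyticAt_dv {a : ℝ × ℝ → ℝ} {p : ℝ × ℝ} (ha : AnalyticAt ℝ a p) :
    AnalyticAt ℝ (dv a) p := by
  have h1 : AnalyticAt ℝ (fun q => fderiv ℝ a q (0, 1)) p := by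
    have h2 := ha.fderiv
    exact (ContinuousLinearMap.apply ℝ ℝ ((0, 1) : ℝ × ℝ)).analyticAt _ |>.comp h2
  refine h1.congr ?_
  filter_upwards [ha.eventually_analyticAt] with q hq
  exact (dv_eq hq).symm

/-- The numerator `a db - b da`. -/
noncomputable def num (a b : ℝ × ℝ → ℝ) (p : ℝ × ℝ) : ℝ := a p * dv b p - b p * dv a p

theorem analyticAt_num {a b : ℝ × ℝ → ℝ} {p : ℝ × ℝ} (ha : AnalyticAt ℝ a p)
    (hb : AnalyticAt ℝ b p) : AnalyticAt ℝ (num a b) p :=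
  (ha.mul (analyticAt_dv hb)).sub (hb.mul (analyticAt_dv ha))

/-- Holomorphic functions on a disc centred at a real point which agree at the real points. -/
theorem eq_of_real {f g : ℂ → ℂ} {v ρ : ℝ} (hρ : 0 < ρ) (hf : DifferentiableOn ℂ f (ball (v : ℂ) ρ))
    (hg : DifferentiableOn ℂ g (ball (v : ℂ) ρ)) (h : ∀ t ∈ ball v ρ, f (t : ℂ) = g (t : ℂ)) :
    ∀ z ∈ ball (v : ℂ) ρ, f z = g z := by
  have h1 : AnalyticOnNhd ℂ f (ball (v : ℂ) ρ) := hf.analyticOnNhd isOpen_ball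
  have h2 : AnalyticOnNhd ℂ g (ball (v : ℂ) ρ) := hg.analyticOnNhd isOpen_ball
  refine h1.eqOn_of_preconnected_of_frequently_eq h2 (convex_ball _ _).isPreconnected
    (mem_ball_self hρ) ?_
  have h3 : Tendsto (fun t : ℝ => (t : ℂ)) (𝓝[≠] v) (𝓝[≠] (v : ℂ)) := by
    refine tendsto_nhdsWithin_of_tendsto_nhds_of_eventually_within _
      (Complex.continuous_ofReal.continuousAt.tendsto.mono_left nhdsWithin_le_nhds) ?_
    filter_upwards [self_mem_nhdsWithin] with t ht hcon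
    exact ht (Complex.ofReal_injective hcon)
  have h4 : ∀ᶠ t : ℝ in 𝓝[≠] v, f (t : ℂ) = g (t : ℂ) := by
    filter_upwards [nhdsWithin_le_nhds (isOpen_ball.mem_nhds (mem_ball_self hρ))] with t ht
    exact h t ht
  exact h3.frequently h4.frequently

theorem ofReal_mem_ball {v ρ t : ℝ} (ht : t ∈ ball v ρ) : (t : ℂ) ∈ ball (v : ℂ) ρ := by
  rw [mem_ball, dist_eq_norm] at ht ⊢
  rw [← Complex.ofReal_sub, Complex.norm_real]
  exact ht

/-- The complex derivative at a real point. -/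
theorem deriv_of_real {F : ℂ → ℂ} {f : ℝ → ℝ} {v ρ : ℝ}
    (hF : DifferentiableOn ℂ F (ball (v : ℂ) ρ)) (h : ∀ t ∈ ball v ρ, F (t : ℂ) = (f t : ℂ))
    {t : ℝ} (ht : t ∈ ball v ρ) (hf : DifferentiableAt ℝ f t) :
    deriv F (t : ℂ) = ((deriv f t : ℝ) : ℂ) := by
  have h1 : HasDerivAt F (deriv F (t : ℂ)) (t : ℂ) :=
    (hF.differentiableAt (isOpen_ball.mem_nhds (ofReal_mem_ball ht))).hasDerivAt
  have h2 : HasDerivAt (fun s : ℝ => F (s : ℂ)) (deriv F (t : ℂ)) t := h1.comp_ofReal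
  have h3 : HasDerivAt (fun s : ℝ => ((f s : ℝ) : ℂ)) ((deriv f t : ℝ) : ℂ) t :=
    hf.hasDerivAt.ofReal_comp
  refine h2.unique (h3.congr_of_eventuallyEq ?_)
  filter_upwards [isOpen_ball.mem_nhds ht] with s hs
  exact h s hs

/-- Continuity of a Cauchy integral with a parameter. -/
theorem continuousOn_cauchy {K : ℝ → ℂ → ℂ} {u₀ v₀ r δ : ℝ} (hr0 : 0 < r) (hδr : δ ≤ r)
    (hK : ContinuousOn (fun q : ℝ × ℂ => K q.1 q.2) (ball u₀ δ ×ˢ sphere (v₀ : ℂ) r)) :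
    ContinuousOn (fun p : ℝ × ℝ => ∮ z in C((v₀ : ℂ), r), (z - (p.2 : ℂ))⁻¹ • K p.1 z)
      (ball u₀ δ ×ˢ ball v₀ δ) := by
  rw [continuousOn_iff_continuous_domRestrict]
  have hcont : Continuous (Function.uncurry (fun (x : ↥(ball u₀ δ ×ˢ ball v₀ δ)) (θ : ℝ) =>
      deriv (circleMap (v₀ : ℂ) r) θ • ((circleMap (v₀ : ℂ) r θ - ((x : ℝ × ℝ).2 : ℂ))⁻¹ •
        K (x : ℝ × ℝ).1 (circleMap (v₀ : ℂ) r θ)))) := by
    have hc1 : Continuous fun q : ↥(ball u₀ δ ×ˢ ball v₀ δ) × ℝ =>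
        (((q.1 : ℝ × ℝ).1, circleMap (v₀ : ℂ) r q.2) : ℝ × ℂ) := by
      refine Continuous.prodMk ?_ ?_
      · fun_prop
      · exact (continuous_circleMap _ _).comp continuous_snd
    have hK' : Continuous fun q : ↥(ball u₀ δ ×ˢ ball v₀ δ) × ℝ =>
        K (q.1 : ℝ × ℝ).1 (circleMap (v₀ : ℂ) r q.2) :=
      hK.comp_continuous hc1 fun q => ⟨q.1.2.1, circleMap_mem_sphere _ hr0.le _⟩
    have hd : Continuous fun q : ↥(ball u₀ δ ×ˢ ball v₀ δ) × ℝ =>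
        deriv (circleMap (v₀ : ℂ) r) q.2 := by
      simp only [deriv_circleMap]
      exact ((continuous_circleMap (0 : ℂ) r).comp continuous_snd).mul continuous_const
    have hi : Continuous fun q : ↥(ball u₀ δ ×ˢ ball v₀ δ) × ℝ =>
        (circleMap (v₀ : ℂ) r q.2 - ((q.1 : ℝ × ℝ).2 : ℂ))⁻¹ := by
      refine Continuous.inv₀ ?_ ?_
      · refine Continuous.sub ((continuous_circleMap _ _).comp continuous_snd) ?_
        fun_prop
      · rintro ⟨⟨⟨s, t⟩, hs, ht⟩, θ⟩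
        simp only
        intro hcon
        have h1 : dist (circleMap (v₀ : ℂ) r θ) v₀ = r :=
          mem_sphere.1 (circleMap_mem_sphere _ hr0.le _)
        rw [sub_eq_zero.1 hcon] at h1
        have h2 : dist ((t : ℝ) : ℂ) v₀ < δ := ofReal_mem_ball ht
        linarith
    exact hd.smul (hi.smul hK')
  exact intervalIntegral.continuous_parametric_intervalIntegral_of_continuous' hcont 0 _

/-- Near every point the form `(a db - b da) / c` has continuous coefficients. -/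
theorem local_H {a b c : ℝ × ℝ → ℝ} (ha : ∀ p, AnalyticAt ℝ a p) (hb : ∀ p, AnalyticAt ℝ b p)
    (hc : ∀ p, AnalyticAt ℝ c p) (h : ∀ p, c p ^ 2 = a p ^ 4 + b p ^ 4) (u₀ v₀ : ℝ)
    (hne : ¬ ∀ᶠ t in 𝓝 v₀, c (u₀, t) = 0) :
    ∃ δ > 0, ∃ H : ℝ × ℝ → ℝ, ContinuousOn H (ball u₀ δ ×ˢ ball v₀ δ) ∧
      ∀ s ∈ ball u₀ δ, ∀ t ∈ ball v₀ δ, num a b (s, t) = c (s, t) * H (s, t) := by
  obtain ⟨ρa, hρa, A, -, hA1, hA2⟩ := exists_complexification (ha (u₀, v₀))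
  obtain ⟨ρb, hρb, B, -, hB1, hB2⟩ := exists_complexification (hb (u₀, v₀))
  obtain ⟨ρc, hρc, C, hC0, hC1, hC2⟩ := exists_complexification (hc (u₀, v₀))
  obtain ⟨ρn, hρn, N, hN0, hN1, hN2⟩ :=
    exists_complexification (analyticAt_num (ha (u₀, v₀)) (hb (u₀, v₀)))
  set ρ := min (min ρa ρb) (min ρc ρn) with hρ
  have hρ0 : 0 < ρ := lt_min (lt_min hρa hρb) (lt_min hρc hρn)
  have la : ρ ≤ ρa := (min_le_left _ _).trans (min_le_left _ _)
  have lb : ρ ≤ ρb := (min_le_left _ _).trans (min_le_right _ _)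
  have lc : ρ ≤ ρc := (min_le_right _ _).trans (min_le_left _ _)
  have ln : ρ ≤ ρn := (min_le_right _ _).trans (min_le_right _ _)
  have dA : ∀ s ∈ ball u₀ ρ, DifferentiableOn ℂ (A s) (ball (v₀ : ℂ) ρ) := fun s hs =>
    (hA1 s (ball_subset_ball la hs)).mono (ball_subset_ball la)
  have dB : ∀ s ∈ ball u₀ ρ, DifferentiableOn ℂ (B s) (ball (v₀ : ℂ) ρ) := fun s hs =>
    (hB1 s (ball_subset_ball lb hs)).mono (ball_subset_ball lb)
  have dC : ∀ s ∈ ball u₀ ρ, DifferentiableOn ℂ (C s) (ball (v₀ : ℂ) ρ) := fun s hs =>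
    (hC1 s (ball_subset_ball lc hs)).mono (ball_subset_ball lc)
  have dN : ∀ s ∈ ball u₀ ρ, DifferentiableOn ℂ (N s) (ball (v₀ : ℂ) ρ) := fun s hs =>
    (hN1 s (ball_subset_ball ln hs)).mono (ball_subset_ball ln)
  -- complex relations
  have hrel : ∀ s ∈ ball u₀ ρ, ∀ z ∈ ball (v₀ : ℂ) ρ, C s z ^ 2 = A s z ^ 4 + B s z ^ 4 := by
    intro s hs
    refine eq_of_real hρ0 ((dC s hs).pow 2) (((dA s hs).pow 4).add ((dB s hs).pow 4)) ?_
    intro t ht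
    rw [hA2 s (ball_subset_ball la hs) t (ball_subset_ball la ht),
      hB2 s (ball_subset_ball lb hs) t (ball_subset_ball lb ht),
      hC2 s (ball_subset_ball lc hs) t (ball_subset_ball lc ht)]
    exact_mod_cast congrArg (fun x : ℝ => (x : ℂ)) (h (s, t))
  have hnum : ∀ s ∈ ball u₀ ρ, ∀ z ∈ ball (v₀ : ℂ) ρ,
      N s z = A s z * deriv (B s) z - B s z * deriv (A s) z := by
    intro s hs
    refine eq_of_real hρ0 (dN s hs) (((dA s hs).mul ((dB s hs).deriv isOpen_ball)).sub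
      ((dB s hs).mul ((dA s hs).deriv isOpen_ball))) ?_
    intro t ht
    have e1 := deriv_of_real (f := fun t => a (s, t)) (dA s hs)
      (fun t ht => hA2 s (ball_subset_ball la hs) t (ball_subset_ball la ht)) ht
      (analyticAt_slice (ha (s, t))).differentiableAt
    have e2 := deriv_of_real (f := fun t => b (s, t)) (dB s hs)
      (fun t ht => hB2 s (ball_subset_ball lb hs) t (ball_subset_ball lb ht)) ht
      (analyticAt_slice (hb (s, t))).differentiableAt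
    rw [hN2 s (ball_subset_ball ln hs) t (ball_subset_ball ln ht), e1, e2,
      hA2 s (ball_subset_ball la hs) t (ball_subset_ball la ht),
      hB2 s (ball_subset_ball lb hs) t (ball_subset_ball lb ht)]
    simp only [num, dv]
    push_cast
    ring
  have hu0 : u₀ ∈ ball u₀ ρ := mem_ball_self hρ0
  -- a circle on which `C` does not vanish
  have hCne : ¬ ∀ᶠ z in 𝓝 (v₀ : ℂ), C u₀ z = 0 := by
    intro hcon
    apply hne
    have h1 : ∀ᶠ t : ℝ in 𝓝 v₀, C u₀ (t : ℂ) = 0 :=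
      (Complex.continuous_ofReal.tendsto v₀).eventually hcon
    filter_upwards [h1, isOpen_ball.mem_nhds (mem_ball_self hρ0)] with t h2 h3
    rw [hC2 u₀ (ball_subset_ball lc hu0) t (ball_subset_ball lc h3)] at h2
    exact_mod_cast h2
  have hCan : AnalyticAt ℂ (C u₀) (v₀ : ℂ) :=
    (dC u₀ hu0).analyticAt (isOpen_ball.mem_nhds (mem_ball_self hρ0))
  obtain ⟨ε, hε, hεC⟩ : ∃ ε > 0, ∀ z ∈ ball (v₀ : ℂ) ε, z ≠ v₀ → C u₀ z ≠ 0 := by
    have h1 := (hCan.eventually_eq_zero_or_eventually_ne_zero).resolve_left hCne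
    rw [eventually_nhdsWithin_iff, Metric.eventually_nhds_iff_ball] at h1
    exact h1
  set r := min ε ρ / 2 with hr
  have hr0 : 0 < r := by positivity
  have hrε : r < ε := by
    have : min ε ρ ≤ ε := min_le_left _ _
    rw [hr]
    linarith [lt_min hε hρ0]
  have hrρ : r < ρ := by
    have : min ε ρ ≤ ρ := min_le_right _ _
    rw [hr]
    linarith [lt_min hε hρ0]
  have hsph : ∀ z ∈ sphere (v₀ : ℂ) r, z ∈ ball (v₀ : ℂ) ρ := fun z hz => by
    rw [mem_sphere] at hz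
    rw [mem_ball, hz]
    exact hrρ
  have hcirc : ∀ z ∈ sphere (v₀ : ℂ) r, C u₀ z ≠ 0 := by
    intro z hz
    rw [mem_sphere] at hz
    refine hεC z (by rw [mem_ball, hz]; exact hrε) ?_
    rintro rfl
    rw [dist_self] at hz
    exact hr0.ne hz
  have hCcont : ContinuousOn (fun q : ℝ × ℂ => C q.1 q.2) (ball u₀ ρ ×ˢ ball (v₀ : ℂ) ρ) :=
    hC0.mono (Set.prod_mono (ball_subset_ball lc) (ball_subset_ball lc))
  have hNcont : ContinuousOn (fun q : ℝ × ℂ => N q.1 q.2) (ball u₀ ρ ×ˢ ball (v₀ : ℂ) ρ) :=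
    hN0.mono (Set.prod_mono (ball_subset_ball ln) (ball_subset_ball ln))
  obtain ⟨δ', hδ', hδC⟩ : ∃ δ' > 0, ∀ s ∈ ball u₀ δ', ∀ z ∈ sphere (v₀ : ℂ) r, C s z ≠ 0 := by
    have h1 : ∀ᶠ s in 𝓝 u₀, ∀ z ∈ sphere (v₀ : ℂ) r, C s z ≠ 0 := by
      refine (isCompact_sphere (v₀ : ℂ) r).eventually_forall_of_forall_eventually ?_
      intro z hz
      have hmem : ball u₀ ρ ×ˢ ball (v₀ : ℂ) ρ ∈ 𝓝 ((u₀, z) : ℝ × ℂ) :=
        (isOpen_ball.prod isOpen_ball).mem_nhds ⟨hu0, hsph z hz⟩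
      have h2 : ContinuousAt (fun q : ℝ × ℂ => C q.1 q.2) (u₀, z) := hCcont.continuousAt hmem
      exact h2.eventually_ne (hcirc z hz)
    rw [Metric.eventually_nhds_iff_ball] at h1
    exact h1
  set δ := min δ' (min r ρ) with hδ
  have hδ0 : 0 < δ := lt_min hδ' (lt_min hr0 hρ0)
  have lδ' : δ ≤ δ' := min_le_left _ _
  have lδr : δ ≤ r := (min_le_right _ _).trans (min_le_left _ _)
  have lδρ : δ ≤ ρ := (min_le_right _ _).trans (min_le_right _ _)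
  -- the Cauchy integral
  set Q₀ : ℝ × ℝ → ℂ := fun p =>
    ∮ z in C((v₀ : ℂ), r), (z - (p.2 : ℂ))⁻¹ • (N p.1 z / C p.1 z) with hQ₀
  set Q : ℝ × ℝ → ℂ := fun p => (2 * Real.pi * Complex.I : ℂ)⁻¹ • Q₀ p with hQ
  refine ⟨δ, hδ0, fun p => (Q p).re, ?_, ?_⟩
  · refine Complex.continuous_re.comp_continuousOn ?_
    have hK : ContinuousOn (fun q : ℝ × ℂ => (fun s z => N s z / C s z) q.1 q.2)
        (ball u₀ δ ×ˢ sphere (v₀ : ℂ) r) := by
      have hsub : ball u₀ δ ×ˢ sphere (v₀ : ℂ) r ⊆ ball u₀ ρ ×ˢ ball (v₀ : ℂ) ρ :=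
        Set.prod_mono (ball_subset_ball lδρ) hsph
      refine ContinuousOn.div (hNcont.mono hsub) (hCcont.mono hsub) ?_
      rintro ⟨s, z⟩ ⟨hs, hz⟩
      exact hδC s (ball_subset_ball lδ' hs) z hz
    have hgoal : ContinuousOn Q₀ (ball u₀ δ ×ˢ ball v₀ δ) :=
      continuousOn_cauchy (K := fun s z => N s z / C s z) hr0 lδr hK
    have hgoal2 : ContinuousOn (fun p => (2 * Real.pi * Complex.I : ℂ)⁻¹ • Q₀ p)
        (ball u₀ δ ×ˢ ball v₀ δ) := hgoal.const_smul ((2 * Real.pi * Complex.I : ℂ)⁻¹)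
    exact hgoal2
  · intro s hs t ht
    have hsρ : s ∈ ball u₀ ρ := ball_subset_ball lδρ hs
    have hCan' : AnalyticOnNhd ℂ (C s) (ball (v₀ : ℂ) ρ) := (dC s hsρ).analyticOnNhd isOpen_ball
    have hCs : ∀ z₀ ∈ ball (v₀ : ℂ) ρ, ¬ ∀ᶠ z in 𝓝 z₀, C s z = 0 := by
      intro z₀ hz₀ hcon
      have h1 := hCan'.eqOn_zero_of_preconnected_of_eventuallyEq_zero
        (convex_ball _ _).isPreconnected hz₀ hcon
      have h2 : circleMap (v₀ : ℂ) r 0 ∈ sphere (v₀ : ℂ) r := circleMap_mem_sphere _ hr0.le _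
      exact hδC s (ball_subset_ball lδ' hs) _ h2 (h1 (hsph _ h2))
    obtain ⟨G, hG1, hG2⟩ := exists_global (U := ball (v₀ : ℂ) ρ) (N := N s) (C := C s)
      (fun z₀ hz₀ => ((hCan' z₀ hz₀).eventually_eq_zero_or_eventually_ne_zero).resolve_left
        (hCs z₀ hz₀))
      (fun z₀ hz₀ => by
        have hmem := isOpen_ball.mem_nhds hz₀
        obtain ⟨G, hG1, hG2⟩ := local_quotient ((dA s hsρ).analyticAt hmem)
          ((dB s hsρ).analyticAt hmem) ((dC s hsρ).analyticAt hmem)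
          (by filter_upwards [hmem] with z hz using hrel s hsρ z hz) (hCs z₀ hz₀)
        refine ⟨G, hG1, ?_⟩
        filter_upwards [hG2, hmem] with z h1 h2
        rw [hnum s hsρ z h2, h1])
    have hGc : DiffContOnCl ℂ G (ball (v₀ : ℂ) r) := by
      refine DifferentiableOn.diffContOnCl ?_
      intro z hz
      have hz' : z ∈ closedBall (v₀ : ℂ) r := closure_ball_subset_closedBall hz
      have hz'' : z ∈ ball (v₀ : ℂ) ρ := closedBall_subset_ball hrρ hz'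
      exact (hG1 z hz'').differentiableAt.differentiableWithinAt
    have htr : (t : ℂ) ∈ ball (v₀ : ℂ) r := ball_subset_ball lδr (ofReal_mem_ball ht)
    have hcauchy := hGc.two_pi_i_inv_smul_circleIntegral_sub_inv_smul htr
    have hint : Q₀ (s, t) = ∮ z in C((v₀ : ℂ), r), (z - (t : ℂ))⁻¹ • G z := by
      refine circleIntegral.integral_congr hr0.le fun z hz => ?_
      have hz' := hsph z hz
      have hz2 : N s z / C s z = G z := by
        rw [hG2 z hz', mul_div_cancel_left₀ _ (hδC s (ball_subset_ball lδ' hs) z hz)]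
      change (z - (t : ℂ))⁻¹ • (N s z / C s z) = (z - (t : ℂ))⁻¹ • G z
      rw [hz2]
    have hQG : Q (s, t) = G t := by
      rw [← hcauchy]
      change (2 * Real.pi * Complex.I : ℂ)⁻¹ • Q₀ (s, t) = _
      rw [hint]
    have hfin := hG2 t (ball_subset_ball hrρ.le htr)
    rw [← hQG, hN2 s (ball_subset_ball ln hsρ) t (ball_subset_ball (lδρ.trans ln) ht),
      hC2 s (ball_subset_ball lc hsρ) t (ball_subset_ball (lδρ.trans lc) ht)] at hfin
    have := congrArg Complex.re hfin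
    rwa [Complex.re_ofReal_mul, Complex.ofReal_re] at this

end Pool.Agent.V1152.Quartic
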