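import Pool.Agent.V1152.Quartic

/-!
# No real analytic approximation of the identity of the surface `z = √(x ^ 4 + y ^ 4)`
-/

set_option autoImplicit false
set_option linter.unusedSectionVars false

namespace Pool.Agent.V1152.Quartic

open Filter Topology Metric MeasureTheory

/-! ## The elliptic integral -/

/-- The integrand `1 / √(1 + x ^ 4)`. -/
noncomputable def ell (x : ℝ) : ℝ := 1 / √(1 + x ^ 4)

theorem ell_pos (x : ℝ) : 0 < ell x := by
  unfold ell
  positivity

theorem continuous_ell : Continuous ell := by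
  unfold ell
  refine continuous_const.div (by fun_prop) fun x => ?_
  positivity

/-- The elliptic integral. -/
noncomputable def L (τ : ℝ) : ℝ := ∫ x in (0 : ℝ)..τ, ell x

theorem hasDerivAt_L (τ : ℝ) : HasDerivAt L (ell τ) τ :=
  intervalIntegral.integral_hasDerivAt_right (continuous_ell.intervalIntegrable _ _)
    (continuous_ell.stronglyMeasurableAtFilter _ _) continuous_ell.continuousAt

theorem L_zero : L 0 = 0 := by simp [L]

theorem L_neg (τ : ℝ) : L (-τ) = -L τ := by
  have h : ∀ x, HasDerivAt (fun x => L (-x) + L x) 0 x := by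
    intro x
    have h1 := (hasDerivAt_L (-x)).comp x (hasDerivAt_neg x)
    have h2 := h1.add (hasDerivAt_L x)
    have h3 : ell (-x) = ell x := by
      unfold ell
      rw [show (-x) ^ 4 = x ^ 4 by ring]
    have h4 : ell (-x) * -1 + ell x = 0 := by rw [h3]; ring
    rw [h4] at h2
    exact h2
  have h5 := is_const_of_deriv_eq_zero (fun x => (h x).differentiableAt) (fun x => (h x).deriv) τ 0
  simp only [neg_zero, L_zero, add_zero] at h5
  linarith

/-- The half period. -/
noncomputable def kap : ℝ := 2 * L 1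

theorem kap_pos : 0 < kap := by
  have : 0 < L 1 :=
    intervalIntegral.intervalIntegral_pos_of_pos (continuous_ell.intervalIntegrable _ _) ell_pos
      one_pos
  unfold kap
  linarith

theorem L_inv {τ : ℝ} (hτ : 0 < τ) : L τ + L (1 / τ) = kap := by
  have h : ∀ x ∈ Set.Ioi (0 : ℝ), HasDerivAt (fun x => L x + L (1 / x)) 0 x := by
    intro x hx
    have hx0 : (0 : ℝ) < x := hx
    have h0 : HasDerivAt (fun x : ℝ => 1 / x) (-(x ^ 2)⁻¹) x := by
      simpa using hasDerivAt_inv hx0.ne'
    have h1 := (hasDerivAt_L (1 / x)).comp x h0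
    have h2 := (hasDerivAt_L x).add h1
    have h3 : ell x + ell (1 / x) * -(x ^ 2)⁻¹ = 0 := by
      have e1 : √(1 + (1 / x) ^ 4) = √(1 + x ^ 4) / x ^ 2 := by
        rw [eq_div_iff (by positivity), ← Real.sqrt_sq (by positivity : (0 : ℝ) ≤ x ^ 2),
          ← Real.sqrt_mul (by positivity)]
        congr 1
        field_simp
        ring
      unfold ell
      rw [e1]
      have : 0 < √(1 + x ^ 4) := by positivity
      field_simp
      ring
    rw [h3] at h2
    exact h2
  have hopen : IsOpen (Set.Ioi (0 : ℝ)) := isOpen_Ioi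
  have h5 : (fun x => L x + L (1 / x)) τ = (fun x => L x + L (1 / x)) 1 :=
    hopen.is_const_of_deriv_eq_zero isPreconnected_Ioi
      (fun x hx => (h x hx).differentiableAt.differentiableWithinAt)
      (fun x hx => (h x hx).deriv) hτ (by norm_num : (1 : ℝ) ∈ Set.Ioi (0 : ℝ))
  simp only at h5
  rw [h5]
  unfold kap
  norm_num
  ring

theorem L_inv_neg {τ : ℝ} (hτ : τ < 0) : L τ + L (1 / τ) = -kap := by
  have h := L_inv (neg_pos.2 hτ)
  have h1 : 1 / -τ = -(1 / τ) := by rw [div_neg]
  rw [h1, L_neg, L_neg] at h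
  linarith

/-- The period map `χ` of the projectivised surface. -/
noncomputable def chi (x y : ℝ) : ℂ :=
  if x = 0 then -1 else Complex.exp (Real.pi * Complex.I * (L (y / x) / kap : ℝ))

theorem chi_of_ne {x y : ℝ} (hx : x ≠ 0) :
    chi x y = Complex.exp (Real.pi * Complex.I * (L (y / x) / kap : ℝ)) := by
  rw [chi, if_neg hx]

theorem chi_of_ne' {x y : ℝ} (hy : y ≠ 0) :
    chi x y = -Complex.exp (-(Real.pi * Complex.I * (L (x / y) / kap : ℝ))) := by
  by_cases hx : x = 0
  · subst hx
    simp [chi, L_zero]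
  · rw [chi_of_ne hx]
    have hk := kap_pos.ne'
    have key : ∀ σ : ℝ, (σ = 1 ∨ σ = -1) → L (y / x) + L (x / y) = σ * kap →
        Complex.exp (Real.pi * Complex.I * (L (y / x) / kap : ℝ))
          = -Complex.exp (-(Real.pi * Complex.I * (L (x / y) / kap : ℝ))) := by
      intro σ hσ h
      have h1 : L (y / x) / kap = σ - L (x / y) / kap := by
        field_simp
        linarith
      rw [h1]
      have h2 : (Real.pi * Complex.I * ((σ - L (x / y) / kap : ℝ) : ℂ))
          = σ * (Real.pi * Complex.I) + -(Real.pi * Complex.I * (L (x / y) / kap : ℝ)) := by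
        push_cast
        ring
      rw [h2, Complex.exp_add]
      have h3 : Complex.exp (σ * (Real.pi * Complex.I)) = -1 := by
        rcases hσ with rfl | rfl
        · simp [Complex.exp_pi_mul_I]
        · have : ((-1 : ℝ) : ℂ) * (Real.pi * Complex.I) = -(Real.pi * Complex.I) := by
            push_cast
            ring
          rw [this, Complex.exp_neg, Complex.exp_pi_mul_I]
          norm_num
      rw [h3]
      ring
    have hτ : y / x ≠ 0 := div_ne_zero hy hx
    have hinv : x / y = 1 / (y / x) := by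
      field_simp
    rcases lt_or_gt_of_ne hτ with h | h
    · refine key (-1) (Or.inr rfl) ?_
      rw [hinv, L_inv_neg h]
      ring
    · refine key 1 (Or.inl rfl) ?_
      rw [hinv, L_inv h]
      ring

theorem chi_mul {k x y : ℝ} (hk : k ≠ 0) : chi (k * x) (k * y) = chi x y := by
  by_cases hx : x = 0
  · simp [chi, hx]
  · rw [chi_of_ne hx, chi_of_ne (mul_ne_zero hk hx), mul_div_mul_left _ _ hk]

/-- The derivative of `χ` along a curve. -/
theorem hasDerivAt_chi {A B H : ℝ → ℝ} {v : ℝ} {A' B' : ℝ} (hA : HasDerivAt A A' v)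
    (hB : HasDerivAt B B' v) (h0 : A v ≠ 0 ∨ B v ≠ 0)
    (hH : A v * B' - B v * A' = √(A v ^ 4 + B v ^ 4) * H v) :
    HasDerivAt (fun t => chi (A t) (B t))
      (Real.pi * Complex.I * ((H v / kap : ℝ) : ℂ) * chi (A v) (B v)) v := by
  have hk := kap_pos.ne'
  by_cases ha : A v = 0
  · have hb : B v ≠ 0 := h0.resolve_left (not_not.2 ha)
    have hev : ∀ᶠ t in 𝓝 v, B t ≠ 0 := hB.continuousAt.eventually_ne hb
    have h1 : HasDerivAt (fun t => A t / B t) ((A' * B v - A v * B') / B v ^ 2) v :=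
      hA.div hB hb
    have h2' : HasDerivAt (fun t => L (A t / B t)) (ell (A v / B v) *
        ((A' * B v - A v * B') / B v ^ 2)) v :=
      HasDerivAt.comp (h₂ := L) (h := fun t => A t / B t) v (hasDerivAt_L _) h1
    have h2 : HasDerivAt (fun t => L (A t / B t) / kap) (ell (A v / B v) *
        ((A' * B v - A v * B') / B v ^ 2) / kap) v := h2'.div_const kap
    have h3 : ell (A v / B v) * ((A' * B v - A v * B') / B v ^ 2) = -H v := by
      rw [ha]
      have e2 : A v * B' - B v * A' = √(B v ^ 4) * H v := by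
        rw [hH, ha]
        norm_num
      have e3 : √(B v ^ 4) = B v ^ 2 := by
        rw [show B v ^ 4 = (B v ^ 2) ^ 2 by ring, Real.sqrt_sq (by positivity)]
      rw [e3, ha] at e2
      have e4 : ell (0 / B v) = 1 := by simp [ell]
      rw [e4]
      field_simp
      linarith
    rw [h3] at h2
    have h4 := (h2.ofReal_comp).const_mul (Real.pi * Complex.I)
    have h5 := h4.neg.cexp.neg
    have h6 := h5.congr_of_eventuallyEq (f₁ := fun t => chi (A t) (B t)) (by
      filter_upwards [hev] with t ht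
      rw [chi_of_ne' ht]
      rfl)
    refine h6.congr_deriv ?_
    rw [chi_of_ne' hb]
    simp only [Pi.neg_apply]
    push_cast
    ring
  · have hev : ∀ᶠ t in 𝓝 v, A t ≠ 0 := hA.continuousAt.eventually_ne ha
    have h1 : HasDerivAt (fun t => B t / A t) ((B' * A v - B v * A') / A v ^ 2) v :=
      hB.div hA ha
    have h2' : HasDerivAt (fun t => L (B t / A t)) (ell (B v / A v) *
        ((B' * A v - B v * A') / A v ^ 2)) v :=
      HasDerivAt.comp (h₂ := L) (h := fun t => B t / A t) v (hasDerivAt_L _) h1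
    have h2 : HasDerivAt (fun t => L (B t / A t) / kap) (ell (B v / A v) *
        ((B' * A v - B v * A') / A v ^ 2) / kap) v := h2'.div_const kap
    have h3 : ell (B v / A v) * ((B' * A v - B v * A') / A v ^ 2) = H v := by
      have hs : 0 < √(A v ^ 4 + B v ^ 4) := by
        have : 0 < A v ^ 4 := by positivity
        positivity
      have e1 : √(1 + (B v / A v) ^ 4) = √(A v ^ 4 + B v ^ 4) / A v ^ 2 := by
        rw [eq_div_iff (by positivity), ← Real.sqrt_sq (by positivity : (0 : ℝ) ≤ A v ^ 2),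
          ← Real.sqrt_mul (by positivity)]
        congr 1
        field_simp
      unfold ell
      rw [e1]
      field_simp
      linarith
    rw [h3] at h2
    have h4 := (h2.ofReal_comp).const_mul (Real.pi * Complex.I)
    have h5 := h4.cexp
    have h6 := h5.congr_of_eventuallyEq (f₁ := fun t => chi (A t) (B t)) (by
      filter_upwards [hev] with t ht
      rw [chi_of_ne ht])
    refine h6.congr_deriv ?_
    rw [chi_of_ne ha]
    ring

theorem hasDerivAt_L_div {A B H : ℝ → ℝ} {v : ℝ} {A' B' : ℝ} (hA : HasDerivAt A A' v)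
    (hB : HasDerivAt B B' v) (ha : A v ≠ 0)
    (hH : A v * B' - B v * A' = √(A v ^ 4 + B v ^ 4) * H v) :
    HasDerivAt (fun t => L (B t / A t)) (H v) v := by
  have h1 : HasDerivAt (fun t => B t / A t) ((B' * A v - B v * A') / A v ^ 2) v :=
    hB.div hA ha
  have h2' : HasDerivAt (fun t => L (B t / A t)) (ell (B v / A v) *
      ((B' * A v - B v * A') / A v ^ 2)) v :=
    HasDerivAt.comp (h₂ := L) (h := fun t => B t / A t) v (hasDerivAt_L _) h1
  refine h2'.congr_deriv ?_
  have hs : 0 < √(A v ^ 4 + B v ^ 4) := by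
    have : 0 < A v ^ 4 := by positivity
    positivity
  have e1 : √(1 + (B v / A v) ^ 4) = √(A v ^ 4 + B v ^ 4) / A v ^ 2 := by
    rw [eq_div_iff (by positivity), ← Real.sqrt_sq (by positivity : (0 : ℝ) ≤ A v ^ 2),
      ← Real.sqrt_mul (by positivity)]
    congr 1
    field_simp
  unfold ell
  rw [e1]
  field_simp
  linarith

/-- The change of `χ` along an analytic path in the surface, possibly through the vertex. -/
theorem line_identity {A B C H : ℝ → ℝ} (hA : ∀ v, AnalyticAt ℝ A v) (hB : ∀ v, AnalyticAt ℝ B v)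
    (hC2 : ∀ v, C v ^ 2 = A v ^ 4 + B v ^ 4) (hC0 : ∀ v, 0 ≤ C v)
    (hCne : ∀ v, ¬ ∀ᶠ t in 𝓝 v, C t = 0) (hH : Continuous H)
    (hrel : ∀ v, A v * deriv B v - B v * deriv A v = C v * H v) {p q : ℝ}
    (hp : A p ≠ 0 ∨ B p ≠ 0) (hq : A q ≠ 0 ∨ B q ≠ 0) :
    chi (A q) (B q) = chi (A p) (B p) *
      Complex.exp (Real.pi * Complex.I * (((∫ v in p..q, H v) / kap : ℝ) : ℂ)) := by
  set I : ℝ → ℂ := fun v => Complex.exp (-(Real.pi * Complex.I *
    (((∫ t in p..v, H t) / kap : ℝ) : ℂ))) with hI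
  have hIder : ∀ v, HasDerivAt I (-(Real.pi * Complex.I * ((H v / kap : ℝ) : ℂ)) * I v) v := by
    intro v
    have h1 : HasDerivAt (fun v => ∫ t in p..v, H t) (H v) v :=
      intervalIntegral.integral_hasDerivAt_right (hH.intervalIntegrable _ _)
        (hH.stronglyMeasurableAtFilter _ _) hH.continuousAt
    have h2 := (((h1.div_const kap).ofReal_comp).const_mul (Real.pi * Complex.I)).neg.cexp
    refine h2.congr_deriv ?_
    simp only [hI, Pi.neg_apply]
    ring
  set E : ℝ → ℂ := fun v => I v * chi (A v) (B v) with hE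
  have hloc : ∀ v₁, ∃ g, (∀ᶠ v in 𝓝[≠] v₁, E v = g) ∧ ((A v₁ ≠ 0 ∨ B v₁ ≠ 0) → E v₁ = g) := by
    intro v₁
    obtain ⟨k, A₁, B₁, hA₁, hB₁, hAB, h0⟩ := common_factor (hA v₁) (hB v₁) (by
      intro hcon
      apply hCne v₁
      filter_upwards [hcon] with z hz
      have := hC2 z
      rw [hz.1, hz.2] at this
      simpa using this)
    have hev0 : ∀ᶠ v in 𝓝 v₁, A₁ v ≠ 0 ∨ B₁ v ≠ 0 := by
      rcases h0 with h0 | h0
      · exact (hA₁.continuousAt.eventually_ne h0).mono fun _ h => Or.inl h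
      · exact (hB₁.continuousAt.eventually_ne h0).mono fun _ h => Or.inr h
    have hdA := eventually_deriv_mul hA₁ (hAB.mono fun z hz => hz.1)
    have hdB := eventually_deriv_mul hB₁ (hAB.mono fun z hz => hz.2)
    have hrel1 : ∀ᶠ v in 𝓝[≠] v₁, A₁ v * deriv B₁ v - B₁ v * deriv A₁ v
        = √(A₁ v ^ 4 + B₁ v ^ 4) * H v := by
      have hz : ∀ᶠ z in 𝓝[≠] v₁, z ≠ v₁ := self_mem_nhdsWithin
      filter_upwards [hz, hAB.filter_mono nhdsWithin_le_nhds, hdA.filter_mono nhdsWithin_le_nhds,
        hdB.filter_mono nhdsWithin_le_nhds] with v hv h1 h2 h3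
      have h4 : (v - v₁) ^ (2 * k) ≠ 0 := pow_ne_zero _ (sub_ne_zero.2 hv)
      have h5 : C v = (v - v₁) ^ (2 * k) * √(A₁ v ^ 4 + B₁ v ^ 4) := by
        have h6 : C v = √(C v ^ 2) := (Real.sqrt_sq (hC0 v)).symm
        rw [h6, hC2, h1.1, h1.2]
        have h7 : ((v - v₁) ^ k * A₁ v) ^ 4 + ((v - v₁) ^ k * B₁ v) ^ 4
            = ((v - v₁) ^ (2 * k)) ^ 2 * (A₁ v ^ 4 + B₁ v ^ 4) := by ring
        rw [h7, Real.sqrt_mul (by positivity), Real.sqrt_sq (by
          rw [pow_mul]
          positivity)]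
      have h8 := hrel v
      rw [h5, h2, h3, h1.1, h1.2] at h8
      apply mul_left_cancel₀ h4
      linear_combination h8
    have hrel2 : A₁ v₁ * deriv B₁ v₁ - B₁ v₁ * deriv A₁ v₁
        = √(A₁ v₁ ^ 4 + B₁ v₁ ^ 4) * H v₁ := by
      have c1 : ContinuousAt (fun v => A₁ v * deriv B₁ v - B₁ v * deriv A₁ v) v₁ :=
        (hA₁.continuousAt.mul hB₁.deriv.continuousAt).sub
          (hB₁.continuousAt.mul hA₁.deriv.continuousAt)
      have c2 : ContinuousAt (fun v => √(A₁ v ^ 4 + B₁ v ^ 4) * H v) v₁ :=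
        (((hA₁.continuousAt.pow 4).add (hB₁.continuousAt.pow 4)).sqrt).mul hH.continuousAt
      have t1 := c1.tendsto.mono_left (nhdsWithin_le_nhds (s := {v₁}ᶜ))
      have t2 := c2.tendsto.mono_left (nhdsWithin_le_nhds (s := {v₁}ᶜ))
      exact tendsto_nhds_unique (t1.congr' hrel1) t2
    have hrel3 : ∀ᶠ v in 𝓝 v₁, A₁ v * deriv B₁ v - B₁ v * deriv A₁ v
        = √(A₁ v ^ 4 + B₁ v ^ 4) * H v := by
      have h1 := eventually_nhdsWithin_iff.1 hrel1
      filter_upwards [h1] with v hv
      by_cases h : v = v₁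
      · rw [h]
        exact hrel2
      · exact hv h
    have hall := (hrel3.and hev0).and (hA₁.eventually_analyticAt.and hB₁.eventually_analyticAt)
    obtain ⟨ε, hε, hball⟩ := Metric.eventually_nhds_iff_ball.1 (hall.and hAB)
    have hconst : ∀ v ∈ ball v₁ ε, I v * chi (A₁ v) (B₁ v) = I v₁ * chi (A₁ v₁) (B₁ v₁) := by
      intro v hv
      have hder : ∀ w ∈ ball v₁ ε, HasDerivAt (fun w => I w * chi (A₁ w) (B₁ w)) 0 w := by
        intro w hw
        obtain ⟨⟨⟨r1, r2⟩, r3, r4⟩, -⟩ := hball w hw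
        have h1 := hasDerivAt_chi (H := H) r3.differentiableAt.hasDerivAt
          r4.differentiableAt.hasDerivAt r2 r1
        refine ((hIder w).mul h1).congr_deriv ?_
        ring
      exact isOpen_ball.is_const_of_deriv_eq_zero (convex_ball _ _).isPreconnected
        (fun w hw => (hder w hw).differentiableAt.differentiableWithinAt)
        (fun w hw => (hder w hw).deriv) hv (mem_ball_self hε)
    refine ⟨I v₁ * chi (A₁ v₁) (B₁ v₁), ?_, ?_⟩
    · have hz : ∀ᶠ z in 𝓝[≠] v₁, z ≠ v₁ := self_mem_nhdsWithin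
      filter_upwards [hz, nhdsWithin_le_nhds (ball_mem_nhds v₁ hε)] with v hv hvb
      have h1 := (hball v hvb).2
      rw [hE]
      simp only
      rw [h1.1, h1.2, chi_mul (pow_ne_zero _ (sub_ne_zero.2 hv)), hconst v hvb]
    · intro hne
      have h1 := (hball v₁ (mem_ball_self hε)).2
      have hk : k = 0 := by
        by_contra hk
        rw [sub_self, zero_pow hk, zero_mul, zero_mul] at h1
        rcases hne with h | h
        · exact h h1.1
        · exact h h1.2
      rw [hE]
      simp only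
      rw [h1.1, h1.2, hk]
      simp
  choose g hg1 hg2 using hloc
  have hg : IsLocallyConstant g := by
    rw [IsLocallyConstant.iff_eventually_eq]
    intro v₁
    obtain ⟨ε, hε, hball⟩ := Metric.eventually_nhds_iff_ball.1
      (eventually_nhdsWithin_iff.1 (hg1 v₁))
    filter_upwards [ball_mem_nhds v₁ hε] with v hv
    by_cases h : v = v₁
    · rw [h]
    · have h1 : ∀ᶠ w in 𝓝[≠] v, E w = g v₁ := by
        have h2 : ball v₁ ε ∩ {v₁}ᶜ ∈ 𝓝 v :=
          (isOpen_ball.inter isOpen_compl_singleton).mem_nhds ⟨hv, h⟩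
        filter_upwards [nhdsWithin_le_nhds h2] with w hw
        exact hball w hw.1 hw.2
      obtain ⟨w, hw1, hw2⟩ := (h1.and (hg1 v)).exists
      rw [← hw2, hw1]
  have hgpq : g q = g p := hg.apply_eq_of_preconnectedSpace q p
  have e1 := hg2 p hp
  have e2 := hg2 q hq
  rw [hgpq, ← e1] at e2
  have hIp : I p = 1 := by simp [hI]
  have e3 : I q * chi (A q) (B q) = chi (A p) (B p) := by
    have : E q = E p := e2
    simpa [hE, hIp] using this
  rw [← e3]
  have e4 : I q * Complex.exp (Real.pi * Complex.I * (((∫ v in p..q, H v) / kap : ℝ) : ℂ)) = 1 := by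
    rw [hI]
    simp only
    rw [← Complex.exp_add, neg_add_cancel, Complex.exp_zero]
  calc chi (A q) (B q) = (I q * Complex.exp (Real.pi * Complex.I *
        (((∫ v in p..q, H v) / kap : ℝ) : ℂ))) * chi (A q) (B q) := by rw [e4, one_mul]
    _ = _ := by ring

/-- The form `(a db - b da) / c` has globally continuous coefficients. -/
theorem global_H {a b c : ℝ × ℝ → ℝ} (ha : ∀ p, AnalyticAt ℝ a p) (hb : ∀ p, AnalyticAt ℝ b p)
    (hc : ∀ p, AnalyticAt ℝ c p) (h : ∀ p, c p ^ 2 = a p ^ 4 + b p ^ 4)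
    (hne : ∀ u v, ¬ ∀ᶠ t in 𝓝 v, c (u, t) = 0) :
    ∃ H : ℝ × ℝ → ℝ, Continuous H ∧ ∀ p, num a b p = c p * H p := by
  have hloc := fun p : ℝ × ℝ => local_H ha hb hc h p.1 p.2 (hne p.1 p.2)
  choose δ hδ Hl hl1 hl2 using hloc
  have hopen : ∀ p : ℝ × ℝ, IsOpen (ball p.1 (δ p) ×ˢ ball p.2 (δ p)) := fun p =>
    isOpen_ball.prod isOpen_ball
  have hself : ∀ p : ℝ × ℝ, p ∈ ball p.1 (δ p) ×ˢ ball p.2 (δ p) := fun p =>
    ⟨mem_ball_self (hδ p), mem_ball_self (hδ p)⟩
  have heq : ∀ p, ∀ q ∈ ball p.1 (δ p) ×ˢ ball p.2 (δ p), Hl q q = Hl p q := by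
    intro p q hq
    have hline : Continuous fun t : ℝ => ((q.1, t) : ℝ × ℝ) := by fun_prop
    have cq : ContinuousAt (fun t => Hl q (q.1, t)) q.2 :=
      ContinuousAt.comp (f := fun t : ℝ => ((q.1, t) : ℝ × ℝ)) (g := Hl q)
        ((hl1 q).continuousAt ((hopen q).mem_nhds (hself q))) hline.continuousAt
    have cp : ContinuousAt (fun t => Hl p (q.1, t)) q.2 :=
      ContinuousAt.comp (f := fun t : ℝ => ((q.1, t) : ℝ × ℝ)) (g := Hl p)
        ((hl1 p).continuousAt ((hopen p).mem_nhds hq)) hline.continuousAt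
    have hcne : ∀ᶠ t in 𝓝[≠] q.2, c (q.1, t) ≠ 0 :=
      ((analyticAt_slice (u := q.1) (v := q.2)
        (hc q)).eventually_eq_zero_or_eventually_ne_zero).resolve_left (hne q.1 q.2)
    have hev : ∀ᶠ t in 𝓝[≠] q.2, Hl q (q.1, t) = Hl p (q.1, t) := by
      have m1 : ∀ᶠ t in 𝓝[≠] q.2, (q.1, t) ∈ ball q.1 (δ q) ×ˢ ball q.2 (δ q) :=
        nhdsWithin_le_nhds (hline.continuousAt.preimage_mem_nhds ((hopen q).mem_nhds (hself q)))
      have m2 : ∀ᶠ t in 𝓝[≠] q.2, (q.1, t) ∈ ball p.1 (δ p) ×ˢ ball p.2 (δ p) :=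
        nhdsWithin_le_nhds (hline.continuousAt.preimage_mem_nhds ((hopen p).mem_nhds hq))
      filter_upwards [hcne, m1, m2] with t h1 h2 h3
      have e1 := hl2 q _ h2.1 _ h2.2
      have e2 := hl2 p _ h3.1 _ h3.2
      rw [e1] at e2
      exact mul_left_cancel₀ h1 e2
    exact tendsto_nhds_unique ((cq.tendsto.mono_left nhdsWithin_le_nhds).congr' hev)
      (cp.tendsto.mono_left nhdsWithin_le_nhds)
  refine ⟨fun p => Hl p p, ?_, fun p => hl2 p p.1 (hself p).1 p.2 (hself p).2⟩
  rw [continuous_iff_continuousAt]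
  intro p
  have hmem := (hopen p).mem_nhds (hself p)
  refine ((hl1 p).continuousAt hmem).congr ?_
  filter_upwards [hmem] with q hq
  exact (heq p q hq).symm

/-- **No approximation.** There is no real analytic map `(a, b, c)` from the plane to the surface
`z = √(x ^ 4 + y ^ 4)` with `|a - u| < 1` and `|b - v| < 1`. -/
theorem no_analytic {a b c : ℝ × ℝ → ℝ} (ha : ∀ p, AnalyticAt ℝ a p) (hb : ∀ p, AnalyticAt ℝ b p)
    (hc : ∀ p, AnalyticAt ℝ c p) (h : ∀ p, c p ^ 2 = a p ^ 4 + b p ^ 4) (h0 : ∀ p, 0 ≤ c p)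
    (hau : ∀ p, |a p - p.1| < 1) (hbv : ∀ p, |b p - p.2| < 1) : False := by
  have btop : ∀ u, 0 < b (u, 2) := fun u => by
    have := (abs_lt.1 (hbv (u, 2))).1
    simp only at this
    linarith
  have bbot : ∀ u, b (u, -2) < 0 := fun u => by
    have := (abs_lt.1 (hbv (u, -2))).2
    simp only at this
    linarith
  have aright : ∀ v, 0 < a (2, v) := fun v => by
    have := (abs_lt.1 (hau (2, v))).1
    simp only at this
    linarith
  have aleft : ∀ v, a (-2, v) < 0 := fun v => by
    have := (abs_lt.1 (hau (-2, v))).2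
    simp only at this
    linarith
  have hne : ∀ u v, ¬ ∀ᶠ t in 𝓝 v, c (u, t) = 0 := by
    intro u v hcon
    have h1 : AnalyticOnNhd ℝ (fun t => c (u, t)) Set.univ := fun t _ => analyticAt_slice (hc (u, t))
    have h2 := h1.eqOn_zero_of_preconnected_of_eventuallyEq_zero isPreconnected_univ
      (Set.mem_univ v) hcon (Set.mem_univ 2)
    have h3 := h (u, 2)
    have h4 : c (u, 2) = 0 := h2
    have h5 := btop u
    rw [h4] at h3
    have : 0 < b (u, 2) ^ 4 := by positivity
    have : 0 ≤ a (u, 2) ^ 4 := by positivity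
    linarith
  obtain ⟨H, hHc, hH⟩ := global_H ha hb hc h hne
  have hk := kap_pos
  have hLc : Continuous L := by
    rw [continuous_iff_continuousAt]
    exact fun τ => (hasDerivAt_L τ).continuousAt
  have hac : Continuous a := by
    rw [continuous_iff_continuousAt]
    exact fun p => (ha p).continuousAt
  have hbc : Continuous b := by
    rw [continuous_iff_continuousAt]
    exact fun p => (hb p).continuousAt
  set J : ℝ → ℝ := fun u => (∫ v in (-2 : ℝ)..2, H (u, v)) + L (a (u, 2) / b (u, 2))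
    - L (a (u, -2) / b (u, -2)) with hJ
  have hJc : Continuous J := by
    have h1 : Continuous fun u => ∫ v in (-2 : ℝ)..2, H (u, v) :=
      intervalIntegral.continuous_parametric_intervalIntegral_of_continuous'
        (f := fun u v => H (u, v)) (by exact hHc) _ _
    have h2 : Continuous fun u => L (a (u, 2) / b (u, 2)) :=
      hLc.comp ((hac.comp (by fun_prop)).div (hbc.comp (by fun_prop)) fun u => (btop u).ne')
    have h3 : Continuous fun u => L (a (u, -2) / b (u, -2)) :=
      hLc.comp ((hac.comp (by fun_prop)).div (hbc.comp (by fun_prop)) fun u => (bbot u).ne)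
    exact (h1.add h2).sub h3
  have hexp : ∀ u, Complex.exp (Real.pi * Complex.I * ((J u / kap : ℝ) : ℂ)) = 1 := by
    intro u
    have h1 := line_identity (A := fun v => a (u, v)) (B := fun v => b (u, v))
      (C := fun v => c (u, v)) (H := fun v => H (u, v)) (fun v => analyticAt_slice (ha (u, v)))
      (fun v => analyticAt_slice (hb (u, v))) (fun v => h (u, v)) (fun v => h0 (u, v)) (hne u)
      (by fun_prop) (fun v => hH (u, v)) (p := -2) (q := 2) (Or.inr (bbot u).ne)
      (Or.inr (btop u).ne')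
    rw [chi_of_ne' (btop u).ne', chi_of_ne' (bbot u).ne] at h1
    have e0 : ∀ x y z : ℂ, -Complex.exp (-x) = -Complex.exp (-y) * Complex.exp z →
        Complex.exp (z + x - y) = 1 := by
      intro x y z hxyz
      have hx := Complex.exp_ne_zero x
      have hy := Complex.exp_ne_zero y
      rw [Complex.exp_neg, Complex.exp_neg] at hxyz
      rw [Complex.exp_sub, Complex.exp_add]
      field_simp at hxyz ⊢
      linear_combination hxyz
    have e1 := e0 _ _ _ h1
    have e2 : (Real.pi * Complex.I * ((J u / kap : ℝ) : ℂ))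
        = Real.pi * Complex.I * (((∫ v in (-2 : ℝ)..2, H (u, v)) / kap : ℝ) : ℂ)
          + Real.pi * Complex.I * ((L (a (u, 2) / b (u, 2)) / kap : ℝ) : ℂ)
          - Real.pi * Complex.I * ((L (a (u, -2) / b (u, -2)) / kap : ℝ) : ℂ) := by
      rw [hJ]
      push_cast
      ring
    rw [e2]
    exact e1
  have hcs : ∀ p, c p = √(a p ^ 4 + b p ^ 4) := fun p => by
    rw [← h p, Real.sqrt_sq (h0 p)]
  have hint : ∀ u, (∀ v, a (u, v) ≠ 0) → ∫ v in (-2 : ℝ)..2, H (u, v)
      = L (b (u, 2) / a (u, 2)) - L (b (u, -2) / a (u, -2)) := by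
    intro u hu
    refine intervalIntegral.integral_eq_sub_of_hasDerivAt
      (f := fun v => L (b (u, v) / a (u, v))) (fun v _ => ?_)
      (Continuous.intervalIntegrable (by fun_prop) _ _)
    refine hasDerivAt_L_div (A := fun v => a (u, v)) (B := fun v => b (u, v))
      (H := fun v => H (u, v)) (analyticAt_slice (ha (u, v))).differentiableAt.hasDerivAt
      (analyticAt_slice (hb (u, v))).differentiableAt.hasDerivAt (hu v) ?_
    have e := hH (u, v)
    rw [hcs (u, v)] at e
    exact e
  have hinv : ∀ x y : ℝ, x ≠ 0 → y ≠ 0 → 1 / (y / x) = x / y := fun x y hx hy => by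
    field_simp
  have hpos : ∀ x y : ℝ, x ≠ 0 → y ≠ 0 → 0 < y / x → L (y / x) + L (x / y) = kap := by
    intro x y hx hy hxy
    rw [← hinv x y hx hy]
    exact L_inv hxy
  have hneg : ∀ x y : ℝ, x ≠ 0 → y ≠ 0 → y / x < 0 → L (y / x) + L (x / y) = -kap := by
    intro x y hx hy hxy
    rw [← hinv x y hx hy]
    exact L_inv_neg hxy
  have hJ2 : J 2 = 2 * kap := by
    rw [hJ]
    simp only
    rw [hint 2 fun v => (aright v).ne']
    have e1 := hpos _ _ (aright 2).ne' (btop 2).ne' (div_pos (btop 2) (aright 2))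
    have e2 := hneg _ _ (aright (-2)).ne' (bbot 2).ne (div_neg_of_neg_of_pos (bbot 2) (aright (-2)))
    linarith
  have hJm2 : J (-2) = -(2 * kap) := by
    rw [hJ]
    simp only
    rw [hint (-2) fun v => (aleft v).ne]
    have e1 := hneg _ _ (aleft 2).ne (btop (-2)).ne' (div_neg_of_pos_of_neg (btop (-2)) (aleft 2))
    have e2 := hpos _ _ (aleft (-2)).ne (bbot (-2)).ne
      (div_pos_of_neg_of_neg (bbot (-2)) (aleft (-2)))
    linarith
  -- intermediate value
  obtain ⟨u, -, hu⟩ := intermediate_value_Icc (by norm_num : (-2 : ℝ) ≤ 2) hJc.continuousOn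
    (show kap ∈ Set.Icc (J (-2)) (J 2) by
      rw [hJ2, hJm2]
      constructor <;> linarith)
  have h1 := hexp u
  rw [hu, div_self hk.ne'] at h1
  simp only [Complex.ofReal_one, mul_one, Complex.exp_pi_mul_I] at h1
  norm_num at h1

end Pool.Agent.V1152.Quartic
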