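import Mathlib

set_option autoImplicit false

/-!
# Invariant sets and decay of correlations for finitely many times
-/

namespace Pool.Agent.V1152.SMI

open MeasureTheory Function Finset

/-- Cauchy-Schwarz for the integral over a set -/
theorem sq_setIntegral_le {X : Type*} [MeasurableSpace X] {μ : Measure X} [IsProbabilityMeasure μ]
    {A : Set X} (hA : MeasurableSet A) {g : X → ℝ} (hg : Measurable g) {M : ℝ}
    (hM : ∀ x, |g x| ≤ M) : (∫ x in A, g x ∂μ) ^ 2 ≤ μ.real A * ∫ x, g x ^ 2 ∂μ := by
  have hgi : Integrable g μ := Integrable.of_bound hg.aestronglyMeasurable M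
    (Filter.Eventually.of_forall fun x => by rw [Real.norm_eq_abs]; exact hM x)
  have hg2 : Integrable (fun x => g x ^ 2) μ := by
    refine Integrable.of_bound (hg.pow_const 2).aestronglyMeasurable (M ^ 2)
      (Filter.Eventually.of_forall fun x => ?_)
    rw [Real.norm_eq_abs, abs_pow]
    exact pow_le_pow_left₀ (abs_nonneg _) (hM x) 2
  set I := ∫ x in A, g x ∂μ with hI
  set v := μ.real A with hv
  have hv0 : 0 ≤ v := measureReal_nonneg
  have key : ∀ t : ℝ, 0 ≤ (∫ x, g x ^ 2 ∂μ) - 2 * t * I + v * t ^ 2 := by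
    intro t
    have h1 : 0 ≤ ∫ x, (g x - A.indicator (fun _ => t) x) ^ 2 ∂μ :=
      integral_nonneg fun x => sq_nonneg _
    have h2 : ∀ x, (g x - A.indicator (fun _ => t) x) ^ 2 =
        g x ^ 2 - 2 * t * A.indicator g x + A.indicator (fun _ => t ^ 2) x := by
      intro x
      by_cases hx : x ∈ A
      · simp only [Set.indicator_of_mem hx]
        ring
      · simp only [Set.indicator_of_notMem hx]
        ring
    have i1 : Integrable (fun x => A.indicator g x) μ := hgi.indicator hA
    have i2 : Integrable (fun x => A.indicator (fun _ => t ^ 2) x) μ :=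
      (integrable_const (t ^ 2)).indicator hA
    simp_rw [h2] at h1
    have i3 : Integrable (fun x => 2 * t * A.indicator g x) μ := i1.const_mul (2 * t)
    have i4 : Integrable (fun x => g x ^ 2 - 2 * t * A.indicator g x) μ := hg2.sub i3
    rw [integral_add i4 i2, integral_sub hg2 i3,
      integral_const_mul, integral_indicator hA, integral_indicator hA, setIntegral_const] at h1
    rwa [← hI, smul_eq_mul] at h1
  have hJ0 : 0 ≤ ∫ x, g x ^ 2 ∂μ := integral_nonneg fun x => sq_nonneg _
  rcases hv0.lt_or_eq with hpos | h0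
  · have h3 := key (I / v)
    have e : (∫ x, g x ^ 2 ∂μ) - 2 * (I / v) * I + v * (I / v) ^ 2 =
        (∫ x, g x ^ 2 ∂μ) - I ^ 2 / v := by
      field_simp
      ring
    rw [e] at h3
    have h4 : I ^ 2 / v ≤ ∫ x, g x ^ 2 ∂μ := by linarith
    rw [div_le_iff₀ hpos] at h4
    linarith
  · have hI0 : I = 0 := by
      have hA0 : μ A = 0 := by
        have : μ.real A = 0 := h0.symm
        rwa [measureReal_eq_zero_iff] at this
      rw [hI]
      exact setIntegral_measure_zero _ hA0
    rw [hI0, ← h0]
    simp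

/-- the integral of an observable over an invariant set -/
theorem invariant_set {X : Type*} [MeasurableSpace X] {μ : Measure X} [IsProbabilityMeasure μ]
    {T : X → X} (hT : MeasurePreserving T μ μ) {A : Set X} (hA : MeasurableSet A)
    (hTA : T ⁻¹' A = A) {f : X → ℝ} (hf : Measurable f) (hf2 : ∀ x, |f x| ≤ 2) {n : ℕ}
    (hn : 1 ≤ n) {B : ℝ} (hB0 : 0 ≤ B)
    (hB : ∀ k, 3 ≤ k → k < n → |∫ x, f (T^[k] x) * f x ∂μ| ≤ B) :
    (∫ x in A, f x ∂μ) ^ 2 ≤ μ.real A * (20 / n + B) := by
  have hit : ∀ k, MeasurePreserving (T^[k]) μ μ := fun k => hT.iterate k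
  have hTk : ∀ k, (T^[k]) ⁻¹' A = A := by
    intro k
    induction k with
    | zero => rfl
    | succ k ih => rw [iterate_succ, Set.preimage_comp, ih, hTA]
  have hint : ∀ g : X → ℝ, Measurable g → (∃ M, ∀ x, |g x| ≤ M) → Integrable g μ := by
    rintro g hg ⟨M, hM⟩
    exact Integrable.of_bound hg.aestronglyMeasurable M
      (Filter.Eventually.of_forall fun x => by rw [Real.norm_eq_abs]; exact hM x)
  have hcomp : ∀ k (g : X → ℝ), Measurable g → ∫ x, g (T^[k] x) ∂μ = ∫ x, g x ∂μ := by
    intro k g hg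
    have h1 := (hit k).map_eq
    calc ∫ x, g (T^[k] x) ∂μ = ∫ x, g x ∂(Measure.map (T^[k]) μ) := by
          rw [integral_map (hit k).measurable.aemeasurable hg.aestronglyMeasurable]
      _ = _ := by rw [h1]
  have hfk : ∀ k, Measurable (fun x => f (T^[k] x)) := fun k => hf.comp (hit k).measurable
  -- the integral over `A`
  have hAk : ∀ k, ∫ x in A, f (T^[k] x) ∂μ = ∫ x in A, f x ∂μ := by
    intro k
    rw [← integral_indicator hA, ← integral_indicator hA]
    have e : (A.indicator fun x => f (T^[k] x)) = fun x => A.indicator f (T^[k] x) := by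
      funext x
      have hx : (T^[k] x ∈ A) ↔ x ∈ A := by
        rw [← Set.mem_preimage, hTk k]
      by_cases h : x ∈ A
      · rw [Set.indicator_of_mem h, Set.indicator_of_mem (hx.2 h)]
      · rw [Set.indicator_of_notMem h, Set.indicator_of_notMem fun h' => h (hx.1 h')]
    rw [e]
    exact hcomp k _ (hf.indicator hA)
  set G : X → ℝ := fun x => ∑ k ∈ range n, f (T^[k] x) with hG
  have hGm : Measurable G := Finset.measurable_fun_sum _ fun k _ => hfk k
  have hGb : ∀ x, |G x| ≤ n * 2 := by
    intro x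
    refine (abs_sum_le_sum_abs _ _).trans ?_
    refine (sum_le_sum fun k _ => hf2 _).trans ?_
    rw [sum_const, card_range, nsmul_eq_mul]
  have hGA : ∫ x in A, G x ∂μ = n * ∫ x in A, f x ∂μ := by
    rw [hG, integral_finsetSum _ fun k _ => (hint _ (hfk k) ⟨2, fun x => hf2 _⟩).integrableOn]
    simp_rw [hAk]
    rw [sum_const, card_range, nsmul_eq_mul]
  have h1 := sq_setIntegral_le (μ := μ) hA hGm hGb
  rw [hGA] at h1
  -- the second moment
  have hcor : ∀ i j : ℕ, |∫ x, f (T^[i] x) * f (T^[j] x) ∂μ| ≤ 4 := by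
    intro i j
    have := norm_integral_le_of_norm_le_const (μ := μ) (f := fun x => f (T^[i] x) * f (T^[j] x))
      (C := 4) (Filter.Eventually.of_forall fun x => by
        rw [Real.norm_eq_abs, abs_mul]
        nlinarith [hf2 (T^[i] x), hf2 (T^[j] x), abs_nonneg (f (T^[i] x)),
          abs_nonneg (f (T^[j] x))])
    simpa using this
  have hshift : ∀ i j : ℕ, i ≤ j → ∫ x, f (T^[i] x) * f (T^[j] x) ∂μ =
      ∫ x, f (T^[j - i] x) * f x ∂μ := by
    intro i j hij
    have h3 := hcomp i (fun x => f (T^[j - i] x) * f x) ((hfk _).mul hf)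
    rw [← h3]
    apply integral_congr_ae
    refine Filter.Eventually.of_forall fun x => ?_
    simp only
    rw [← iterate_add_apply, Nat.sub_add_cancel hij]
    ring
  have hpair : ∀ i ∈ range n, ∀ j ∈ range n, ∫ x, f (T^[i] x) * f (T^[j] x) ∂μ ≤
      B + if j ∈ Icc (i - 2) (i + 2) then 4 else 0 := by
    intro i hi j hj
    rw [Finset.mem_range] at hi hj
    by_cases h : j ∈ Icc (i - 2) (i + 2)
    · rw [if_pos h]
      have := (abs_le.1 (hcor i j)).2
      linarith
    · rw [if_neg h, add_zero]
      rw [Finset.mem_Icc] at h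
      rcases le_total i j with hij | hij
      · rw [hshift i j hij]
        exact (abs_le.1 (hB (j - i) (by omega) (by omega))).2
      · have e : ∫ x, f (T^[i] x) * f (T^[j] x) ∂μ = ∫ x, f (T^[j] x) * f (T^[i] x) ∂μ := by
          apply integral_congr_ae
          exact Filter.Eventually.of_forall fun x => mul_comm _ _
        rw [e, hshift j i hij]
        exact (abs_le.1 (hB (i - j) (by omega) (by omega))).2
  have h2 : ∫ x, G x ^ 2 ∂μ ≤ n * (n * B + 20) := by
    have e : ∀ x, G x ^ 2 = ∑ i ∈ range n, ∑ j ∈ range n, f (T^[i] x) * f (T^[j] x) := by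
      intro x
      rw [hG]
      simp only
      rw [pow_two, sum_mul_sum]
    simp_rw [e]
    have hij : ∀ i j : ℕ, Integrable (fun x => f (T^[i] x) * f (T^[j] x)) μ := by
      intro i j
      refine hint _ ((hfk i).mul (hfk j)) ⟨4, fun x => ?_⟩
      rw [abs_mul]
      nlinarith [hf2 (T^[i] x), hf2 (T^[j] x), abs_nonneg (f (T^[i] x)),
          abs_nonneg (f (T^[j] x))]
    rw [integral_finsetSum _ fun i _ => integrable_finsetSum _ fun j _ => hij i j]
    have h5 : ∀ i ∈ range n, ∫ x, ∑ j ∈ range n, f (T^[i] x) * f (T^[j] x) ∂μ ≤ n * B + 20 := by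
      intro i hi
      rw [integral_finsetSum _ fun j _ => hij i j]
      refine (sum_le_sum fun j hj => hpair i hi j hj).trans ?_
      rw [sum_add_distrib, sum_const, card_range, nsmul_eq_mul, ← sum_filter, sum_const,
        nsmul_eq_mul]
      have h6 : (((range n).filter fun j => j ∈ Icc (i - 2) (i + 2)).card : ℝ) ≤ 5 := by
        have h7 : ((range n).filter fun j => j ∈ Icc (i - 2) (i + 2)).card ≤
            (Icc (i - 2) (i + 2)).card := by
          apply card_le_card
          intro j hj
          exact (mem_filter.1 hj).2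
        rw [Nat.card_Icc] at h7
        have h8 : ((range n).filter fun j => j ∈ Icc (i - 2) (i + 2)).card ≤ 5 := by omega
        exact_mod_cast h8
      linarith
    refine (sum_le_sum h5).trans ?_
    rw [sum_const, card_range, nsmul_eq_mul]
  have hn0 : (0 : ℝ) < n := by exact_mod_cast hn
  have h9 : (n : ℝ) ^ 2 * (∫ x in A, f x ∂μ) ^ 2 ≤
      (n : ℝ) ^ 2 * (μ.real A * (20 / n + B)) := by
    calc (n : ℝ) ^ 2 * (∫ x in A, f x ∂μ) ^ 2 = (n * ∫ x in A, f x ∂μ) ^ 2 := by ring
      _ ≤ μ.real A * ∫ x, G x ^ 2 ∂μ := h1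
      _ ≤ μ.real A * (n * (n * B + 20)) := mul_le_mul_of_nonneg_left h2 measureReal_nonneg
      _ = (n : ℝ) ^ 2 * (μ.real A * (20 / n + B)) := by
        field_simp
        ring
  exact le_of_mul_le_mul_left h9 (by positivity)

end Pool.Agent.V1152.SMI
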