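import Pool.Agent.TH705.SM.Corr
import Pool.Agent.V1152.SMIA

set_option autoImplicit false

/-!
# Invariant sets of the standard map: observables
-/

namespace Pool.Agent.V1152.SMI

open Real MeasureTheory Function Pool.Agent.TH705.SM

theorem lift_abs_le {H : ℝ → ℝ} (p : Periodic H 1) (b : ∀ x, |H x| ≤ 1) (y : UnitAddCircle) :
    |p.lift y| ≤ 1 := by
  induction y using QuotientAddGroup.induction_on with
  | H t => exact b t

theorem S_snd (a : ℝ) (k : ℕ) (q : T2) : ((S a)^[k + 1] q).2 = ((S a)^[k] q).1 := by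
  rw [iterate_succ_apply']
  rfl

/-- the correlations of two observables -/
theorem corr_obs {a l : ℝ} (hl' : l0 ≤ l) (hla : l ≤ |a|) {k : ℕ} (hk : 3 ≤ k)
    {g : UnitAddCircle → ℝ} (hg : Continuous g) (hg1 : ∀ x, |g x| ≤ 1)
    {H H' : ℝ → ℝ} (d : ∀ x, HasDerivAt H (H' x) x) (c : Continuous H') (p : Periodic H 1)
    (p' : Periodic H' 1) (b : ∀ x, |H x| ≤ 1) {Dv : ℝ} (hD : ∫ x in (0:ℝ)..1, |H' x| ≤ Dv)
    {g2 : UnitAddCircle → ℝ} (hg2 : Continuous g2) (hg21 : ∀ x, |g2 x| ≤ 1)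
    {H2 H2' : ℝ → ℝ} (d2 : ∀ x, HasDerivAt H2 (H2' x) x) (c2 : Continuous H2')
    (p2 : Periodic H2 1) (p2' : Periodic H2' 1) (b2 : ∀ x, |H2 x| ≤ 1)
    (hD2 : ∫ x in (0:ℝ)..1, |H2' x| ≤ Dv) :
    |∫ q : T2, (g (((S a)^[k] q).1) * p.lift (((S a)^[k] q).2) -
      (∫ x, g x) * ∫ y : UnitAddCircle, p.lift y) * (g2 q.1 * p2.lift q.2)| ≤
      2 * (208 * KK * π ^ 2 / l + 8 * Dv / l + 2 * k * (l / |a|)) := by
  obtain ⟨m, rfl⟩ : ∃ m, k = m + 2 := ⟨k - 2, by omega⟩
  have hm : 1 ≤ m := by omega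
  have hl : 16 ≤ l := l0_ge.trans hl'
  have hl0 : 0 < l := by linarith
  have ha : 0 < |a| := by linarith
  have hHc : Continuous H := continuous_iff_continuousAt.2 fun t => (d t).continuousAt
  have hH2c : Continuous H2 := continuous_iff_continuousAt.2 fun t => (d2 t).continuousAt
  have hlc := lift_cont p hHc
  have hlc2 := lift_cont p2 hH2c
  have hla1 := lift_abs_le p b
  have hone : Periodic (fun _ : ℝ => (1:ℝ)) 1 := fun _ => rfl
  have hzero : Periodic (fun _ : ℝ => (0:ℝ)) 1 := fun _ => rfl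
  have honel : ∀ y : UnitAddCircle, hone.lift y = 1 := by
    intro y
    induction y using QuotientAddGroup.induction_on with
    | H t => rfl
  set gb := ∫ x, g x with hgb
  set Hb := ∫ y : UnitAddCircle, p.lift y with hHb
  have hgb1 : |gb| ≤ 1 := by
    have := norm_integral_le_of_norm_le_const (μ := (volume : Measure UnitAddCircle)) (f := g)
      (C := 1) (Filter.Eventually.of_forall fun x => by rw [norm_eq_abs]; exact hg1 x)
    simpa using this
  have hD0 : 0 ≤ ∫ x in (0:ℝ)..1, |H' x| :=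
    intervalIntegral.integral_nonneg (by norm_num) fun x _ => abs_nonneg _
  have t1 := corr hl' hla (m := m + 1) (by omega) hg hg2 hg1 hg21 d c p p' b d2 c2 p2 p2' b2
  have t3 := corr hl' hla (m := m) hm hlc hg2 hla1 hg21 (H1 := fun _ => 1) (H1' := fun _ => 0)
    (fun x => hasDerivAt_const x 1) continuous_const hone hzero (fun _ => by norm_num)
    d2 c2 p2 p2' b2
  simp only [honel, mul_one, abs_zero, intervalIntegral.integral_zero, zero_add] at t3
  rw [← hgb] at t1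
  rw [← hHb] at t3
  have hit := (S_cont a).iterate (m + 1 + 1)
  have hit1 := (S_cont a).iterate (m + 1)
  have k1 : Continuous (fun q : T2 => g (((S a)^[m + 1 + 1] q).1)) :=
    hg.comp (continuous_fst.comp hit)
  have k2 : Continuous (fun q : T2 => p.lift (((S a)^[m + 1 + 1] q).2)) :=
    hlc.comp (continuous_snd.comp hit)
  have k3 : Continuous (fun q : T2 => p.lift (((S a)^[m + 1] q).1)) :=
    hlc.comp (continuous_fst.comp hit1)
  have k4 : Continuous (fun q : T2 => g2 q.1 * p2.lift q.2) :=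
    (hg2.comp continuous_fst).mul (hlc2.comp continuous_snd)
  have i1 : Integrable (fun q : T2 => (g (((S a)^[m + 1 + 1] q).1) - gb) *
      p.lift (((S a)^[m + 1 + 1] q).2) * (g2 q.1 * p2.lift q.2)) :=
    integrable_cont (((k1.sub continuous_const).mul k2).mul k4)
  have i3 : Integrable (fun q : T2 => gb * ((p.lift (((S a)^[m + 1] q).1) - Hb) *
      (g2 q.1 * p2.lift q.2))) :=
    integrable_cont (continuous_const.mul ((k3.sub continuous_const).mul k4))
  have e : ∫ q : T2, (g (((S a)^[m + 2] q).1) * p.lift (((S a)^[m + 2] q).2) -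
      gb * Hb) * (g2 q.1 * p2.lift q.2) =
      (∫ q : T2, (g (((S a)^[m + 1 + 1] q).1) - gb) * p.lift (((S a)^[m + 1 + 1] q).2) *
        (g2 q.1 * p2.lift q.2)) +
      gb * ∫ q : T2, (p.lift (((S a)^[m + 1] q).1) - Hb) * (g2 q.1 * p2.lift q.2) := by
    rw [← integral_const_mul gb (fun q : T2 => (p.lift (((S a)^[m + 1] q).1) - Hb) *
      (g2 q.1 * p2.lift q.2)), ← integral_add i1 i3]
    apply integral_congr_ae
    refine Filter.Eventually.of_forall fun q => ?_
    simp only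
    rw [← S_snd a (m + 1) q]
    ring
  rw [e]
  refine (abs_add_le _ _).trans ?_
  rw [abs_mul]
  have h1 : |gb| * |∫ q : T2, (p.lift (((S a)^[m + 1] q).1) - Hb) * (g2 q.1 * p2.lift q.2)| ≤
      |∫ q : T2, (p.lift (((S a)^[m + 1] q).1) - Hb) * (g2 q.1 * p2.lift q.2)| := by
    have := mul_le_mul_of_nonneg_right hgb1
      (abs_nonneg (∫ q : T2, (p.lift (((S a)^[m + 1] q).1) - Hb) * (g2 q.1 * p2.lift q.2)))
    rwa [one_mul] at this
  have hla0 : 0 ≤ l / |a| := by positivity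
  have h4l : 0 < 4 / l := by positivity
  have h2 : 4 / l * ((∫ x in (0:ℝ)..1, |H' x|) + ∫ x in (0:ℝ)..1, |H2' x|) ≤ 8 * Dv / l := by
    calc 4 / l * ((∫ x in (0:ℝ)..1, |H' x|) + ∫ x in (0:ℝ)..1, |H2' x|) ≤ 4 / l * (Dv + Dv) :=
          mul_le_mul_of_nonneg_left (add_le_add hD hD2) h4l.le
      _ = 8 * Dv / l := by ring
  have h3 : 4 / l * (∫ x in (0:ℝ)..1, |H2' x|) ≤ 8 * Dv / l := by
    refine le_trans ?_ h2
    apply mul_le_mul_of_nonneg_left _ h4l.le
    linarith
  have h5 : 2 * ((m + 1 : ℕ) : ℝ) * (l / |a|) ≤ 2 * ((m + 2 : ℕ) : ℝ) * (l / |a|) := by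
    apply mul_le_mul_of_nonneg_right _ hla0
    push_cast
    linarith
  have h6 : 2 * (m : ℝ) * (l / |a|) ≤ 2 * ((m + 2 : ℕ) : ℝ) * (l / |a|) := by
    apply mul_le_mul_of_nonneg_right _ hla0
    push_cast
    linarith
  linarith

end Pool.Agent.V1152.SMI
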