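import Pool.Agent.V1152.SMIB

set_option autoImplicit false

/-!
# Invariant sets of the standard map: equidistribution, for continuous observables
-/

namespace Pool.Agent.V1152.SMI

open Real MeasureTheory Function Pool.Agent.TH705.SM

/-- the constant -/
noncomputable def CC : ℝ := 44 + 2 * (208 * KK * π ^ 2) + 4 * l0

theorem K1_nonneg : 0 ≤ 208 * KK * π ^ 2 := by
  have := KK_one
  positivity

theorem CC_pos : 0 < CC := by
  have h1 := K1_nonneg
  have h2 := l0_ge
  unfold CC
  linarith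

theorem obs_meas {g : UnitAddCircle → ℝ} (hg : Continuous g) {H : ℝ → ℝ} (hH : Continuous H)
    (p : Periodic H 1) : Continuous (fun q : T2 => g q.1 * p.lift q.2) :=
  (hg.comp continuous_fst).mul ((lift_cont p hH).comp continuous_snd)

theorem obs_int {g h : UnitAddCircle → ℝ} :
    ∫ q : T2, g q.1 * h q.2 = (∫ x, g x) * ∫ y : UnitAddCircle, h y :=
  integral_prod_mul g h

theorem int_abs_le {g : UnitAddCircle → ℝ} (hg1 : ∀ x, |g x| ≤ 1) : |∫ x, g x| ≤ 1 := by
  have := norm_integral_le_of_norm_le_const (μ := (volume : Measure UnitAddCircle)) (f := g)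
    (C := 1) (Filter.Eventually.of_forall fun x => by rw [norm_eq_abs]; exact hg1 x)
  simpa using this

/-- the square of the deviation, for continuous observables -/
theorem dev_sq {a : ℝ} (ha : 1 ≤ |a|) {A : Set T2} (hA : MeasurableSet A) (hinv : S a ⁻¹' A = A)
    {g : UnitAddCircle → ℝ} (hg : Continuous g) (hg1 : ∀ x, |g x| ≤ 1)
    {H H' : ℝ → ℝ} (d : ∀ x, HasDerivAt H (H' x) x) (c : Continuous H') (p : Periodic H 1)
    (p' : Periodic H' 1) (b : ∀ x, |H x| ≤ 1) {Dv : ℝ} (hD : ∫ x in (0:ℝ)..1, |H' x| ≤ Dv) :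
    ((∫ q in A, g q.1 * p.lift q.2) -
      volume.real A * ((∫ x, g x) * ∫ y : UnitAddCircle, p.lift y)) ^ 2 ≤
      volume.real A * (CC * (1 + Dv) * |a| ^ (-(1 / 3) : ℝ)) := by
  have ha0 : 0 < |a| := by linarith
  have hD0 : 0 ≤ Dv := le_trans
    (intervalIntegral.integral_nonneg (by norm_num) fun x _ => abs_nonneg _) hD
  have hHc : Continuous H := continuous_iff_continuousAt.2 fun t => (d t).continuousAt
  have hla1 := lift_abs_le p b
  set cc := (∫ x, g x) * ∫ y : UnitAddCircle, p.lift y with hcc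
  have hcc1 : |cc| ≤ 1 := by
    rw [hcc, abs_mul]
    have h1 := int_abs_le hg1
    have h2 := int_abs_le hla1
    nlinarith [abs_nonneg (∫ x, g x), abs_nonneg (∫ y : UnitAddCircle, p.lift y)]
  set F : T2 → ℝ := fun q => g q.1 * p.lift q.2 with hF
  have hFc : Continuous F := obs_meas hg hHc p
  have hF1 : ∀ q, |F q| ≤ 1 := by
    intro q
    rw [hF]
    simp only
    rw [abs_mul]
    nlinarith [hg1 q.1, hla1 q.2, abs_nonneg (g q.1), abs_nonneg (p.lift q.2)]
  set f : T2 → ℝ := fun q => F q - cc with hf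
  have hfc : Continuous f := hFc.sub continuous_const
  have hf2 : ∀ q, |f q| ≤ 2 := by
    intro q
    rw [hf]
    simp only
    have h1 := abs_le.1 (hF1 q)
    have h2 := abs_le.1 hcc1
    rw [abs_le]
    constructor <;> linarith
  have hFint : ∫ q, F q = cc := obs_int
  have hfA : (∫ q in A, F q) - volume.real A * cc = ∫ q in A, f q := by
    rw [hf, integral_sub (integrable_cont hFc).integrableOn (integrable_const cc).integrableOn,
      setIntegral_const, smul_eq_mul]
  rw [hfA]
  obtain ⟨r, hr⟩ : ∃ r : ℝ, r = |a| ^ (1 / 3 : ℝ) := ⟨_, rfl⟩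
  have hr1 : 1 ≤ r := by rw [hr]; exact Real.one_le_rpow ha (by norm_num)
  have hr0 : 0 < r := by linarith
  have hr3 : r ^ 3 = |a| := by
    rw [hr, ← Real.rpow_natCast, ← Real.rpow_mul ha0.le]
    norm_num
  have hrinv : |a| ^ (-(1 / 3) : ℝ) = 1 / r := by
    rw [Real.rpow_neg ha0.le, ← hr, one_div]
  rw [hrinv]
  have hCC := CC_pos
  have hK1 := K1_nonneg
  have hl0 := l0_ge
  by_cases hcase : l0 ≤ r
  · set n := ⌈r⌉₊ with hn
    have hnr : r ≤ n := Nat.le_ceil r
    have hnr2 : (n : ℝ) ≤ 2 * r := by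
      have := (Nat.ceil_lt_add_one hr0.le).le
      rw [← hn] at this
      linarith
    have hn1 : 1 ≤ n := by
      have h1 : (1 : ℝ) ≤ n := hr1.trans hnr
      exact_mod_cast h1
    have hra : r ≤ |a| := by
      rw [← hr3]
      nlinarith [mul_le_mul hr1 hr1 zero_le_one hr0.le]
    set B := 2 * (208 * KK * π ^ 2 / r + 8 * Dv / r + 2 * n * (r / |a|)) with hB
    have hB0 : 0 ≤ B := by
      rw [hB]
      have h1 : 0 ≤ 208 * KK * π ^ 2 / r := div_nonneg hK1 hr0.le
      have h2 : 0 ≤ 8 * Dv / r := by positivity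
      have h3 : 0 ≤ 2 * n * (r / |a|) := by positivity
      linarith
    have hcor : ∀ k, 3 ≤ k → k < n → |∫ q, f ((S a)^[k] q) * f q| ≤ B := by
      intro k hk hkn
      have h1 := corr_obs hcase hra hk hg hg1 d c p p' b hD hg hg1 d c p p' b hD
      rw [← hcc] at h1
      have hit := (S_cont a).iterate k
      have j1 : Continuous (fun q : T2 => F ((S a)^[k] q)) := hFc.comp hit
      have i1 : Integrable (fun q : T2 => (F ((S a)^[k] q) - cc) * F q) :=
        integrable_cont ((j1.sub continuous_const).mul hFc)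
      have i2 : Integrable (fun q : T2 => F ((S a)^[k] q) - cc) :=
        integrable_cont (j1.sub continuous_const)
      have e0 : ∫ q : T2, F ((S a)^[k] q) = cc := by
        rw [← hFint]
        have h4 := (iter_mp a k).map_eq
        calc ∫ q : T2, F ((S a)^[k] q) = ∫ q, F q ∂(Measure.map ((S a)^[k]) volume) := by
              rw [integral_map (iter_mp a k).measurable.aemeasurable hFc.aestronglyMeasurable]
          _ = _ := by rw [h4]
      have e1 : ∫ q : T2, (F ((S a)^[k] q) - cc) = 0 := by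
        rw [integral_sub (integrable_cont j1) (integrable_const cc), e0, integral_const]
        simp
      have e2 : ∫ q, f ((S a)^[k] q) * f q = ∫ q : T2, (F ((S a)^[k] q) - cc) * F q := by
        have e3 : ∀ q : T2, f ((S a)^[k] q) * f q = (F ((S a)^[k] q) - cc) * F q -
            cc * (F ((S a)^[k] q) - cc) := by
          intro q
          rw [hf]
          simp only
          ring
        simp_rw [e3]
        rw [integral_sub i1 (i2.const_mul cc), integral_const_mul, e1, mul_zero, sub_zero]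
      rw [e2]
      refine h1.trans ?_
      rw [hB]
      have hk2 : (k : ℝ) ≤ n := by exact_mod_cast hkn.le
      have h5 : 2 * (k : ℝ) * (r / |a|) ≤ 2 * n * (r / |a|) := by
        apply mul_le_mul_of_nonneg_right _ (by positivity)
        linarith
      linarith
    have h2 := invariant_set (S_mp a) hA hinv hfc.measurable hf2 hn1 hB0 hcor
    refine h2.trans (mul_le_mul_of_nonneg_left ?_ measureReal_nonneg)
    have h3 : 20 / (n : ℝ) ≤ 20 / r := div_le_div_of_nonneg_left (by norm_num) hr0 hnr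
    have h4 : 2 * (n : ℝ) * (r / |a|) ≤ 4 / r := by
      rw [← hr3]
      have e : r / r ^ 3 = 1 / r ^ 2 := by field_simp
      rw [e]
      calc 2 * (n : ℝ) * (1 / r ^ 2) ≤ 2 * (2 * r) * (1 / r ^ 2) := by
            apply mul_le_mul_of_nonneg_right _ (by positivity)
            linarith
        _ = 4 / r := by
            field_simp
            ring
    have h5 : 20 / (n : ℝ) + B ≤ (28 + 2 * (208 * KK * π ^ 2) + 16 * Dv) / r := by
      have e : (28 + 2 * (208 * KK * π ^ 2) + 16 * Dv) / r = 20 / r +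
          2 * (208 * KK * π ^ 2 / r + 8 * Dv / r + 4 / r) := by ring
      rw [e, hB]
      linarith
    refine h5.trans ?_
    rw [mul_one_div]
    apply div_le_div_of_nonneg_right _ hr0.le
    unfold CC
    nlinarith [mul_nonneg hD0 hK1, mul_nonneg hD0 (by linarith : (0:ℝ) ≤ l0)]
  · rw [not_le] at hcase
    have h2 := sq_setIntegral_le (μ := (volume : Measure T2)) hA hfc.measurable hf2
    have h3 : ∫ q, f q ^ 2 ≤ 4 := by
      have h4 : ∫ q, f q ^ 2 ≤ ∫ q : T2, (4 : ℝ) := by
        apply integral_mono (integrable_cont (hfc.pow 2)) (integrable_const _)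
        intro q
        change f q ^ 2 ≤ (4 : ℝ)
        have := hf2 q
        rw [← sq_abs (f q)]
        nlinarith [abs_nonneg (f q)]
      simpa using h4
    refine h2.trans (mul_le_mul_of_nonneg_left (h3.trans ?_) measureReal_nonneg)
    have h5 : 4 ≤ 4 * l0 * (1 / r) := by
      rw [mul_one_div, le_div_iff₀ hr0]
      nlinarith
    refine h5.trans ?_
    apply mul_le_mul_of_nonneg_right _ (by positivity)
    unfold CC
    nlinarith [mul_nonneg hD0 hK1, mul_nonneg hD0 (by linarith : (0:ℝ) ≤ l0)]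

/-- the deviation, for continuous observables -/
theorem dev {a : ℝ} (ha : 1 ≤ |a|) {A : Set T2} (hA : MeasurableSet A) (hinv : S a ⁻¹' A = A)
    {g : UnitAddCircle → ℝ} (hg : Continuous g) (hg1 : ∀ x, |g x| ≤ 1)
    {H H' : ℝ → ℝ} (d : ∀ x, HasDerivAt H (H' x) x) (c : Continuous H') (p : Periodic H 1)
    (p' : Periodic H' 1) (b : ∀ x, |H x| ≤ 1) {Dv : ℝ} (hD : ∫ x in (0:ℝ)..1, |H' x| ≤ Dv) :
    |(∫ q in A, g q.1 * p.lift q.2) -
      volume.real A * ((∫ x, g x) * ∫ y : UnitAddCircle, p.lift y)| ≤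
      √(CC * (1 + Dv) * volume.real A) * |a| ^ (-(1 / 6) : ℝ) := by
  have ha0 : 0 < |a| := by linarith
  have hA0 : 0 ≤ volume.real A := measureReal_nonneg
  have hD0 : 0 ≤ Dv := le_trans
    (intervalIntegral.integral_nonneg (by norm_num) fun x _ => abs_nonneg _) hD
  have h1 := dev_sq ha hA hinv hg hg1 d c p p' b hD
  have hCC := CC_pos
  have h2 : 0 ≤ √(CC * (1 + Dv) * volume.real A) * |a| ^ (-(1 / 6) : ℝ) := by positivity
  apply abs_le_of_sq_le_sq _ h2
  refine h1.trans (le_of_eq ?_)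
  rw [mul_pow, Real.sq_sqrt (by positivity), ← Real.rpow_natCast, ← Real.rpow_mul ha0.le]
  norm_num
  ring

/-- decay of correlations for finitely many times, for continuous observables -/
theorem mix {a : ℝ} (ha : 1 ≤ |a|) {k : ℕ} (hk : 3 ≤ k)
    {g : UnitAddCircle → ℝ} (hg : Continuous g) (hg1 : ∀ x, |g x| ≤ 1)
    {H H' : ℝ → ℝ} (d : ∀ x, HasDerivAt H (H' x) x) (c : Continuous H') (p : Periodic H 1)
    (p' : Periodic H' 1) (b : ∀ x, |H x| ≤ 1) {Dv : ℝ} (hD : ∫ x in (0:ℝ)..1, |H' x| ≤ Dv)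
    {g2 : UnitAddCircle → ℝ} (hg2 : Continuous g2) (hg21 : ∀ x, |g2 x| ≤ 1)
    {H2 H2' : ℝ → ℝ} (d2 : ∀ x, HasDerivAt H2 (H2' x) x) (c2 : Continuous H2')
    (p2 : Periodic H2 1) (p2' : Periodic H2' 1) (b2 : ∀ x, |H2 x| ≤ 1)
    (hD2 : ∫ x in (0:ℝ)..1, |H2' x| ≤ Dv) :
    |∫ q : T2, (g (((S a)^[k] q).1) * p.lift (((S a)^[k] q).2) -
      (∫ x, g x) * ∫ y : UnitAddCircle, p.lift y) * (g2 q.1 * p2.lift q.2)| ≤
      CC * (1 + Dv) * √(k / |a|) := by
  have ha0 : 0 < |a| := by linarith
  have hD0 : 0 ≤ Dv := le_trans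
    (intervalIntegral.integral_nonneg (by norm_num) fun x _ => abs_nonneg _) hD
  have hK1 := K1_nonneg
  have hl0 := l0_ge
  have hk0 : (0 : ℝ) < k := by
    have : 0 < k := by omega
    exact_mod_cast this
  have hk1 : (1 : ℝ) ≤ k := by
    have : 1 ≤ k := by omega
    exact_mod_cast this
  obtain ⟨s, hs⟩ : ∃ s : ℝ, s = √(|a| / k) := ⟨_, rfl⟩
  have hs0 : 0 < s := by rw [hs]; positivity
  have hs2 : s ^ 2 = |a| / k := by rw [hs]; exact Real.sq_sqrt (by positivity)
  have hinv : √(k / |a|) = 1 / s := by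
    rw [hs, one_div, ← Real.sqrt_inv, inv_div]
  rw [hinv]
  have hka : (k : ℝ) * (s / |a|) = 1 / s := by
    have h1 : |a| = s ^ 2 * k := by
      rw [hs2]
      field_simp
    rw [h1]
    field_simp
  by_cases hcase : l0 ≤ s
  · have hsa : s ≤ |a| := by
      have h1 : s ^ 2 ≤ |a| := by
        rw [hs2]
        exact div_le_self ha0.le hk1
      nlinarith
    have h1 := corr_obs hcase hsa hk hg hg1 d c p p' b hD hg2 hg21 d2 c2 p2 p2' b2 hD2
    refine h1.trans ?_
    have e : 2 * (208 * KK * π ^ 2 / s + 8 * Dv / s + 2 * k * (s / |a|)) =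
        (2 * (208 * KK * π ^ 2) + 16 * Dv + 4) * (1 / s) := by
      rw [show 2 * (k : ℝ) * (s / |a|) = 2 * (k * (s / |a|)) by ring, hka]
      ring
    rw [e]
    apply mul_le_mul_of_nonneg_right _ (by positivity)
    unfold CC
    nlinarith [mul_nonneg hD0 hK1, mul_nonneg hD0 (by linarith : (0:ℝ) ≤ l0)]
  · rw [not_le] at hcase
    have hla1 := lift_abs_le p b
    have hla2 := lift_abs_le p2 b2
    have hcc1 : |(∫ x, g x) * ∫ y : UnitAddCircle, p.lift y| ≤ 1 := by
      rw [abs_mul]
      have h1 := int_abs_le hg1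
      have h2 := int_abs_le hla1
      nlinarith [abs_nonneg (∫ x, g x), abs_nonneg (∫ y : UnitAddCircle, p.lift y)]
    have h1 : |∫ q : T2, (g (((S a)^[k] q).1) * p.lift (((S a)^[k] q).2) -
      (∫ x, g x) * ∫ y : UnitAddCircle, p.lift y) * (g2 q.1 * p2.lift q.2)| ≤ 2 := by
      have := norm_integral_le_of_norm_le_const (μ := (volume : Measure T2))
        (f := fun q : T2 => (g (((S a)^[k] q).1) * p.lift (((S a)^[k] q).2) -
          (∫ x, g x) * ∫ y : UnitAddCircle, p.lift y) * (g2 q.1 * p2.lift q.2)) (C := 2)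
        (Filter.Eventually.of_forall fun q => by
          rw [norm_eq_abs, abs_mul, abs_mul (g2 q.1)]
          have j1 : |g (((S a)^[k] q).1) * p.lift (((S a)^[k] q).2)| ≤ 1 := by
            rw [abs_mul]
            nlinarith [hg1 (((S a)^[k] q).1), hla1 (((S a)^[k] q).2),
              abs_nonneg (g (((S a)^[k] q).1)), abs_nonneg (p.lift (((S a)^[k] q).2))]
          have j2 : |g (((S a)^[k] q).1) * p.lift (((S a)^[k] q).2) -
              (∫ x, g x) * ∫ y : UnitAddCircle, p.lift y| ≤ 2 := by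
            have a1 := abs_le.1 j1
            have a2 := abs_le.1 hcc1
            rw [abs_le]
            constructor <;> linarith
          have j3 : |g2 q.1| * |p2.lift q.2| ≤ 1 := by
            nlinarith [hg21 q.1, hla2 q.2, abs_nonneg (g2 q.1), abs_nonneg (p2.lift q.2)]
          nlinarith [abs_nonneg (g (((S a)^[k] q).1) * p.lift (((S a)^[k] q).2) -
              (∫ x, g x) * ∫ y : UnitAddCircle, p.lift y),
              mul_nonneg (abs_nonneg (g2 q.1)) (abs_nonneg (p2.lift q.2))])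
      simpa using this
    refine h1.trans ?_
    have h5 : 2 ≤ 2 * l0 * (1 / s) := by
      rw [mul_one_div, le_div_iff₀ hs0]
      nlinarith
    refine h5.trans ?_
    apply mul_le_mul_of_nonneg_right _ (by positivity)
    unfold CC
    nlinarith [mul_nonneg hD0 hK1, mul_nonneg hD0 (by linarith : (0:ℝ) ≤ l0)]

end Pool.Agent.V1152.SMI
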