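import Pool.Agent.V1152.SMIC

set_option autoImplicit false

/-!
# Invariant sets of the standard map: equidistribution in boxes
-/

namespace Pool.Agent.V1152.SMI

open Real MeasureTheory Function Pool.Agent.TH705.SM Filter Topology
open scoped ENNReal

/-- approximation of an indicator function by continuous functions -/
theorem approxE {E : Set UnitAddCircle} (hE : MeasurableSet E) {δ : ℝ} (hδ : 0 < δ) :
    ∃ g : UnitAddCircle → ℝ, Continuous g ∧ (∀ x, |g x| ≤ 1) ∧
      ∫ x, |g x - E.indicator (fun _ => (1:ℝ)) x| ≤ δ := by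
  obtain ⟨K, hKE, hKc, hK⟩ := hE.exists_isClosed_sdiff_lt (μ := (volume : Measure UnitAddCircle))
    (measure_ne_top _ _) (ε := ENNReal.ofReal (δ / 2)) (by
      rw [ne_eq, ENNReal.ofReal_eq_zero, not_le]
      positivity)
  obtain ⟨g, hg, hg1, hg2, -, -⟩ := exists_continuous_eLpNorm_sub_le_of_closed
    (μ := (volume : Measure UnitAddCircle)) (p := 1) (by norm_num) hKc isOpen_univ
    (Set.subset_univ K) (measure_ne_top _ _) (1 : ℝ) (ε := ENNReal.ofReal (δ / 2)) (by
      rw [ne_eq, ENNReal.ofReal_eq_zero, not_le]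
      positivity)
  refine ⟨g, hg, fun x => ?_, ?_⟩
  · have := hg2 x
    rwa [norm_one, norm_eq_abs] at this
  have hKm := hKc.measurableSet
  have hgm : Measurable g := hg.measurable
  have hb : ∀ s : Set UnitAddCircle, ∀ x, |s.indicator (fun _ => (1:ℝ)) x| ≤ 1 := by
    intro s x
    by_cases h : x ∈ s
    · rw [Set.indicator_of_mem h]; norm_num
    · rw [Set.indicator_of_notMem h]; norm_num
  have hgb : ∀ x, |g x| ≤ 1 := fun x => by
    have := hg2 x
    rwa [norm_one, norm_eq_abs] at this
  have i1 : Integrable (fun x => |g x - K.indicator (fun _ => (1:ℝ)) x|) := by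
    refine Integrable.of_bound (C := 2) ?_ (Eventually.of_forall fun x => ?_)
    · exact ((hgm.sub (measurable_const.indicator hKm)).abs).aestronglyMeasurable
    · rw [norm_eq_abs, abs_abs]
      have h1 := abs_le.1 (hgb x)
      have h2 := abs_le.1 (hb K x)
      rw [abs_le]
      constructor <;> linarith
  have i2 : Integrable (fun x => (E \ K).indicator (fun _ => (1:ℝ)) x) :=
    (integrable_const (1:ℝ)).indicator (hE.diff hKm)
  have h1 : ∫ x, |g x - E.indicator (fun _ => (1:ℝ)) x| ≤
      ∫ x, (|g x - K.indicator (fun _ => (1:ℝ)) x| + (E \ K).indicator (fun _ => (1:ℝ)) x) := by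
    apply integral_mono_of_nonneg (Eventually.of_forall fun x => abs_nonneg _) (i1.add i2)
    refine Eventually.of_forall fun x => ?_
    change |g x - E.indicator (fun _ => (1:ℝ)) x| ≤
      |g x - K.indicator (fun _ => (1:ℝ)) x| + (E \ K).indicator (fun _ => (1:ℝ)) x
    by_cases hx : x ∈ K
    · have hxE := hKE hx
      rw [Set.indicator_of_mem hx, Set.indicator_of_mem hxE,
        Set.indicator_of_notMem fun h => h.2 hx]
      linarith
    · by_cases hxE : x ∈ E
      · rw [Set.indicator_of_notMem hx, Set.indicator_of_mem hxE,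
          Set.indicator_of_mem (show x ∈ E \ K from ⟨hxE, hx⟩), sub_zero]
        have := abs_sub (g x) 1
        rw [abs_one] at this
        exact this
      · rw [Set.indicator_of_notMem hx, Set.indicator_of_notMem hxE,
          Set.indicator_of_notMem fun h => hxE h.1]
        linarith
  refine h1.trans ?_
  rw [integral_add i1 i2]
  have h2 : ∫ x, (E \ K).indicator (fun _ => (1:ℝ)) x ≤ δ / 2 := by
    rw [integral_indicator (hE.diff hKm), setIntegral_const, smul_eq_mul, mul_one]
    have := ENNReal.toReal_mono ENNReal.ofReal_ne_top hK.le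
    rwa [ENNReal.toReal_ofReal (by positivity)] at this
  have h3 : ∫ x, |g x - K.indicator (fun _ => (1:ℝ)) x| ≤ δ / 2 := by
    have h4 : ∫ x, |g x - K.indicator (fun _ => (1:ℝ)) x| =
        (eLpNorm (fun x => g x - K.indicator (fun _ => (1:ℝ)) x) 1 volume).toReal := by
      rw [eLpNorm_one_eq_lintegral_enorm, ← integral_norm_eq_lintegral_enorm]
      · rfl
      · exact (hgm.sub (measurable_const.indicator hKm)).aestronglyMeasurable
    rw [h4]
    have := ENNReal.toReal_mono ENNReal.ofReal_ne_top hg1
    rwa [ENNReal.toReal_ofReal (by positivity)] at this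
  linarith

/-- the open arc with the center `c` and the length `2 w` -/
def arc (c w : ℝ) : Set UnitAddCircle := (fun t : ℝ => (t : UnitAddCircle)) '' Set.Ioo (c - w) (c + w)

theorem cos_per (c : ℝ) : Periodic (fun t : ℝ => cos (2 * π * (t - c))) 1 := by
  intro t
  show cos (2 * π * (t + 1 - c)) = cos (2 * π * (t - c))
  rw [show 2 * π * (t + 1 - c) = 2 * π * (t - c) + 2 * π by ring, cos_add_two_pi]

theorem mem_arc_iff {c w : ℝ} (hw : 0 < w) (hw2 : w ≤ 1 / 2) (y : UnitAddCircle) :
    y ∈ arc c w ↔ cos (2 * π * w) < (cos_per c).lift y := by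
  induction y using QuotientAddGroup.induction_on with
  | H t =>
    show _ ↔ cos (2 * π * w) < cos (2 * π * (t - c))
    have hpi := Real.pi_pos
    constructor
    · rintro ⟨s, hs, hst⟩
      have h1 : cos (2 * π * (t - c)) = cos (2 * π * (s - c)) := by
        have h2 : (cos_per c).lift ((s : ℝ) : UnitAddCircle) =
            (cos_per c).lift ((t : ℝ) : UnitAddCircle) := congrArg _ hst
        exact h2.symm
      rw [h1, ← Real.cos_abs (2 * π * (s - c))]
      rw [Set.mem_Ioo] at hs
      have h3 : |s - c| < w := by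
        rw [abs_lt]
        constructor <;> linarith
      apply Real.strictAntiOn_cos
      · refine ⟨abs_nonneg _, ?_⟩
        rw [abs_mul, abs_of_pos (by positivity : (0:ℝ) < 2 * π)]
        nlinarith
      · exact ⟨by positivity, by nlinarith⟩
      · rw [abs_mul, abs_of_pos (by positivity : (0:ℝ) < 2 * π)]
        exact mul_lt_mul_of_pos_left h3 (by positivity)
    · intro h
      set s := t - round (t - c) with hs
      have h1 : ((s : ℝ) : UnitAddCircle) = ((t : ℝ) : UnitAddCircle) := by
        rw [hs]
        rw [AddCircle.coe_sub]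
        have : (((round (t - c) : ℤ) : ℝ) : UnitAddCircle) = 0 := by
          rw [AddCircle.coe_eq_zero_iff]
          exact ⟨round (t - c), by simp⟩
        rw [this, sub_zero]
      have h2 : |s - c| ≤ 1 / 2 := by
        have := abs_sub_round (t - c)
        rw [hs]
        rwa [show t - (round (t - c) : ℝ) - c = t - c - round (t - c) by ring]
      have h3 : cos (2 * π * (s - c)) = cos (2 * π * (t - c)) := by
        have h4 : (cos_per c).lift ((s : ℝ) : UnitAddCircle) =
            (cos_per c).lift ((t : ℝ) : UnitAddCircle) := congrArg _ h1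
        exact h4
      refine ⟨s, ?_, h1⟩
      rw [Set.mem_Ioo]
      by_contra hcon
      have h5 : w ≤ |s - c| := by
        by_contra h6
        rw [not_le, abs_lt] at h6
        exact hcon ⟨by linarith [h6.1], by linarith [h6.2]⟩
      have h6 : cos (2 * π * |s - c|) ≤ cos (2 * π * w) := by
        apply Real.strictAntiOn_cos.antitoneOn
        · exact ⟨by positivity, by nlinarith⟩
        · exact ⟨by positivity, by nlinarith⟩
        · exact mul_le_mul_of_nonneg_left h5 (by positivity)
      have h7 : cos (2 * π * |s - c|) = cos (2 * π * (t - c)) := by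
        rw [← h3, ← Real.cos_abs (2 * π * (s - c)), abs_mul,
          abs_of_pos (by positivity : (0:ℝ) < 2 * π)]
      rw [h7] at h6
      linarith

/-- the smooth bump -/
noncomputable def bump (c κ ε t : ℝ) : ℝ := smoothTransition ((cos (2 * π * (t - c)) - κ) / ε)

/-- its derivative -/
noncomputable def bump' (c κ ε t : ℝ) : ℝ :=
  deriv smoothTransition ((cos (2 * π * (t - c)) - κ) / ε) * (-(2 * π) * sin (2 * π * (t - c)) / ε)

theorem bump_hasDeriv (c κ ε t : ℝ) : HasDerivAt (bump c κ ε) (bump' c κ ε t) t := by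
  have h1 : HasDerivAt (fun t : ℝ => (cos (2 * π * (t - c)) - κ) / ε)
      (-(2 * π) * sin (2 * π * (t - c)) / ε) t := by
    have h2 : HasDerivAt (fun t : ℝ => 2 * π * (t - c)) (2 * π) t := by
      have := ((hasDerivAt_id t).sub_const c).const_mul (2 * π)
      simpa using this
    have h3 := ((h2.cos).sub_const κ).div_const ε
    refine h3.congr_deriv ?_
    ring
  have h4 : HasDerivAt smoothTransition
      (deriv smoothTransition ((cos (2 * π * (t - c)) - κ) / ε))
      ((cos (2 * π * (t - c)) - κ) / ε) :=
    ((smoothTransition.contDiff (n := 1)).differentiable (by norm_num) _).hasDerivAt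
  exact h4.comp t h1

theorem bump'_cont (c κ ε : ℝ) : Continuous (bump' c κ ε) := by
  unfold bump'
  exact (sT_deriv_cont.comp (by fun_prop)).mul (by fun_prop)

theorem bump_per (c κ ε : ℝ) : Periodic (bump c κ ε) 1 := by
  intro t
  unfold bump
  have := cos_per c t
  simp only at this
  rw [this]

theorem bump'_per (c κ ε : ℝ) : Periodic (bump' c κ ε) 1 := by
  intro t
  unfold bump'
  have h1 := cos_per c t
  simp only at h1
  rw [h1]
  have h2 : sin (2 * π * (t + 1 - c)) = sin (2 * π * (t - c)) := by
    rw [show 2 * π * (t + 1 - c) = 2 * π * (t - c) + 2 * π by ring, sin_add_two_pi]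
  rw [h2]

theorem bump_mem (c κ ε t : ℝ) : 0 ≤ bump c κ ε t ∧ bump c κ ε t ≤ 1 :=
  ⟨smoothTransition.nonneg _, smoothTransition.le_one _⟩

theorem sT_deriv_nonneg (x : ℝ) : 0 ≤ deriv smoothTransition x :=
  smoothTransition.monotone.deriv_nonneg

/-- the total variation of the bump -/
theorem bump_tv {c κ ε : ℝ} (hε : 0 < ε) : ∫ t in (0:ℝ)..1, |bump' c κ ε t| ≤ 2 := by
  have hpi := Real.pi_pos
  have hcont := bump'_cont c κ ε
  have hper : Periodic (fun t => |bump' c κ ε t|) 1 := fun t => by
    simp only
    rw [bump'_per c κ ε t]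
  have e1 : ∫ t in (0:ℝ)..1, |bump' c κ ε t| = ∫ t in c..(c + 1), |bump' c κ ε t| := by
    have := hper.intervalIntegral_add_eq 0 c
    rwa [zero_add] at this
  have ii : ∀ x y : ℝ, IntervalIntegrable (fun t => |bump' c κ ε t|) volume x y :=
    fun x y => (hcont.abs).intervalIntegrable x y
  rw [e1, ← intervalIntegral.integral_add_adjacent_intervals (ii c (c + 1 / 2))
    (ii (c + 1 / 2) (c + 1))]
  have h1 : ∫ t in c..(c + 1 / 2), |bump' c κ ε t| = bump c κ ε c - bump c κ ε (c + 1 / 2) := by
    have k1 : ∫ t in c..(c + 1 / 2), |bump' c κ ε t| = ∫ t in c..(c + 1 / 2), -bump' c κ ε t := by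
      apply intervalIntegral.integral_congr
      intro t ht
      rw [Set.uIcc_of_le (by linarith)] at ht
      simp only
      apply abs_of_nonpos
      unfold bump'
      apply mul_nonpos_of_nonneg_of_nonpos (sT_deriv_nonneg _)
      apply div_nonpos_of_nonpos_of_nonneg _ hε.le
      have : 0 ≤ sin (2 * π * (t - c)) :=
        sin_nonneg_of_nonneg_of_le_pi (mul_nonneg (by positivity) (by linarith [ht.1]))
          (by nlinarith [ht.2])
      nlinarith
    rw [k1, intervalIntegral.integral_neg, intervalIntegral.integral_eq_sub_of_hasDerivAt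
      (fun t _ => bump_hasDeriv c κ ε t) (hcont.intervalIntegrable _ _)]
    ring
  have h2 : ∫ t in (c + 1 / 2)..(c + 1), |bump' c κ ε t| =
      bump c κ ε (c + 1) - bump c κ ε (c + 1 / 2) := by
    have k1 : ∫ t in (c + 1 / 2)..(c + 1), |bump' c κ ε t| =
        ∫ t in (c + 1 / 2)..(c + 1), bump' c κ ε t := by
      apply intervalIntegral.integral_congr
      intro t ht
      rw [Set.uIcc_of_le (by linarith)] at ht
      simp only
      apply abs_of_nonneg
      unfold bump'
      apply mul_nonneg (sT_deriv_nonneg _)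
      apply div_nonneg _ hε.le
      have h3 : sin (2 * π * (t - c)) = -sin (2 * π * (t - c) - π) := by
        rw [sin_sub_pi]
        ring
      have h4 : 0 ≤ sin (2 * π * (t - c) - π) :=
        sin_nonneg_of_nonneg_of_le_pi (by nlinarith [ht.1]) (by nlinarith [ht.2])
      rw [h3]
      nlinarith
    rw [k1, intervalIntegral.integral_eq_sub_of_hasDerivAt
      (fun t _ => bump_hasDeriv c κ ε t) (hcont.intervalIntegrable _ _)]
  rw [h1, h2]
  have b1 := bump_mem c κ ε c
  have b2 := bump_mem c κ ε (c + 1 / 2)
  have b3 := bump_mem c κ ε (c + 1)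
  linarith [b1.2, b2.1, b3.2]

end Pool.Agent.V1152.SMI
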