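import Pool.Agent.V1152.SMID

set_option autoImplicit false

/-!
# Invariant sets of the standard map: equidistribution in boxes, conclusion
-/

namespace Pool.Agent.V1152.SMI

open Real MeasureTheory Function Pool.Agent.TH705.SM Filter Topology
open scoped ENNReal

/-- the approximation of the indicator function of `J` by smooth functions of total variation at
most `Dv` -/
def Smoothable (J : Set UnitAddCircle) (Dv : ℝ) : Prop :=
  ∀ δ : ℝ, 0 < δ → ∃ (H H' : ℝ → ℝ) (p : Periodic H 1), (∀ x, HasDerivAt H (H' x) x) ∧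
    Continuous H' ∧ Periodic H' 1 ∧ (∀ x, |H x| ≤ 1) ∧ ∫ x in (0:ℝ)..1, |H' x| ≤ Dv ∧
    ∫ y : UnitAddCircle, |p.lift y - J.indicator (fun _ => (1:ℝ)) y| ≤ δ

theorem arc_open {c w : ℝ} (hw : 0 < w) (hw2 : w ≤ 1 / 2) : IsOpen (arc c w) := by
  have h : arc c w = {y | cos (2 * π * w) < (cos_per c).lift y} := by
    ext y
    exact mem_arc_iff hw hw2 y
  rw [h]
  exact isOpen_lt continuous_const (lift_cont (cos_per c) (by fun_prop))

theorem smoothable_univ : Smoothable Set.univ 0 := by
  intro δ hδ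
  refine ⟨fun _ => 1, fun _ => 0, fun _ => rfl, fun x => hasDerivAt_const x 1, continuous_const,
    fun _ => rfl, fun _ => by norm_num, by simp, ?_⟩
  have h : ∀ y : UnitAddCircle, (show Periodic (fun _ : ℝ => (1:ℝ)) 1 from fun _ => rfl).lift y = 1 := by
    intro y
    induction y using QuotientAddGroup.induction_on with
    | H t => rfl
  simp only [h, Set.indicator_univ, sub_self, abs_zero, integral_zero]
  exact hδ.le

theorem smoothable_arc {c w : ℝ} (hw : 0 < w) (hw2 : w ≤ 1 / 2) : Smoothable (arc c w) 2 := by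
  intro δ hδ
  set κ := cos (2 * π * w) with hκ
  have hJ := (arc_open (c := c) hw hw2).measurableSet
  have hlim : Tendsto (fun n : ℕ => ∫ y : UnitAddCircle,
      |(bump_per c κ (1 / ((n : ℝ) + 1))).lift y - (arc c w).indicator (fun _ => (1:ℝ)) y|) atTop
      (𝓝 (∫ y : UnitAddCircle, (0:ℝ))) := by
    apply tendsto_integral_of_dominated_convergence (fun _ => (1:ℝ))
    · intro n
      have hc := lift_cont (bump_per c κ (1 / ((n : ℝ) + 1)))
        (continuous_iff_continuousAt.2 fun t => (bump_hasDeriv _ _ _ t).continuousAt)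
      exact ((hc.measurable.sub (measurable_const.indicator hJ)).abs).aestronglyMeasurable
    · exact integrable_const _
    · intro n
      refine Eventually.of_forall fun y => ?_
      rw [norm_eq_abs, abs_abs]
      induction y using QuotientAddGroup.induction_on with
      | H t =>
        show |bump c κ (1 / ((n : ℝ) + 1)) t - (arc c w).indicator (fun _ => (1:ℝ)) _| ≤ 1
        have hb := bump_mem c κ (1 / ((n : ℝ) + 1)) t
        by_cases h : ((t : ℝ) : UnitAddCircle) ∈ arc c w
        · rw [Set.indicator_of_mem h, abs_le]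
          constructor <;> linarith [hb.1, hb.2]
        · rw [Set.indicator_of_notMem h, abs_le]
          constructor <;> linarith [hb.1, hb.2]
    · refine Eventually.of_forall fun y => ?_
      have hmem := mem_arc_iff (c := c) hw hw2 y
      induction y using QuotientAddGroup.induction_on with
      | H t =>
        have hmem' : ((t : ℝ) : UnitAddCircle) ∈ arc c w ↔ κ < cos (2 * π * (t - c)) := hmem
        show Tendsto (fun n : ℕ => |bump c κ (1 / ((n : ℝ) + 1)) t -
          (arc c w).indicator (fun _ => (1:ℝ)) ((t : ℝ) : UnitAddCircle)|) atTop (𝓝 0)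
        by_cases h : κ < cos (2 * π * (t - c))
        · rw [Set.indicator_of_mem (hmem'.2 h)]
          apply tendsto_const_nhds.congr'
          obtain ⟨N, hN⟩ := exists_nat_ge (1 / (cos (2 * π * (t - c)) - κ))
          filter_upwards [eventually_ge_atTop N] with n hn
          have h0 : 0 < cos (2 * π * (t - c)) - κ := by linarith
          have h1 : 1 ≤ (cos (2 * π * (t - c)) - κ) / (1 / ((n : ℝ) + 1)) := by
            have hn' : (N : ℝ) ≤ n := by exact_mod_cast hn
            rw [div_div_eq_mul_div, div_one]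
            rw [div_le_iff₀ h0] at hN
            nlinarith
          unfold bump
          rw [smoothTransition.one_of_one_le h1]
          simp
        · rw [Set.indicator_of_notMem fun h' => h (hmem'.1 h')]
          apply tendsto_const_nhds.congr'
          refine Eventually.of_forall fun n => ?_
          have h1 : (cos (2 * π * (t - c)) - κ) / (1 / ((n : ℝ) + 1)) ≤ 0 := by
            apply div_nonpos_of_nonpos_of_nonneg _ (by positivity)
            rw [not_lt] at h
            linarith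
          show (0:ℝ) = |bump c κ (1 / ((n : ℝ) + 1)) t - 0|
          unfold bump
          rw [smoothTransition.zero_of_nonpos h1]
          simp
  rw [integral_zero] at hlim
  obtain ⟨n, hn⟩ := (hlim.eventually (Iic_mem_nhds hδ)).exists
  have hb := bump_mem c κ (1 / ((n : ℝ) + 1))
  refine ⟨bump c κ (1 / ((n : ℝ) + 1)), bump' c κ (1 / ((n : ℝ) + 1)), bump_per c κ _,
    bump_hasDeriv c κ _, bump'_cont c κ _, bump'_per c κ _, fun x => ?_,
    bump_tv (by positivity), hn⟩
  rw [abs_le]
  constructor <;> linarith [(hb x).1, (hb x).2]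

theorem ind_abs_le (s : Set UnitAddCircle) (x : UnitAddCircle) :
    |s.indicator (fun _ => (1:ℝ)) x| ≤ 1 := by
  by_cases h : x ∈ s
  · rw [Set.indicator_of_mem h]; norm_num
  · rw [Set.indicator_of_notMem h]; norm_num

theorem hint {f : T2 → ℝ} (hf : Measurable f) (M : ℝ) (hM : ∀ q, |f q| ≤ M) : Integrable f :=
  Integrable.of_bound hf.aestronglyMeasurable M
    (Eventually.of_forall fun x => by rw [norm_eq_abs]; exact hM x)

/-- the indicator function of a box -/
noncomputable def iB (E J : Set UnitAddCircle) (q : T2) : ℝ :=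
  E.indicator (fun _ => (1:ℝ)) q.1 * J.indicator (fun _ => (1:ℝ)) q.2

theorem iB_eq (E J : Set UnitAddCircle) : iB E J = (E ×ˢ J).indicator (fun _ => (1:ℝ)) := by
  funext q
  unfold iB
  by_cases h1 : q.1 ∈ E <;> by_cases h2 : q.2 ∈ J <;>
    simp [Set.indicator, Set.mem_prod, h1, h2]

theorem iB_meas {E J : Set UnitAddCircle} (hE : MeasurableSet E) (hJ : MeasurableSet J) :
    Measurable (iB E J) := by
  rw [iB_eq]
  exact measurable_const.indicator (hE.prod hJ)

theorem iB_abs (E J : Set UnitAddCircle) (q : T2) : |iB E J q| ≤ 1 := by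
  unfold iB
  rw [abs_mul]
  nlinarith [ind_abs_le E q.1, ind_abs_le J q.2,
    abs_nonneg (E.indicator (fun _ => (1:ℝ)) q.1), abs_nonneg (J.indicator (fun _ => (1:ℝ)) q.2)]

theorem iB_int {E J : Set UnitAddCircle} (hE : MeasurableSet E) (hJ : MeasurableSet J) :
    ∫ q, iB E J q = volume.real E * volume.real J := by
  have h1 : ∫ q, iB E J q = (∫ x, E.indicator (fun _ => (1:ℝ)) x) *
      ∫ y, J.indicator (fun _ => (1:ℝ)) y := obs_int
  rw [h1, integral_indicator hE, integral_indicator hJ, setIntegral_const, setIntegral_const]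
  simp

/-- approximation of the indicator function of a box by a product observable -/
theorem approx_box {E J : Set UnitAddCircle} (hE : MeasurableSet E) (hJ : MeasurableSet J)
    {Dv : ℝ} (happ : Smoothable J Dv) {δ : ℝ} (hδ : 0 < δ) :
    ∃ (g : UnitAddCircle → ℝ) (H H' : ℝ → ℝ) (p : Periodic H 1), Continuous g ∧
      (∀ x, |g x| ≤ 1) ∧ (∀ x, HasDerivAt H (H' x) x) ∧
      Continuous H' ∧ Periodic H' 1 ∧ (∀ x, |H x| ≤ 1) ∧ ∫ x in (0:ℝ)..1, |H' x| ≤ Dv ∧
      ∫ q : T2, |iB E J q - g q.1 * p.lift q.2| ≤ δ := by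
  obtain ⟨g, hg, hg1, hgE⟩ := approxE hE (δ := δ / 2) (by positivity)
  obtain ⟨H, H', p, d, c, p', b, hD, hHJ⟩ := happ (δ / 2) (by positivity)
  refine ⟨g, H, H', p, hg, hg1, d, c, p', b, hD, ?_⟩
  have hHc : Continuous H := continuous_iff_continuousAt.2 fun t => (d t).continuousAt
  have hlc := lift_cont p hHc
  have hla1 := lift_abs_le p b
  set iE : UnitAddCircle → ℝ := E.indicator (fun _ => (1:ℝ)) with hiE
  set iJ : UnitAddCircle → ℝ := J.indicator (fun _ => (1:ℝ)) with hiJ
  have miE : Measurable iE := measurable_const.indicator hE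
  have miJ : Measurable iJ := measurable_const.indicator hJ
  have bE : ∀ x, |iE x| ≤ 1 := ind_abs_le E
  have bJ : ∀ x, |iJ x| ≤ 1 := ind_abs_le J
  have mG := iB_meas hE hJ
  have mF : Measurable (fun q : T2 => g q.1 * p.lift q.2) := (obs_meas hg hHc p).measurable
  have bF : ∀ q : T2, |g q.1 * p.lift q.2| ≤ 1 := by
    intro q
    rw [abs_mul]
    nlinarith [hg1 q.1, hla1 q.2, abs_nonneg (g q.1), abs_nonneg (p.lift q.2)]
  have iG := hint mG 1 (iB_abs E J)
  have iF := hint mF 1 bF
  set u : UnitAddCircle → ℝ := fun x => |g x - iE x| with hu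
  set v : UnitAddCircle → ℝ := fun y => |p.lift y - iJ y| with hv
  have mu : Measurable u := (hg.measurable.sub miE).abs
  have mv : Measurable v := (hlc.measurable.sub miJ).abs
  have bu : ∀ x, |u x| ≤ 2 := by
    intro x
    show |(|g x - iE x|)| ≤ 2
    rw [abs_abs]
    have h1 := abs_le.1 (hg1 x)
    have h2 := abs_le.1 (bE x)
    rw [abs_le]
    constructor <;> linarith
  have bv : ∀ x, |v x| ≤ 2 := by
    intro x
    show |(|p.lift x - iJ x|)| ≤ 2
    rw [abs_abs]
    have h1 := abs_le.1 (hla1 x)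
    have h2 := abs_le.1 (bJ x)
    rw [abs_le]
    constructor <;> linarith
  have iu : Integrable (fun q : T2 => u q.1) := hint (mu.comp measurable_fst) 2 fun q => bu q.1
  have iv : Integrable (fun q : T2 => v q.2) := hint (mv.comp measurable_snd) 2 fun q => bv q.2
  have h1 : ∫ q : T2, |iB E J q - g q.1 * p.lift q.2| ≤ ∫ q : T2, (u q.1 + v q.2) := by
    apply integral_mono (iG.sub iF).abs (iu.add iv)
    intro q
    change |iE q.1 * iJ q.2 - g q.1 * p.lift q.2| ≤ |g q.1 - iE q.1| + |p.lift q.2 - iJ q.2|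
    have e : iE q.1 * iJ q.2 - g q.1 * p.lift q.2 =
        -((g q.1 - iE q.1) * iJ q.2) + -(g q.1 * (p.lift q.2 - iJ q.2)) := by ring
    rw [e]
    refine (abs_add_le _ _).trans ?_
    rw [abs_neg, abs_neg, abs_mul, abs_mul]
    have h2 := mul_le_mul_of_nonneg_left (bJ q.2) (abs_nonneg (g q.1 - iE q.1))
    have h3 := mul_le_mul_of_nonneg_right (hg1 q.1) (abs_nonneg (p.lift q.2 - iJ q.2))
    linarith
  refine h1.trans ?_
  rw [integral_add iu iv]
  have h2 : ∫ q : T2, u q.1 = ∫ x, u x := by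
    have := obs_int (g := u) (h := fun _ => 1)
    simpa using this
  have h3 : ∫ q : T2, v q.2 = ∫ x, v x := by
    have := obs_int (g := fun _ => 1) (h := v)
    simpa using this
  rw [h2, h3]
  linarith

/-- **Equidistribution of the invariant sets in boxes.** -/
theorem box_of {a : ℝ} (ha : 1 ≤ |a|) {A : Set T2} (hA : MeasurableSet A) (hinv : S a ⁻¹' A = A)
    {E J : Set UnitAddCircle} (hE : MeasurableSet E) (hJ : MeasurableSet J) {Dv : ℝ}
    (happ : Smoothable J Dv) :
    |volume.real (A ∩ (E ×ˢ J)) - volume.real A * (volume.real E * volume.real J)| ≤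
      √(CC * (1 + Dv) * volume.real A) * |a| ^ (-(1 / 6) : ℝ) := by
  apply le_of_forall_pos_le_add
  intro δ hδ
  obtain ⟨g, H, H', p, hg, hg1, d, c, p', b, hD, hGF⟩ :=
    approx_box hE hJ happ (δ := δ / 2) (by positivity)
  have hmain := dev ha hA hinv hg hg1 d c p p' b hD
  have hHc : Continuous H := continuous_iff_continuousAt.2 fun t => (d t).continuousAt
  have hla1 := lift_abs_le p b
  set F : T2 → ℝ := fun q => g q.1 * p.lift q.2 with hF
  have mF : Measurable F := (obs_meas hg hHc p).measurable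
  have bF : ∀ q, |F q| ≤ 1 := by
    intro q
    show |g q.1 * p.lift q.2| ≤ 1
    rw [abs_mul]
    nlinarith [hg1 q.1, hla1 q.2, abs_nonneg (g q.1), abs_nonneg (p.lift q.2)]
  have iG := hint (iB_meas hE hJ) 1 (iB_abs E J)
  have iF := hint mF 1 bF
  have hGA : ∫ q in A, iB E J q = volume.real (A ∩ (E ×ˢ J)) := by
    rw [iB_eq, setIntegral_indicator (hE.prod hJ), setIntegral_const, smul_eq_mul, mul_one]
  have hG0 := iB_int hE hJ
  have hF0 : ∫ q, F q = (∫ x, g x) * ∫ y : UnitAddCircle, p.lift y := obs_int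
  rw [← hGA, ← hG0]
  rw [← hF0] at hmain
  have k1 : |(∫ q in A, iB E J q) - ∫ q in A, F q| ≤ δ / 2 := by
    rw [← integral_sub iG.integrableOn iF.integrableOn]
    refine (abs_integral_le_integral_abs).trans ?_
    refine le_trans ?_ hGF
    exact setIntegral_le_integral (iG.sub iF).abs (Eventually.of_forall fun q => abs_nonneg _)
  have k2 : |(∫ q, iB E J q) - ∫ q, F q| ≤ δ / 2 := by
    rw [← integral_sub iG iF]
    exact (abs_integral_le_integral_abs).trans hGF
  have k3 : |volume.real A| ≤ 1 := by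
    rw [abs_of_nonneg measureReal_nonneg]
    exact measureReal_le_one
  have e : (∫ q in A, iB E J q) - volume.real A * ∫ q, iB E J q =
      ((∫ q in A, iB E J q) - ∫ q in A, F q) + ((∫ q in A, F q) - volume.real A * ∫ q, F q) +
        -(volume.real A * ((∫ q, iB E J q) - ∫ q, F q)) := by ring
  rw [e]
  have k4 : |volume.real A * ((∫ q, iB E J q) - ∫ q, F q)| ≤ δ / 2 := by
    rw [abs_mul]
    have := mul_le_mul k3 k2 (abs_nonneg _) zero_le_one
    linarith
  refine (abs_add_le _ _).trans ?_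
  rw [abs_neg]
  have k5 := abs_add_le ((∫ q in A, iB E J q) - ∫ q in A, F q)
    ((∫ q in A, F q) - volume.real A * ∫ q, F q)
  have k6 : |(∫ q in A, F q) - volume.real A * ∫ q, F q| ≤
    √(CC * (1 + Dv) * volume.real A) * |a| ^ (-(1 / 6) : ℝ) := hmain
  linarith

/-- **Mixing of boxes for finitely many times.** -/
theorem mix_box {a : ℝ} (ha : 1 ≤ |a|) {k : ℕ} (hk : 3 ≤ k)
    {E J E' J' : Set UnitAddCircle} (hE : MeasurableSet E) (hJ : MeasurableSet J)
    (hE' : MeasurableSet E') (hJ' : MeasurableSet J') {Dv : ℝ}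
    (happ : Smoothable J Dv) (happ' : Smoothable J' Dv) :
    |volume.real ((S a)^[k] ⁻¹' (E ×ˢ J) ∩ (E' ×ˢ J')) -
      (volume.real E * volume.real J) * (volume.real E' * volume.real J')| ≤
      CC * (1 + Dv) * √(k / |a|) := by
  apply le_of_forall_pos_le_add
  intro δ hδ
  obtain ⟨g, H, H', p, hg, hg1, d, c, p', b, hD, hGF⟩ :=
    approx_box hE hJ happ (δ := δ / 4) (by positivity)
  obtain ⟨g2, H2, H2', p2, hg2, hg21, d2, c2, p2', b2, hD2, hGF2⟩ :=
    approx_box hE' hJ' happ' (δ := δ / 4) (by positivity)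
  have hmain := mix ha hk hg hg1 d c p p' b hD hg2 hg21 d2 c2 p2 p2' b2 hD2
  have hHc : Continuous H := continuous_iff_continuousAt.2 fun t => (d t).continuousAt
  have hHc2 : Continuous H2 := continuous_iff_continuousAt.2 fun t => (d2 t).continuousAt
  have hla1 := lift_abs_le p b
  have hla2 := lift_abs_le p2 b2
  set F : T2 → ℝ := fun q => g q.1 * p.lift q.2 with hF
  set F2 : T2 → ℝ := fun q => g2 q.1 * p2.lift q.2 with hF2
  have mF : Measurable F := (obs_meas hg hHc p).measurable
  have mF2 : Measurable F2 := (obs_meas hg2 hHc2 p2).measurable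
  have bF : ∀ q, |F q| ≤ 1 := by
    intro q
    show |g q.1 * p.lift q.2| ≤ 1
    rw [abs_mul]
    nlinarith [hg1 q.1, hla1 q.2, abs_nonneg (g q.1), abs_nonneg (p.lift q.2)]
  have bF2 : ∀ q, |F2 q| ≤ 1 := by
    intro q
    show |g2 q.1 * p2.lift q.2| ≤ 1
    rw [abs_mul]
    nlinarith [hg21 q.1, hla2 q.2, abs_nonneg (g2 q.1), abs_nonneg (p2.lift q.2)]
  have mG := iB_meas hE hJ
  have mG2 := iB_meas hE' hJ'
  have mS := (iter_mp a k).measurable
  have iG := hint mG 1 (iB_abs E J)
  have iG2 := hint mG2 1 (iB_abs E' J')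
  have iF := hint mF 1 bF
  have iF2 := hint mF2 1 bF2
  have hcomp : ∀ f : T2 → ℝ, Measurable f → ∫ q, f ((S a)^[k] q) = ∫ q, f q := by
    intro f hf
    have h4 := (iter_mp a k).map_eq
    calc ∫ q : T2, f ((S a)^[k] q) = ∫ q, f q ∂(Measure.map ((S a)^[k]) volume) := by
          rw [integral_map mS.aemeasurable hf.aestronglyMeasurable]
      _ = _ := by rw [h4]
  have hG0 := iB_int hE hJ
  have hG20 := iB_int hE' hJ'
  have hF0 : ∫ q, F q = (∫ x, g x) * ∫ y : UnitAddCircle, p.lift y := obs_int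
  rw [← hF0] at hmain
  have hGI : ∫ q, iB E J ((S a)^[k] q) * iB E' J' q =
      volume.real ((S a)^[k] ⁻¹' (E ×ˢ J) ∩ (E' ×ˢ J')) := by
    have e : (fun q => iB E J ((S a)^[k] q) * iB E' J' q) =
        ((S a)^[k] ⁻¹' (E ×ˢ J) ∩ (E' ×ˢ J')).indicator (fun _ => (1:ℝ)) := by
      funext q
      rw [iB_eq, iB_eq]
      by_cases h1 : (S a)^[k] q ∈ E ×ˢ J <;> by_cases h2 : q ∈ E' ×ˢ J' <;>
        simp [Set.indicator, Set.mem_preimage, h1, h2]
    rw [e, integral_indicator ((mS (hE.prod hJ)).inter (hE'.prod hJ')), setIntegral_const,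
      smul_eq_mul, mul_one]
  rw [← hGI, ← hG0, ← hG20]
  have iGG : Integrable (fun q => iB E J ((S a)^[k] q) * iB E' J' q) := by
    refine hint ((mG.comp mS).mul mG2) 1 fun q => ?_
    show |iB E J ((S a)^[k] q) * iB E' J' q| ≤ 1
    rw [abs_mul]
    nlinarith [iB_abs E J ((S a)^[k] q), iB_abs E' J' q, abs_nonneg (iB E J ((S a)^[k] q)),
      abs_nonneg (iB E' J' q)]
  have iFF : Integrable (fun q => F ((S a)^[k] q) * F2 q) := by
    refine hint ((mF.comp mS).mul mF2) 1 fun q => ?_
    show |F ((S a)^[k] q) * F2 q| ≤ 1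
    rw [abs_mul]
    nlinarith [bF ((S a)^[k] q), bF2 q, abs_nonneg (F ((S a)^[k] q)), abs_nonneg (F2 q)]
  have k1 : |(∫ q, iB E J ((S a)^[k] q) * iB E' J' q) - ∫ q, F ((S a)^[k] q) * F2 q| ≤
      δ / 2 := by
    rw [← integral_sub iGG iFF]
    refine (abs_integral_le_integral_abs).trans ?_
    have iu : Integrable (fun q => |iB E J ((S a)^[k] q) - F ((S a)^[k] q)|) :=
      hint (((mG.comp mS).sub (mF.comp mS)).abs) 2 fun q => by
        show |(|iB E J ((S a)^[k] q) - F ((S a)^[k] q)|)| ≤ 2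
        rw [abs_abs]
        have h1 := abs_le.1 (iB_abs E J ((S a)^[k] q))
        have h2 := abs_le.1 (bF ((S a)^[k] q))
        rw [abs_le]
        constructor <;> linarith
    have iv : Integrable (fun q => |iB E' J' q - F2 q|) := (iG2.sub iF2).abs
    have h1 : ∫ q, |iB E J ((S a)^[k] q) * iB E' J' q - F ((S a)^[k] q) * F2 q| ≤
        ∫ q, (|iB E J ((S a)^[k] q) - F ((S a)^[k] q)| + |iB E' J' q - F2 q|) := by
      apply integral_mono (iGG.sub iFF).abs (iu.add iv)
      intro q
      change |iB E J ((S a)^[k] q) * iB E' J' q - F ((S a)^[k] q) * F2 q| ≤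
        |iB E J ((S a)^[k] q) - F ((S a)^[k] q)| + |iB E' J' q - F2 q|
      have e : iB E J ((S a)^[k] q) * iB E' J' q - F ((S a)^[k] q) * F2 q =
          (iB E J ((S a)^[k] q) - F ((S a)^[k] q)) * iB E' J' q +
            F ((S a)^[k] q) * (iB E' J' q - F2 q) := by ring
      rw [e]
      refine (abs_add_le _ _).trans ?_
      rw [abs_mul, abs_mul]
      have h2 := mul_le_mul_of_nonneg_left (iB_abs E' J' q)
        (abs_nonneg (iB E J ((S a)^[k] q) - F ((S a)^[k] q)))
      have h3 := mul_le_mul_of_nonneg_right (bF ((S a)^[k] q)) (abs_nonneg (iB E' J' q - F2 q))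
      linarith
    refine h1.trans ?_
    rw [integral_add iu iv, hcomp (fun q => |iB E J q - F q|) ((mG.sub mF).abs)]
    linarith
  have k2 : |(∫ q, iB E J q) - ∫ q, F q| ≤ δ / 4 := by
    rw [← integral_sub iG iF]
    exact (abs_integral_le_integral_abs).trans hGF
  have k3 : |(∫ q, iB E' J' q) - ∫ q, F2 q| ≤ δ / 4 := by
    rw [← integral_sub iG2 iF2]
    exact (abs_integral_le_integral_abs).trans hGF2
  have hF2c : Continuous F2 := obs_meas hg2 hHc2 p2
  have e2 : ∫ q : T2, (g (((S a)^[k] q).1) * p.lift (((S a)^[k] q).2) - ∫ q, F q) *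
      (g2 q.1 * p2.lift q.2) = (∫ q, F ((S a)^[k] q) * F2 q) - (∫ q, F q) * ∫ q, F2 q := by
    rw [← integral_const_mul, ← integral_sub iFF (iF2.const_mul _)]
    apply integral_congr_ae
    refine Eventually.of_forall fun q => ?_
    simp only [hF, hF2]
    ring
  rw [e2] at hmain
  have b0 : |∫ q, iB E' J' q| ≤ 1 := by
    have := norm_integral_le_of_norm_le_const (μ := (volume : Measure T2)) (f := iB E' J')
      (C := 1) (Eventually.of_forall fun x => by rw [norm_eq_abs]; exact iB_abs E' J' x)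
    simpa using this
  have b1 : |∫ q, F q| ≤ 1 := by
    have := norm_integral_le_of_norm_le_const (μ := (volume : Measure T2)) (f := F)
      (C := 1) (Eventually.of_forall fun x => by rw [norm_eq_abs]; exact bF x)
    simpa using this
  have e : (∫ q, iB E J ((S a)^[k] q) * iB E' J' q) - (∫ q, iB E J q) * ∫ q, iB E' J' q =
      ((∫ q, iB E J ((S a)^[k] q) * iB E' J' q) - ∫ q, F ((S a)^[k] q) * F2 q) +
      ((∫ q, F ((S a)^[k] q) * F2 q) - (∫ q, F q) * ∫ q, F2 q) +
      (-(((∫ q, iB E J q) - ∫ q, F q) * ∫ q, iB E' J' q) +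
        -((∫ q, F q) * ((∫ q, iB E' J' q) - ∫ q, F2 q))) := by ring
  rw [e]
  have k4 : |((∫ q, iB E J q) - ∫ q, F q) * ∫ q, iB E' J' q| ≤ δ / 4 := by
    rw [abs_mul]
    nlinarith [abs_nonneg ((∫ q, iB E J q) - ∫ q, F q), abs_nonneg (∫ q, iB E' J' q)]
  have k5 : |(∫ q, F q) * ((∫ q, iB E' J' q) - ∫ q, F2 q)| ≤ δ / 4 := by
    rw [abs_mul]
    nlinarith [abs_nonneg ((∫ q, iB E' J' q) - ∫ q, F2 q), abs_nonneg (∫ q, F q)]
  have t1 := abs_add_le
    (((∫ q, iB E J ((S a)^[k] q) * iB E' J' q) - ∫ q, F ((S a)^[k] q) * F2 q) +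
      ((∫ q, F ((S a)^[k] q) * F2 q) - (∫ q, F q) * ∫ q, F2 q))
    (-(((∫ q, iB E J q) - ∫ q, F q) * ∫ q, iB E' J' q) +
        -((∫ q, F q) * ((∫ q, iB E' J' q) - ∫ q, F2 q)))
  have t2 := abs_add_le
    ((∫ q, iB E J ((S a)^[k] q) * iB E' J' q) - ∫ q, F ((S a)^[k] q) * F2 q)
      ((∫ q, F ((S a)^[k] q) * F2 q) - (∫ q, F q) * ∫ q, F2 q)
  have t3 := abs_add_le (-(((∫ q, iB E J q) - ∫ q, F q) * ∫ q, iB E' J' q))
        (-((∫ q, F q) * ((∫ q, iB E' J' q) - ∫ q, F2 q)))
  rw [abs_neg, abs_neg] at t3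
  linarith

end Pool.Agent.V1152.SMI
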