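import Pool.Agent.V1152.SMIE

set_option autoImplicit false

/-!
# Invariant sets of the standard map: final forms
-/

namespace Pool.Agent.V1152.SMI

open Real MeasureTheory Function Pool.Agent.TH705.SM Filter Topology
open scoped ENNReal

theorem inv_iff {a : ℝ} {A : Set T2} (hinv : S a ⁻¹' A = A) (q : T2) : S a q ∈ A ↔ q ∈ A := by
  rw [← Set.mem_preimage, hinv]

/-- the reversing symmetry -/
theorem swap_inv {a : ℝ} {A : Set T2} (hinv : S a ⁻¹' A = A) :
    S a ⁻¹' (Prod.swap ⁻¹' A) = Prod.swap ⁻¹' A := by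
  ext q
  rw [Set.mem_preimage, Set.mem_preimage, Set.mem_preimage, ← inv_iff hinv (S a q).swap]
  have e : S a (S a q).swap = q.swap := by
    unfold S
    simp
    rfl
  rw [e]

theorem vol_swap (X : Set T2) (hX : MeasurableSet X) :
    volume.real (Prod.swap ⁻¹' X) = volume.real X := by
  have h : MeasurePreserving (Prod.swap : T2 → T2)
      ((volume : Measure UnitAddCircle).prod volume) ((volume : Measure UnitAddCircle).prod volume) :=
    Measure.measurePreserving_swap
  exact congrArg ENNReal.toReal (h.measure_preimage hX.nullMeasurableSet)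

/-- the bound with the smaller of the two measures -/
theorem box_min {a : ℝ} (ha : 1 ≤ |a|) {A : Set T2} (hA : MeasurableSet A)
    (hinv : S a ⁻¹' A = A) {E J : Set UnitAddCircle} (hE : MeasurableSet E)
    (hJ : MeasurableSet J) {Dv : ℝ} (hD0 : 0 ≤ Dv) (happ : Smoothable J Dv) :
    |volume.real (A ∩ (E ×ˢ J)) - volume.real A * (volume.real E * volume.real J)| ≤
      √(CC * (1 + Dv)) * √(min (volume.real A) (1 - volume.real A)) *
        |a| ^ (-(1 / 6) : ℝ) := by
  have hCC := CC_pos
  have h0 : 0 ≤ CC * (1 + Dv) := by positivity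
  have h1 := box_of ha hA hinv hE hJ happ
  have hinvc : S a ⁻¹' Aᶜ = Aᶜ := by rw [Set.preimage_compl, hinv]
  have h2 := box_of ha hA.compl hinvc hE hJ happ
  have hc : volume.real Aᶜ = 1 - volume.real A := by
    rw [measureReal_compl hA]
    simp
  have hR : volume.real (E ×ˢ J) = volume.real E * volume.real J := by
    have : (volume : Measure T2) (E ×ˢ J) = volume E * volume J := by
      rw [vol_T2, Measure.prod_prod]
    rw [measureReal_def, this, ENNReal.toReal_mul]
    rfl
  have hc2 : volume.real (Aᶜ ∩ (E ×ˢ J)) =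
      volume.real E * volume.real J - volume.real (A ∩ (E ×ˢ J)) := by
    rw [← hR]
    have h3 := measureReal_inter_add_sdiff (μ := (volume : Measure T2)) (s := E ×ˢ J) hA
    have e1 : (E ×ˢ J) ∩ A = A ∩ (E ×ˢ J) := Set.inter_comm _ _
    have e2 : (E ×ˢ J) \ A = Aᶜ ∩ (E ×ˢ J) := by
      rw [Set.sdiff_eq, Set.inter_comm]
    rw [e1, e2] at h3
    linarith
  rw [hc2, hc] at h2
  have e3 : volume.real E * volume.real J - volume.real (A ∩ E ×ˢ J) -
      (1 - volume.real A) * (volume.real E * volume.real J) =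
      -(volume.real (A ∩ (E ×ˢ J)) - volume.real A * (volume.real E * volume.real J)) := by ring
  rw [e3, abs_neg] at h2
  rw [Real.sqrt_mul h0] at h1 h2
  rcases le_total (volume.real A) (1 - volume.real A) with h | h
  · rw [min_eq_left h]
    exact h1
  · rw [min_eq_right h]
    exact h2

theorem box_swap {a : ℝ} (ha : 1 ≤ |a|) {A : Set T2} (hA : MeasurableSet A)
    (hinv : S a ⁻¹' A = A) {E J : Set UnitAddCircle} (hE : MeasurableSet E)
    (hJ : MeasurableSet J) {Dv : ℝ} (hD0 : 0 ≤ Dv) (happ : Smoothable J Dv) :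
    |volume.real (A ∩ (J ×ˢ E)) - volume.real A * (volume.real J * volume.real E)| ≤
      √(CC * (1 + Dv)) * √(min (volume.real A) (1 - volume.real A)) *
        |a| ^ (-(1 / 6) : ℝ) := by
  have hB := measurable_swap hA
  have h := box_min ha hB (swap_inv hinv) hE hJ hD0 happ
  have e1 : (Prod.swap ⁻¹' A) ∩ (E ×ˢ J) = Prod.swap ⁻¹' (A ∩ (J ×ˢ E)) := by
    ext ⟨x, y⟩
    simp only [Set.mem_inter_iff, Set.mem_preimage, Prod.swap_prod_mk, Set.mem_prod]
    tauto
  rw [e1, vol_swap _ (hA.inter (hJ.prod hE)), vol_swap _ hA, mul_comm (volume.real E)] at h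
  exact h

/-- the integral of the measures of the slices -/
theorem slice_int {A : Set T2} (hA : MeasurableSet A) {E : Set UnitAddCircle}
    (hE : MeasurableSet E) : Integrable (fun x : UnitAddCircle => volume.real (Prod.mk x ⁻¹' A)) ∧
    ∫ x in E, volume.real (Prod.mk x ⁻¹' A) = volume.real (A ∩ (E ×ˢ Set.univ)) := by
  have hm : Measurable (fun x : UnitAddCircle => volume.real (Prod.mk x ⁻¹' A)) :=
    (measurable_measure_prodMk_left hA).ennreal_toReal
  have hi : Integrable (fun x : UnitAddCircle => volume.real (Prod.mk x ⁻¹' A)) := by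
    refine Integrable.of_bound hm.aestronglyMeasurable 1 (Eventually.of_forall fun x => ?_)
    rw [norm_eq_abs, abs_of_nonneg measureReal_nonneg]
    exact measureReal_le_one
  refine ⟨hi, ?_⟩
  have hAE := hA.inter (hE.prod MeasurableSet.univ)
  have h1 : volume.real (A ∩ (E ×ˢ Set.univ)) =
      ∫ q : T2, (A ∩ (E ×ˢ Set.univ)).indicator (fun _ => (1:ℝ)) q := by
    rw [integral_indicator hAE, setIntegral_const, smul_eq_mul, mul_one]
  have h2 : ∫ q : T2, (A ∩ (E ×ˢ Set.univ)).indicator (fun _ => (1:ℝ)) q =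
      ∫ x : UnitAddCircle, ∫ y : UnitAddCircle,
        (A ∩ (E ×ˢ Set.univ)).indicator (fun _ => (1:ℝ)) (x, y) :=
    integral_prod _ ((integrable_const (1:ℝ)).indicator hAE)
  rw [h1, h2, ← integral_indicator hE]
  apply integral_congr_ae
  refine Eventually.of_forall fun x => ?_
  show E.indicator (fun x => volume.real (Prod.mk x ⁻¹' A)) x =
    ∫ y : UnitAddCircle, (A ∩ (E ×ˢ Set.univ)).indicator (fun _ => (1:ℝ)) (x, y)
  by_cases hx : x ∈ E
  · rw [Set.indicator_of_mem hx]
    have e : (fun y => (A ∩ (E ×ˢ Set.univ)).indicator (fun _ => (1:ℝ)) (x, y)) =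
        (Prod.mk x ⁻¹' A).indicator (fun _ => (1:ℝ)) := by
      funext y
      by_cases h : (x, y) ∈ A
      · rw [Set.indicator_of_mem (show (x, y) ∈ A ∩ (E ×ˢ Set.univ) from ⟨h, hx, trivial⟩),
          Set.indicator_of_mem (show y ∈ Prod.mk x ⁻¹' A from h)]
      · rw [Set.indicator_of_notMem fun h' => h h'.1,
          Set.indicator_of_notMem (show y ∉ Prod.mk x ⁻¹' A from h)]
    rw [e, integral_indicator (measurable_prodMk_left hA), setIntegral_const, smul_eq_mul,
      mul_one]
  · rw [Set.indicator_of_notMem hx]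
    have e : (fun y => (A ∩ (E ×ˢ Set.univ)).indicator (fun _ => (1:ℝ)) (x, y)) =
        fun _ => (0:ℝ) := by
      funext y
      exact Set.indicator_of_notMem (fun h => hx h.2.1) _
    rw [e, integral_zero]

/-- the vertical slices -/
theorem slices {a : ℝ} (ha : 1 ≤ |a|) {A : Set T2} (hA : MeasurableSet A)
    (hinv : S a ⁻¹' A = A) :
    ∫ x : UnitAddCircle, |volume.real (Prod.mk x ⁻¹' A) - volume.real A| ≤
      2 * (√CC * √(min (volume.real A) (1 - volume.real A)) * |a| ^ (-(1 / 6) : ℝ)) := by
  have hm : Measurable (fun x : UnitAddCircle => volume.real (Prod.mk x ⁻¹' A)) :=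
    (measurable_measure_prodMk_left hA).ennreal_toReal
  obtain ⟨hi, -⟩ := slice_int hA (E := Set.univ) MeasurableSet.univ
  set E : Set UnitAddCircle := {x | volume.real A ≤ volume.real (Prod.mk x ⁻¹' A)} with hEd
  have hE : MeasurableSet E := measurableSet_le measurable_const hm
  have hid : Integrable (fun x : UnitAddCircle => volume.real (Prod.mk x ⁻¹' A) - volume.real A) :=
    hi.sub (integrable_const _)
  have k : ∀ F : Set UnitAddCircle, MeasurableSet F →
      ∫ x in F, (volume.real (Prod.mk x ⁻¹' A) - volume.real A) =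
        volume.real (A ∩ (F ×ˢ Set.univ)) - volume.real A * (volume.real F *
          volume.real (Set.univ : Set UnitAddCircle)) := by
    intro F hF
    rw [integral_sub hi.integrableOn (integrable_const _).integrableOn,
      (slice_int hA hF).2, setIntegral_const, smul_eq_mul]
    have : volume.real (Set.univ : Set UnitAddCircle) = 1 := by simp
    rw [this]
    ring
  have b : ∀ F : Set UnitAddCircle, MeasurableSet F →
      |∫ x in F, (volume.real (Prod.mk x ⁻¹' A) - volume.real A)| ≤
        √CC * √(min (volume.real A) (1 - volume.real A)) * |a| ^ (-(1 / 6) : ℝ) := by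
    intro F hF
    rw [k F hF]
    have := box_min ha hA hinv hF MeasurableSet.univ le_rfl smoothable_univ
    rwa [add_zero, mul_one] at this
  rw [← integral_add_compl hE hid.abs]
  have e1 : ∫ x in E, |volume.real (Prod.mk x ⁻¹' A) - volume.real A| =
      ∫ x in E, (volume.real (Prod.mk x ⁻¹' A) - volume.real A) := by
    apply setIntegral_congr_fun hE
    intro x hx
    have hx' : volume.real A ≤ volume.real (Prod.mk x ⁻¹' A) := hx
    exact abs_of_nonneg (by linarith)
  have e2 : ∫ x in Eᶜ, |volume.real (Prod.mk x ⁻¹' A) - volume.real A| =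
      -∫ x in Eᶜ, (volume.real (Prod.mk x ⁻¹' A) - volume.real A) := by
    rw [← integral_neg]
    apply setIntegral_congr_fun hE.compl
    intro x hx
    have hx' : ¬ (volume.real A ≤ volume.real (Prod.mk x ⁻¹' A)) := hx
    rw [not_le] at hx'
    exact abs_of_nonpos (by linarith)
  rw [e1, e2]
  have b1 := (abs_le.1 (b E hE)).2
  have b2 := (abs_le.1 (b Eᶜ hE.compl)).1
  linarith

/-- the horizontal slices -/
theorem slices_swap {a : ℝ} (ha : 1 ≤ |a|) {A : Set T2} (hA : MeasurableSet A)
    (hinv : S a ⁻¹' A = A) :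
    ∫ y : UnitAddCircle, |volume.real ((fun x => (x, y)) ⁻¹' A) - volume.real A| ≤
      2 * (√CC * √(min (volume.real A) (1 - volume.real A)) * |a| ^ (-(1 / 6) : ℝ)) := by
  have h := slices ha (measurable_swap hA) (swap_inv hinv)
  rw [vol_swap _ hA] at h
  exact h

end Pool.Agent.V1152.SMI
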