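import Pool.Agent.V1152.SMIF
import Pool.Agent.V1152.SMIG
import Pool.Agent.TH705.SM.CltQ

set_option autoImplicit false

/-!
# Orbit averages of Borel functions of one coordinate; the upper bound for the expansion
-/

namespace Pool.Agent.V1152.SMI

open Real MeasureTheory Function Pool.Agent.TH705.SM Filter Topology
open scoped ENNReal

/-- invariant sets and Borel functions of the first coordinate -/
theorem borel_x {a : ℝ} (ha : 1 ≤ |a|) {A : Set T2} (hA : MeasurableSet A)
    (hinv : S a ⁻¹' A = A) {ψ : UnitAddCircle → ℝ} (hψ : Measurable ψ) {M : ℝ}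
    (hM : ∀ x, |ψ x| ≤ M) :
    |(∫ q in A, ψ q.1) - volume.real A * ∫ x, ψ x| ≤
      M * (2 * (√CC * √(min (volume.real A) (1 - volume.real A)) * |a| ^ (-(1 / 6) : ℝ))) := by
  have hm : Measurable (fun x : UnitAddCircle => volume.real (Prod.mk x ⁻¹' A)) :=
    (measurable_measure_prodMk_left hA).ennreal_toReal
  have hM0 : 0 ≤ M := (abs_nonneg _).trans (hM 0)
  have hψi : Integrable ψ := Integrable.of_bound hψ.aestronglyMeasurable M
    (Eventually.of_forall fun x => by rw [Real.norm_eq_abs]; exact hM x)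
  have hq : Integrable (fun q : T2 => ψ q.1) :=
    Integrable.of_bound (hψ.comp measurable_fst).aestronglyMeasurable M
      (Eventually.of_forall fun x => by rw [Real.norm_eq_abs]; exact hM _)
  have hmi : Integrable (fun x : UnitAddCircle => ψ x * volume.real (Prod.mk x ⁻¹' A)) := by
    refine Integrable.of_bound (hψ.mul hm).aestronglyMeasurable M (Eventually.of_forall fun x => ?_)
    rw [Real.norm_eq_abs, abs_mul, abs_of_nonneg (measureReal_nonneg (μ := volume)
      (s := Prod.mk x ⁻¹' A))]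
    have h1 : volume.real (Prod.mk x ⁻¹' A) ≤ 1 := measureReal_le_one
    nlinarith [hM x, abs_nonneg (ψ x)]
  have h1 : ∫ q in A, ψ q.1 = ∫ x, ψ x * volume.real (Prod.mk x ⁻¹' A) := by
    rw [← integral_indicator hA]
    have h2 : ∫ q : T2, A.indicator (fun q => ψ q.1) q =
        ∫ x : UnitAddCircle, ∫ y : UnitAddCircle, A.indicator (fun q => ψ q.1) (x, y) :=
      integral_prod _ (hq.indicator hA)
    rw [h2]
    apply integral_congr_ae
    refine Eventually.of_forall fun x => ?_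
    show ∫ y : UnitAddCircle, A.indicator (fun q : T2 => ψ q.1) (x, y) =
      ψ x * volume.real (Prod.mk x ⁻¹' A)
    have e : (fun y => A.indicator (fun q : T2 => ψ q.1) (x, y)) =
        (Prod.mk x ⁻¹' A).indicator (fun _ => ψ x) := by
      funext y
      by_cases h : (x, y) ∈ A
      · rw [Set.indicator_of_mem h, Set.indicator_of_mem (show y ∈ Prod.mk x ⁻¹' A from h)]
      · rw [Set.indicator_of_notMem h,
          Set.indicator_of_notMem (show y ∉ Prod.mk x ⁻¹' A from h)]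
    rw [e, integral_indicator (measurable_prodMk_left hA), setIntegral_const, smul_eq_mul,
      mul_comm]
  have h3 : (∫ q in A, ψ q.1) - volume.real A * ∫ x, ψ x =
      ∫ x, ψ x * (volume.real (Prod.mk x ⁻¹' A) - volume.real A) := by
    rw [h1, ← integral_const_mul, ← integral_sub hmi (hψi.const_mul _)]
    apply integral_congr_ae
    refine Eventually.of_forall fun x => ?_
    show ψ x * volume.real (Prod.mk x ⁻¹' A) - volume.real A * ψ x = _
    ring
  rw [h3]
  have hs := slices ha hA hinv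
  have hai : Integrable (fun x : UnitAddCircle =>
      |volume.real (Prod.mk x ⁻¹' A) - volume.real A|) := by
    refine Integrable.of_bound ((hm.sub measurable_const).abs).aestronglyMeasurable 1
      (Eventually.of_forall fun x => ?_)
    rw [Real.norm_eq_abs, abs_abs, abs_le]
    have h1 : volume.real (Prod.mk x ⁻¹' A) ≤ 1 := measureReal_le_one
    have h2 : volume.real A ≤ 1 := measureReal_le_one
    have h3 : 0 ≤ volume.real (Prod.mk x ⁻¹' A) := measureReal_nonneg
    have h4 : 0 ≤ volume.real A := measureReal_nonneg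
    constructor <;> linarith
  calc |∫ x, ψ x * (volume.real (Prod.mk x ⁻¹' A) - volume.real A)|
      ≤ ∫ x, |ψ x * (volume.real (Prod.mk x ⁻¹' A) - volume.real A)| := abs_integral_le_integral_abs
    _ ≤ ∫ x, M * |volume.real (Prod.mk x ⁻¹' A) - volume.real A| := by
        apply integral_mono_of_nonneg (Eventually.of_forall fun x => abs_nonneg _)
          (hai.const_mul M) (Eventually.of_forall fun x => ?_)
        show |ψ x * (volume.real (Prod.mk x ⁻¹' A) - volume.real A)| ≤ _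
        rw [abs_mul]
        exact mul_le_mul_of_nonneg_right (hM x) (abs_nonneg _)
    _ = M * ∫ x, |volume.real (Prod.mk x ⁻¹' A) - volume.real A| := integral_const_mul _ _
    _ ≤ _ := mul_le_mul_of_nonneg_left hs hM0

/-- **orbit averages of Borel functions of the first coordinate** -/
theorem avg_x {a : ℝ} (ha : 1 ≤ |a|) {ψ : UnitAddCircle → ℝ} (hψ : Measurable ψ) {M : ℝ}
    (hM : ∀ x, |ψ x| ≤ M) {ε : ℝ} (hε : 0 < ε) :
    ∃ Z : Set T2, MeasurableSet Z ∧
      volume.real Z ≤ 32 * CC * M ^ 2 / ε ^ 2 * |a| ^ (-(1 / 3) : ℝ) ∧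
      ∀ p, p ∉ Z → ∀ᶠ n : ℕ in atTop,
        |(1 / (n : ℝ)) * ∑ k ∈ Finset.range n, ψ ((S a)^[k] p).1 - ∫ x, ψ x| ≤ ε := by
  have hCC := CC_pos
  have ha0 : 0 < |a| := by linarith
  have hM0 : 0 ≤ M := (abs_nonneg _).trans (hM 0)
  have hp : 0 < |a| ^ (-(1 / 6) : ℝ) := Real.rpow_pos_of_pos ha0 _
  obtain ⟨Z, hZ, hZ1, hZ2⟩ := freq_two (μ := (volume : Measure T2)) (S_mp a)
    (f := fun q : T2 => ψ q.1) (hψ.comp measurable_fst) (M := M) (fun q => hM _)
    (c₀ := ∫ x, ψ x) (K := M * (2 * (√CC * |a| ^ (-(1 / 6) : ℝ)))) (by positivity)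
    (fun A hA hinv => by
      refine (borel_x ha hA hinv hψ hM).trans ?_
      have h1 : √(min (volume.real A) (1 - volume.real A)) ≤ √(volume.real A) :=
        Real.sqrt_le_sqrt (min_le_left _ _)
      have h2 : √CC * √(min (volume.real A) (1 - volume.real A)) * |a| ^ (-(1 / 6) : ℝ) ≤
          √CC * |a| ^ (-(1 / 6) : ℝ) * √(volume.real A) := by
        calc √CC * √(min (volume.real A) (1 - volume.real A)) * |a| ^ (-(1 / 6) : ℝ)
            ≤ √CC * √(volume.real A) * |a| ^ (-(1 / 6) : ℝ) := by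
              apply mul_le_mul_of_nonneg_right _ hp.le
              exact mul_le_mul_of_nonneg_left h1 (Real.sqrt_nonneg _)
          _ = _ := by ring
      calc M * (2 * (√CC * √(min (volume.real A) (1 - volume.real A)) * |a| ^ (-(1 / 6) : ℝ)))
          ≤ M * (2 * (√CC * |a| ^ (-(1 / 6) : ℝ) * √(volume.real A))) := by
            apply mul_le_mul_of_nonneg_left _ hM0
            linarith
        _ = _ := by ring) (ε := ε / 2) (by positivity)
  refine ⟨Z, hZ, ?_, fun p hp => hZ2 p hp ε (by linarith)⟩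
  refine hZ1.trans (le_of_eq ?_)
  have h7 : (|a| ^ (-(1 / 6) : ℝ)) ^ 2 = |a| ^ (-(1 / 3) : ℝ) := by
    rw [← Real.rpow_natCast, ← Real.rpow_mul ha0.le]
    norm_num
  rw [mul_pow, mul_pow, mul_pow, Real.sq_sqrt hCC.le, h7]
  field_simp
  ring

/-- the lift of the standard map to the plane -/
noncomputable def pm (a : ℝ) (p : ℝ × ℝ) : ℝ × ℝ :=
  (2 * p.1 - p.2 + a * sin (2 * π * p.1), p.1)

/-- its derivative -/
noncomputable def pm' (a : ℝ) (q : ℝ × ℝ) : ℝ × ℝ →L[ℝ] ℝ × ℝ :=
  ((L a q.1) • ContinuousLinearMap.fst ℝ ℝ ℝ - ContinuousLinearMap.snd ℝ ℝ ℝ).prod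
    (ContinuousLinearMap.fst ℝ ℝ ℝ)

theorem pm_hasFDeriv (a : ℝ) (q : ℝ × ℝ) : HasFDerivAt (pm a) (pm' a q) q := by
  have h1 : HasFDerivAt (fun p : ℝ × ℝ => p.1) (ContinuousLinearMap.fst ℝ ℝ ℝ) q := hasFDerivAt_fst
  have h2 : HasFDerivAt (fun p : ℝ × ℝ => p.2) (ContinuousLinearMap.snd ℝ ℝ ℝ) q := hasFDerivAt_snd
  have h3 := ((h1.const_mul 2).sub h2).add (((h1.const_mul (2 * π)).sin).const_mul a)
  have h4 := h3.prodMk h1
  refine h4.congr_fderiv ?_
  apply ContinuousLinearMap.ext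
  intro v
  unfold pm' L
  simp
  ring

theorem pm_iter_fderiv (a : ℝ) (p : ℝ × ℝ) (n : ℕ) :
    DifferentiableAt ℝ (pm a)^[n] p ∧
      fderiv ℝ (pm a)^[n + 1] p = (pm' a ((pm a)^[n] p)).comp (fderiv ℝ (pm a)^[n] p) := by
  have hd : ∀ n, DifferentiableAt ℝ (pm a)^[n] p := by
    intro n
    induction n with
    | zero => exact differentiableAt_id
    | succ n ih =>
      rw [iterate_succ']
      exact (pm_hasFDeriv a _).differentiableAt.comp p ih
  refine ⟨hd n, ?_⟩
  rw [iterate_succ', fderiv_comp p (pm_hasFDeriv a _).differentiableAt (hd n),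
    (pm_hasFDeriv a _).fderiv]

/-- the logarithm of the bound of one step -/
noncomputable def ff (a x : ℝ) : ℝ := log (2 + L a x ^ 2) / 2

theorem vec_bound (a : ℝ) (p v : ℝ × ℝ) (n : ℕ) :
    ((fderiv ℝ (pm a)^[n] p) v).1 ^ 2 + ((fderiv ℝ (pm a)^[n] p) v).2 ^ 2 ≤
      (∏ k ∈ Finset.range n, (2 + L a ((pm a)^[k] p).1 ^ 2)) * (v.1 ^ 2 + v.2 ^ 2) := by
  induction n with
  | zero =>
    have : fderiv ℝ (pm a)^[0] p = ContinuousLinearMap.id ℝ (ℝ × ℝ) := fderiv_id
    rw [this]
    simp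
  | succ n ih =>
    rw [(pm_iter_fderiv a p n).2, Finset.prod_range_succ]
    set w := (fderiv ℝ (pm a)^[n] p) v with hw
    set l := L a ((pm a)^[n] p).1 with hl
    have e : ((pm' a ((pm a)^[n] p)).comp (fderiv ℝ (pm a)^[n] p)) v = (l * w.1 - w.2, w.1) := by
      rw [ContinuousLinearMap.comp_apply, ← hw]
      unfold pm'
      simp [hl]
    rw [e]
    show (l * w.1 - w.2) ^ 2 + w.1 ^ 2 ≤ _
    have h1 : (l * w.1 - w.2) ^ 2 + w.1 ^ 2 ≤ (2 + l ^ 2) * (w.1 ^ 2 + w.2 ^ 2) := by
      nlinarith [sq_nonneg (w.1 + l * w.2), sq_nonneg w.2]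
    refine h1.trans ?_
    calc (2 + l ^ 2) * (w.1 ^ 2 + w.2 ^ 2)
        ≤ (2 + l ^ 2) * ((∏ k ∈ Finset.range n, (2 + L a ((pm a)^[k] p).1 ^ 2)) *
          (v.1 ^ 2 + v.2 ^ 2)) := mul_le_mul_of_nonneg_left ih (by positivity)
      _ = _ := by ring

theorem norm_bound (a : ℝ) (p : ℝ × ℝ) (n : ℕ) :
    log ‖fderiv ℝ (pm a)^[n] p‖ ≤
      log 2 / 2 + ∑ k ∈ Finset.range n, ff a ((pm a)^[k] p).1 := by
  set P := ∏ k ∈ Finset.range n, (2 + L a ((pm a)^[k] p).1 ^ 2) with hP
  have hP1 : 1 ≤ P := by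
    rw [hP]
    calc (1:ℝ) = ∏ k ∈ Finset.range n, (1:ℝ) := by simp
      _ ≤ _ := Finset.prod_le_prod (fun _ _ => by norm_num) (fun k _ => by
          nlinarith [sq_nonneg (L a ((pm a)^[k] p).1)])
  have h1 : ‖fderiv ℝ (pm a)^[n] p‖ ≤ √(2 * P) := by
    apply ContinuousLinearMap.opNorm_le_bound _ (Real.sqrt_nonneg _)
    intro v
    have h2 := vec_bound a p v n
    set w := (fderiv ℝ (pm a)^[n] p) v with hw
    have hv1 : v.1 ^ 2 ≤ ‖v‖ ^ 2 := by
      have h0 : |v.1| ^ 2 ≤ ‖v‖ ^ 2 := pow_le_pow_left₀ (abs_nonneg _) (norm_fst_le v) 2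
      rwa [sq_abs] at h0
    have hv2 : v.2 ^ 2 ≤ ‖v‖ ^ 2 := by
      have h0 : |v.2| ^ 2 ≤ ‖v‖ ^ 2 := pow_le_pow_left₀ (abs_nonneg _) (norm_snd_le v) 2
      rwa [sq_abs] at h0
    have h3 : w.1 ^ 2 + w.2 ^ 2 ≤ 2 * P * ‖v‖ ^ 2 := by
      refine h2.trans ?_
      calc P * (v.1 ^ 2 + v.2 ^ 2) ≤ P * (2 * ‖v‖ ^ 2) :=
            mul_le_mul_of_nonneg_left (by linarith) (by linarith)
        _ = _ := by ring
    have h4 : √(2 * P) * ‖v‖ = √(2 * P * ‖v‖ ^ 2) := by
      rw [Real.sqrt_mul (by linarith : (0:ℝ) ≤ 2 * P), Real.sqrt_sq (norm_nonneg _)]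
    rw [h4, Prod.norm_def]
    apply max_le
    · apply Real.le_sqrt_of_sq_le
      rw [Real.norm_eq_abs, sq_abs]
      nlinarith [sq_nonneg w.2]
    · apply Real.le_sqrt_of_sq_le
      rw [Real.norm_eq_abs, sq_abs]
      nlinarith [sq_nonneg w.1]
  have hlog : log 2 / 2 + ∑ k ∈ Finset.range n, ff a ((pm a)^[k] p).1 = log √(2 * P) := by
    have hP0 : P ≠ 0 := by linarith
    rw [Real.log_sqrt (by linarith), Real.log_mul (by norm_num) hP0, hP,
      Real.log_prod (fun k _ => by nlinarith [sq_nonneg (L a ((pm a)^[k] p).1)])]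
    unfold ff
    rw [← Finset.sum_div]
    ring
  rw [hlog]
  rcases (norm_nonneg (fderiv ℝ (pm a)^[n] p)).lt_or_eq with h | h
  · exact Real.log_le_log h h1
  · rw [← h, Real.log_zero]
    apply Real.log_nonneg
    apply Real.le_sqrt_of_sq_le
    linarith

theorem ff_bound {a : ℝ} (ha : 1 ≤ |a|) (x : ℝ) : |ff a x| ≤ 4 * (1 + log |a|) := by
  have h0 : 0 ≤ log |a| := Real.log_nonneg ha
  have h1 := (hh_bound ha x).2
  have h2 : ff a x ≤ hh a x + 1 / (1 + L a x ^ 2) / 2 := by
    unfold ff hh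
    have h3 : 0 < 1 + L a x ^ 2 := by positivity
    have h4 : log (2 + L a x ^ 2) - log (1 + L a x ^ 2) ≤ 1 / (1 + L a x ^ 2) := by
      rw [← Real.log_div (by positivity) (by positivity)]
      refine (Real.log_le_sub_one_of_pos (by positivity)).trans (le_of_eq ?_)
      field_simp
      ring
    linarith
  have h5 : 0 ≤ ff a x := by
    unfold ff
    have : 0 ≤ log (2 + L a x ^ 2) := Real.log_nonneg (by nlinarith [sq_nonneg (L a x)])
    linarith
  have h6 : 1 / (1 + L a x ^ 2) ≤ 1 := by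
    rw [div_le_one (by positivity)]
    nlinarith [sq_nonneg (L a x)]
  rw [abs_of_nonneg h5]
  linarith

theorem ff_cont (a : ℝ) : Continuous (ff a) := by
  unfold ff
  apply Continuous.div_const
  apply Continuous.log
  · exact continuous_const.add ((L_cont a).pow 2)
  · intro x
    nlinarith [sq_nonneg (L a x)]

theorem ff_period (a : ℝ) : Periodic (ff a) 1 := by
  intro x
  unfold ff
  have := L_period a x 1
  simp only [Nat.cast_one] at this
  rw [this]

/-- the mean of `ff` -/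
theorem ff_mean {a : ℝ} (ha : 16 ≤ |a|) :
    log (π * |a|) ≤ ∫ x in (0:ℝ)..1, ff a x ∧
      ∫ x in (0:ℝ)..1, ff a x ≤ log (π * |a|) + 3 / |a| := by
  have ha0 : 0 < |a| := by linarith
  obtain ⟨h1, h2⟩ := hmean_near (a := a) (by linarith)
  have hhc : Continuous (hh a) := hh_cont a
  have eec : Continuous (ee a 16) := ee_cont a (by norm_num)
  have h3 := ee_int (a := a) (l := 16) le_rfl ha
  have hmono : ∫ x in (0:ℝ)..1, hh a x ≤ ∫ x in (0:ℝ)..1, ff a x := by
    apply intervalIntegral.integral_mono_on (by norm_num) (hhc.intervalIntegrable _ _)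
      ((ff_cont a).intervalIntegrable _ _)
    intro x _
    unfold ff hh
    have : log (1 + L a x ^ 2) ≤ log (2 + L a x ^ 2) :=
      Real.log_le_log (by positivity) (by linarith)
    linarith
  have gc : Continuous (fun x => 128 / |a| * ee a 16 x) := continuous_const.mul eec
  have hgc : Continuous (fun x => hh a x + 128 / |a| * ee a 16 x) := hhc.add gc
  have hup : ∫ x in (0:ℝ)..1, ff a x ≤ ∫ x in (0:ℝ)..1, (hh a x + 128 / |a| * ee a 16 x) := by
    apply intervalIntegral.integral_mono_on (by norm_num) ((ff_cont a).intervalIntegrable _ _)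
      (hgc.intervalIntegrable _ _)
    intro x _
    show ff a x ≤ hh a x + 128 / |a| * ee a 16 x
    have h3 : 0 < 1 + L a x ^ 2 := by positivity
    have h4 : log (2 + L a x ^ 2) - log (1 + L a x ^ 2) ≤ 1 / (1 + L a x ^ 2) := by
      rw [← Real.log_div (by positivity) (by positivity)]
      refine (Real.log_le_sub_one_of_pos (by positivity)).trans (le_of_eq ?_)
      field_simp
      ring
    have h5 : 1 / (1 + L a x ^ 2) ≤ 256 / |a| * ee a 16 x := by
      unfold ee
      have e : 256 / |a| * (|a| / (L a x ^ 2 + 16 ^ 2)) = 256 / (L a x ^ 2 + 16 ^ 2) := by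
        field_simp
      rw [e, div_le_div_iff₀ h3 (by positivity)]
      nlinarith [sq_nonneg (L a x)]
    have h6 : 128 / |a| * ee a 16 x = (256 / |a| * ee a 16 x) / 2 := by ring
    rw [h6]
    unfold ff hh
    linarith
  rw [intervalIntegral.integral_add (hhc.intervalIntegrable _ _) (gc.intervalIntegrable _ _),
    intervalIntegral.integral_const_mul] at hup
  have h7 : 128 / |a| * ∫ x in (0:ℝ)..1, ee a 16 x ≤ 2 / |a| := by
    calc 128 / |a| * ∫ x in (0:ℝ)..1, ee a 16 x ≤ 128 / |a| * (1 / (4 * 16)) :=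
          mul_le_mul_of_nonneg_left h3 (by positivity)
      _ = 2 / |a| := by ring
  have e1 : (∫ x in (0:ℝ)..1, hh a x) = hmean a := rfl
  have e2 : 3 / |a| = 1 / |a| + 2 / |a| := by ring
  constructor
  · linarith
  · rw [e2]
    linarith

end Pool.Agent.V1152.SMI
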