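import Pool.Agent.V1152.SMIH

set_option autoImplicit false

/-!
# The set of positive exponents of the standard map is measurable and invariant
-/

namespace Pool.Agent.V1152.SMI

open Real MeasureTheory Function Pool.Agent.TH705.SM Filter Topology

theorem Lper (a : ℝ) : Periodic (L a) 1 := by
  intro x
  have := L_period a x 1
  simpa using this

/-- the trace function on the circle -/
noncomputable def cc (a : ℝ) : UnitAddCircle → ℝ := (Lper a).lift

theorem cc_coe (a x : ℝ) : cc a (x : UnitAddCircle) = L a x := Function.Periodic.lift_coe _ x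

theorem cc_cont (a : ℝ) : Continuous (cc a) := lift_cont (Lper a) (L_cont a)

theorem cc_le (a : ℝ) (x : UnitAddCircle) : |cc a x| ≤ 2 + 2 * π * |a| := by
  induction x using QuotientAddGroup.induction_on with
  | H x =>
    rw [cc_coe]
    unfold L
    have h1 : |2 * π * a * cos (2 * π * x)| ≤ 2 * π * |a| := by
      rw [abs_mul, abs_mul, abs_of_pos (by positivity : (0:ℝ) < 2 * π)]
      have := Real.abs_cos_le_one (2 * π * x)
      have h2 : 0 ≤ 2 * π * |a| := by positivity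
      nlinarith
    refine (abs_add_le _ _).trans ?_
    rw [abs_of_pos (by norm_num : (0:ℝ) < 2)]
    linarith

/-- the derivative cocycle applied to a vector -/
noncomputable def G (a : ℝ) (v : ℝ × ℝ) : ℕ → T2 → ℝ × ℝ
  | 0, _ => v
  | n + 1, p => (cc a ((S a)^[n] p).1 * (G a v n p).1 - (G a v n p).2, (G a v n p).1)

theorem G_cont (a : ℝ) (v : ℝ × ℝ) (n : ℕ) : Continuous (G a v n) := by
  induction n with
  | zero => exact continuous_const
  | succ n ih =>
    have h1 : Continuous fun p : T2 => cc a ((S a)^[n] p).1 :=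
      (cc_cont a).comp (continuous_fst.comp ((S_cont a).iterate n))
    exact ((h1.mul (continuous_fst.comp ih)).sub (continuous_snd.comp ih)).prodMk
      (continuous_fst.comp ih)

theorem G_shift (a : ℝ) (v : ℝ × ℝ) (n : ℕ) (p : T2) :
    G a v (n + 1) p = G a (cc a p.1 * v.1 - v.2, v.1) n (S a p) := by
  induction n with
  | zero => rfl
  | succ n ih =>
    show (cc a ((S a)^[n + 1] p).1 * (G a v (n + 1) p).1 - (G a v (n + 1) p).2,
      (G a v (n + 1) p).1) = _
    rw [ih, iterate_succ_apply]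
    rfl

theorem G_lin (a s t : ℝ) (n : ℕ) (p : T2) :
    G a (s, t) n p = (s * (G a (1, 0) n p).1 + t * (G a (0, 1) n p).1,
      s * (G a (1, 0) n p).2 + t * (G a (0, 1) n p).2) := by
  induction n with
  | zero => simp [G]
  | succ n ih =>
    show (cc a ((S a)^[n] p).1 * (G a (s, t) n p).1 - (G a (s, t) n p).2, (G a (s, t) n p).1) = _
    rw [ih]
    simp only [G]
    ext
    · show _ = s * (cc a ((S a)^[n] p).1 * (G a (1, 0) n p).1 - (G a (1, 0) n p).2) +
        t * (cc a ((S a)^[n] p).1 * (G a (0, 1) n p).1 - (G a (0, 1) n p).2)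
      show cc a ((S a)^[n] p).1 * (s * (G a (1, 0) n p).1 + t * (G a (0, 1) n p).1) -
        (s * (G a (1, 0) n p).2 + t * (G a (0, 1) n p).2) = _
      ring
    · rfl

/-- the sum of the absolute values of the entries -/
noncomputable def Nn (a : ℝ) (n : ℕ) (p : T2) : ℝ :=
  |(G a (1, 0) n p).1| + |(G a (1, 0) n p).2| + |(G a (0, 1) n p).1| + |(G a (0, 1) n p).2|

theorem Nn_cont (a : ℝ) (n : ℕ) : Continuous (Nn a n) := by
  unfold Nn
  have h1 := G_cont a (1, 0) n
  have h2 := G_cont a (0, 1) n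
  exact (((continuous_fst.comp h1).abs.add (continuous_snd.comp h1).abs).add
    (continuous_fst.comp h2).abs).add (continuous_snd.comp h2).abs

theorem Nn_shift (a : ℝ) (n : ℕ) (p : T2) :
    Nn a (n + 1) p ≤ (4 + 2 * π * |a|) * Nn a n (S a p) ∧
      Nn a n (S a p) ≤ (4 + 2 * π * |a|) * Nn a (n + 1) p := by
  have hc := cc_le a p.1
  have e1 := G_shift a (1, 0) n p
  have e2 := G_shift a (0, 1) n p
  simp only [mul_one, mul_zero, sub_zero, zero_sub] at e1 e2
  set c := cc a p.1 with hcd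
  replace e1 := e1.trans (G_lin a c 1 n (S a p))
  replace e2 := e2.trans (G_lin a (-1) 0 n (S a p))
  set x1 := (G a (1, 0) n (S a p)).1 with hx1
  set x2 := (G a (1, 0) n (S a p)).2 with hx2
  set y1 := (G a (0, 1) n (S a p)).1 with hy1
  set y2 := (G a (0, 1) n (S a p)).2 with hy2
  have f1 : (G a (1, 0) (n + 1) p).1 = c * x1 + 1 * y1 := by rw [e1]
  have f2 : (G a (1, 0) (n + 1) p).2 = c * x2 + 1 * y2 := by rw [e1]
  have f3 : (G a (0, 1) (n + 1) p).1 = -1 * x1 + 0 * y1 := by rw [e2]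
  have f4 : (G a (0, 1) (n + 1) p).2 = -1 * x2 + 0 * y2 := by rw [e2]
  unfold Nn
  rw [f1, f2, f3, f4, ← hx1, ← hx2, ← hy1, ← hy2]
  have hK : 0 ≤ 2 * π * |a| := by positivity
  have g1 : |(-1) * x1 + 0 * y1| = |x1| := by rw [zero_mul, add_zero, neg_one_mul, abs_neg]
  have g2 : |(-1) * x2 + 0 * y2| = |x2| := by rw [zero_mul, add_zero, neg_one_mul, abs_neg]
  rw [g1, g2, one_mul, one_mul]
  have m1 : |c * x1| ≤ (2 + 2 * π * |a|) * |x1| := by
    rw [abs_mul]; exact mul_le_mul_of_nonneg_right hc (abs_nonneg _)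
  have m2 : |c * x2| ≤ (2 + 2 * π * |a|) * |x2| := by
    rw [abs_mul]; exact mul_le_mul_of_nonneg_right hc (abs_nonneg _)
  have n1 : |c * x1 + y1| ≤ |c * x1| + |y1| := abs_add_le _ _
  have n2 : |c * x2 + y2| ≤ |c * x2| + |y2| := abs_add_le _ _
  have n3 : |y1| ≤ |c * x1 + y1| + |c * x1| := by
    have := abs_sub (c * x1 + y1) (c * x1)
    simpa using this
  have n4 : |y2| ≤ |c * x2 + y2| + |c * x2| := by
    have := abs_sub (c * x2 + y2) (c * x2)
    simpa using this
  have p1 := mul_nonneg hK (abs_nonneg x1)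
  have p2 := mul_nonneg hK (abs_nonneg x2)
  have p3 := mul_nonneg hK (abs_nonneg y1)
  have p4 := mul_nonneg hK (abs_nonneg y2)
  have p5 := mul_nonneg hK (abs_nonneg (c * x1 + y1))
  have p6 := mul_nonneg hK (abs_nonneg (c * x2 + y2))
  have q1 := abs_nonneg x1
  have q2 := abs_nonneg x2
  have q3 := abs_nonneg y1
  have q4 := abs_nonneg y2
  have q5 := abs_nonneg (c * x1 + y1)
  have q6 := abs_nonneg (c * x2 + y2)
  constructor <;> nlinarith

/-- the set of positive exponents -/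
def PP (a : ℝ) : Set T2 := {p | ∃ r : ℚ, 0 < r ∧ ∃ᶠ n : ℕ in atTop, exp ((r : ℝ) * n) < Nn a n p}

theorem PP_meas (a : ℝ) : MeasurableSet (PP a) := by
  have e : PP a = ⋃ r : ℚ, ⋃ _ : 0 < r, ⋂ N : ℕ, ⋃ n : ℕ, ⋃ _ : N ≤ n,
      {p | exp ((r : ℝ) * n) < Nn a n p} := by
    ext x
    simp only [PP, Set.mem_ofPred_eq, Set.mem_iUnion, Set.mem_iInter, frequently_atTop,
      exists_prop]
  rw [e]
  refine MeasurableSet.iUnion fun r => MeasurableSet.iUnion fun _ => MeasurableSet.iInter fun N =>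
    MeasurableSet.iUnion fun n => MeasurableSet.iUnion fun _ => ?_
  exact measurableSet_lt measurable_const (Nn_cont a n).measurable

/-- a shift by a bounded factor does not matter -/
theorem grow_shift {u v : ℕ → ℝ} {K : ℝ} (hK : 0 < K) (h : ∀ n, u n ≤ K * v (n + 1)) {r : ℝ}
    (hr : 0 < r) (hu : ∃ᶠ n : ℕ in atTop, exp (r * n) < u n) :
    ∃ᶠ n : ℕ in atTop, exp (r / 2 * n) < v n := by
  have h1 : ∀ᶠ n : ℕ in atTop, K * exp (r / 2 * (n + 1 : ℕ)) ≤ exp (r * n) := by
    have h2 : Tendsto (fun n : ℕ => r / 2 * (n : ℝ)) atTop atTop :=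
      tendsto_natCast_atTop_atTop.const_mul_atTop (by positivity)
    filter_upwards [h2.eventually_ge_atTop (log K + r / 2)] with n hn
    rw [← Real.exp_log hK, ← Real.exp_add]
    apply Real.exp_le_exp.2
    push_cast
    linarith
  have h3 := (hu.and_eventually h1)
  have h4 : ∃ᶠ n : ℕ in atTop, exp (r / 2 * (n + 1 : ℕ)) < v (n + 1) := by
    refine h3.mono ?_
    rintro n ⟨b1, b2⟩
    have b3 := (b2.trans_lt b1).trans_le (h n)
    exact lt_of_mul_lt_mul_left b3 hK.le
  rw [frequently_atTop] at h4 ⊢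
  intro N
  obtain ⟨n, hn, hn2⟩ := h4 N
  exact ⟨n + 1, by omega, hn2⟩

theorem grow_shift' {u v : ℕ → ℝ} {K : ℝ} (hK : 0 < K) (h : ∀ n, u (n + 1) ≤ K * v n) {r : ℝ}
    (hr : 0 < r) (hu : ∃ᶠ n : ℕ in atTop, exp (r * n) < u n) :
    ∃ᶠ n : ℕ in atTop, exp (r / 2 * n) < v n := by
  have h1 : ∀ᶠ n : ℕ in atTop, K * exp (r / 2 * n) ≤ exp (r * (n + 1 : ℕ)) := by
    have h2 : Tendsto (fun n : ℕ => r / 2 * (n : ℝ)) atTop atTop :=
      tendsto_natCast_atTop_atTop.const_mul_atTop (by positivity)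
    filter_upwards [h2.eventually_ge_atTop (log K)] with n hn
    have e : K * exp (r / 2 * n) = exp (log K + r / 2 * n) := by
      rw [Real.exp_add, Real.exp_log hK]
    rw [e]
    apply Real.exp_le_exp.2
    push_cast
    nlinarith
  rw [frequently_atTop] at hu ⊢
  rw [eventually_atTop] at h1
  obtain ⟨N1, hN1⟩ := h1
  intro N
  obtain ⟨n, hn, hn2⟩ := hu (N + N1 + 1)
  obtain ⟨m, rfl⟩ : ∃ m, n = m + 1 := ⟨n - 1, by omega⟩
  refine ⟨m, by omega, ?_⟩
  have b3 := ((hN1 m (by omega)).trans_lt hn2).trans_le (h m)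
  exact lt_of_mul_lt_mul_left b3 hK.le

theorem PP_inv (a : ℝ) : S a ⁻¹' PP a = PP a := by
  have hK : 0 < 4 + 2 * π * |a| := by positivity
  ext p
  constructor
  · rintro ⟨r, hr, h⟩
    have hr' : (0:ℝ) < r := by exact_mod_cast hr
    have := grow_shift (u := fun n => Nn a n (S a p)) (v := fun n => Nn a n p) hK
      (fun n => (Nn_shift a n p).2) hr' h
    exact ⟨r / 2, by positivity, by push_cast; exact this⟩
  · rintro ⟨r, hr, h⟩
    have hr' : (0:ℝ) < r := by exact_mod_cast hr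
    have := grow_shift' (u := fun n => Nn a n p) (v := fun n => Nn a n (S a p)) hK
      (fun n => (Nn_shift a n p).1) hr' h
    exact ⟨r / 2, by positivity, by push_cast; exact this⟩

/-- the plane map in the original coordinates -/
noncomputable def pl (lam : ℝ) (p : ℝ × ℝ) : ℝ × ℝ :=
  (2 * p.1 - p.2 + lam * sin p.1, p.1)

noncomputable def pl' (lam : ℝ) (q : ℝ × ℝ) : ℝ × ℝ →L[ℝ] ℝ × ℝ :=
  ((2 + lam * cos q.1) • ContinuousLinearMap.fst ℝ ℝ ℝ - ContinuousLinearMap.snd ℝ ℝ ℝ).prod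
    (ContinuousLinearMap.fst ℝ ℝ ℝ)

theorem pl_hasFDeriv (lam : ℝ) (q : ℝ × ℝ) : HasFDerivAt (pl lam) (pl' lam q) q := by
  have h1 : HasFDerivAt (fun p : ℝ × ℝ => p.1) (ContinuousLinearMap.fst ℝ ℝ ℝ) q := hasFDerivAt_fst
  have h2 : HasFDerivAt (fun p : ℝ × ℝ => p.2) (ContinuousLinearMap.snd ℝ ℝ ℝ) q := hasFDerivAt_snd
  have h3 := ((h1.const_mul 2).sub h2).add ((h1.sin).const_mul lam)
  have h4 := h3.prodMk h1
  refine h4.congr_fderiv ?_
  apply ContinuousLinearMap.ext
  intro v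
  unfold pl'
  simp
  ring

theorem pl_iter_fderiv (lam : ℝ) (p : ℝ × ℝ) (n : ℕ) :
    fderiv ℝ (pl lam)^[n + 1] p = (pl' lam ((pl lam)^[n] p)).comp (fderiv ℝ (pl lam)^[n] p) := by
  have hd : ∀ n, DifferentiableAt ℝ (pl lam)^[n] p := by
    intro n
    induction n with
    | zero => exact differentiableAt_id
    | succ n ih =>
      rw [iterate_succ']
      exact (pl_hasFDeriv lam _).differentiableAt.comp p ih
  rw [iterate_succ', fderiv_comp p (pl_hasFDeriv lam _).differentiableAt (hd n),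
    (pl_hasFDeriv lam _).fderiv]

/-- the orbit in the two systems of coordinates -/
theorem pl_orbit (lam : ℝ) (x y : ℝ) (n : ℕ) :
    (pl lam)^[n] (x, y) = (2 * π * X (lam / (2 * π)) (y / (2 * π)) (n + 1) (x / (2 * π)),
      2 * π * X (lam / (2 * π)) (y / (2 * π)) n (x / (2 * π))) := by
  have hpi := Real.pi_pos
  have hsem : ∀ q : ℝ × ℝ, pl lam (2 * π * q.1, 2 * π * q.2) =
      (2 * π * (pm (lam / (2 * π)) q).1, 2 * π * (pm (lam / (2 * π)) q).2) := by
    intro q
    unfold pl pm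
    ext
    · show 2 * (2 * π * q.1) - 2 * π * q.2 + lam * sin (2 * π * q.1) =
        2 * π * (2 * q.1 - q.2 + lam / (2 * π) * sin (2 * π * q.1))
      field_simp
    · rfl
  have key : ∀ n, (pl lam)^[n] (x, y) =
      (2 * π * ((pm (lam / (2 * π)))^[n] (x / (2 * π), y / (2 * π))).1,
        2 * π * ((pm (lam / (2 * π)))^[n] (x / (2 * π), y / (2 * π))).2) := by
    intro n
    induction n with
    | zero =>
      show (x, y) = (2 * π * (x / (2 * π)), 2 * π * (y / (2 * π)))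
      rw [mul_div_cancel₀ x (by positivity), mul_div_cancel₀ y (by positivity)]
    | succ n ih =>
      rw [iterate_succ_apply', ih, hsem, iterate_succ_apply']
  rw [key]
  have : (pm (lam / (2 * π)))^[n] (x / (2 * π), y / (2 * π)) =
      (X (lam / (2 * π)) (y / (2 * π)) (n + 1) (x / (2 * π)),
        X (lam / (2 * π)) (y / (2 * π)) n (x / (2 * π))) := iter_plane _ _ _ n
  rw [this]

theorem pl_G (lam : ℝ) (x y : ℝ) (v : ℝ × ℝ) (n : ℕ) :
    fderiv ℝ (pl lam)^[n] (x, y) v =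
      G (lam / (2 * π)) v n (((x / (2 * π) : ℝ) : UnitAddCircle), ((y / (2 * π) : ℝ) : UnitAddCircle)) := by
  have hpi := Real.pi_pos
  induction n with
  | zero =>
    have : fderiv ℝ (pl lam)^[0] (x, y) = ContinuousLinearMap.id ℝ (ℝ × ℝ) := fderiv_id
    rw [this]
    rfl
  | succ n ih =>
    rw [pl_iter_fderiv, ContinuousLinearMap.comp_apply, ih, pl_orbit]
    show _ = (cc _ ((S _)^[n] _).1 * (G _ v n _).1 - (G _ v n _).2, (G _ v n _).1)
    rw [iter_coe, cc_coe]
    unfold pl' L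
    simp only [ContinuousLinearMap.prod_apply, ContinuousLinearMap.sub_apply,
      ContinuousLinearMap.smul_apply, ContinuousLinearMap.coe_fst', ContinuousLinearMap.coe_snd',
      smul_eq_mul]
    have e : 2 * π * (lam / (2 * π)) = lam := by field_simp
    rw [e]

theorem pl_norm (lam : ℝ) (x y : ℝ) (n : ℕ) :
    ‖fderiv ℝ (pl lam)^[n] (x, y)‖ ≤
        Nn (lam / (2 * π)) n (((x / (2 * π) : ℝ) : UnitAddCircle), ((y / (2 * π) : ℝ) : UnitAddCircle)) ∧
      Nn (lam / (2 * π)) n (((x / (2 * π) : ℝ) : UnitAddCircle), ((y / (2 * π) : ℝ) : UnitAddCircle)) ≤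
        4 * ‖fderiv ℝ (pl lam)^[n] (x, y)‖ := by
  set p : T2 := (((x / (2 * π) : ℝ) : UnitAddCircle), ((y / (2 * π) : ℝ) : UnitAddCircle)) with hp
  set A := fderiv ℝ (pl lam)^[n] (x, y) with hA
  set a := lam / (2 * π) with ha
  have e1 : A (1, 0) = G a (1, 0) n p := pl_G lam x y (1, 0) n
  have e2 : A (0, 1) = G a (0, 1) n p := pl_G lam x y (0, 1) n
  constructor
  · apply ContinuousLinearMap.opNorm_le_bound
    · unfold Nn; positivity
    · rintro ⟨s, t⟩
      have e3 : A (s, t) = G a (s, t) n p := pl_G lam x y (s, t) n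
      rw [e3, G_lin]
      have hs : |s| ≤ ‖((s, t) : ℝ × ℝ)‖ := norm_fst_le (s, t)
      have ht : |t| ≤ ‖((s, t) : ℝ × ℝ)‖ := norm_snd_le (s, t)
      set ρ := ‖((s, t) : ℝ × ℝ)‖ with hρ
      have b : ∀ u w : ℝ, |s * u + t * w| ≤ ρ * |u| + ρ * |w| := by
        intro u w
        refine (abs_add_le _ _).trans ?_
        rw [abs_mul, abs_mul]
        exact add_le_add (mul_le_mul_of_nonneg_right hs (abs_nonneg _))
          (mul_le_mul_of_nonneg_right ht (abs_nonneg _))
      have hρ0 : 0 ≤ ρ := norm_nonneg _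
      rw [Prod.norm_def]
      unfold Nn
      have q1 := mul_nonneg hρ0 (abs_nonneg (G a (1, 0) n p).1)
      have q2 := mul_nonneg hρ0 (abs_nonneg (G a (1, 0) n p).2)
      have q3 := mul_nonneg hρ0 (abs_nonneg (G a (0, 1) n p).1)
      have q4 := mul_nonneg hρ0 (abs_nonneg (G a (0, 1) n p).2)
      apply max_le
      · rw [Real.norm_eq_abs]
        refine (b _ _).trans ?_
        nlinarith
      · rw [Real.norm_eq_abs]
        refine (b _ _).trans ?_
        nlinarith
  · have n1 : ‖((1, 0) : ℝ × ℝ)‖ = 1 := by simp [Prod.norm_def]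
    have n2 : ‖((0, 1) : ℝ × ℝ)‖ = 1 := by simp [Prod.norm_def]
    have a1 := A.le_opNorm (1, 0)
    have a2 := A.le_opNorm (0, 1)
    rw [n1, mul_one, e1] at a1
    rw [n2, mul_one, e2] at a2
    have b1 : |(G a (1, 0) n p).1| ≤ ‖A‖ := (norm_fst_le _).trans a1
    have b2 : |(G a (1, 0) n p).2| ≤ ‖A‖ := (norm_snd_le _).trans a1
    have b3 : |(G a (0, 1) n p).1| ≤ ‖A‖ := (norm_fst_le _).trans a2
    have b4 : |(G a (0, 1) n p).2| ≤ ‖A‖ := (norm_snd_le _).trans a2
    unfold Nn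
    linarith

/-- the set of positive exponents in terms of the derivative -/
theorem mem_PP (lam : ℝ) (x y : ℝ) :
    (((x / (2 * π) : ℝ) : UnitAddCircle), ((y / (2 * π) : ℝ) : UnitAddCircle)) ∈ PP (lam / (2 * π)) ↔
      ∃ r : ℝ, 0 < r ∧ ∃ᶠ n : ℕ in atTop, exp (r * n) ≤ ‖fderiv ℝ (pl lam)^[n] (x, y)‖ := by
  constructor
  · rintro ⟨r, hr, h⟩
    have hr' : (0:ℝ) < r := by exact_mod_cast hr
    refine ⟨r / 2, by positivity, ?_⟩
    have h1 : ∀ᶠ n : ℕ in atTop, 4 * exp ((r:ℝ) / 2 * n) ≤ exp ((r:ℝ) * n) := by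
      have h2 : Tendsto (fun n : ℕ => (r:ℝ) / 2 * (n : ℝ)) atTop atTop :=
        tendsto_natCast_atTop_atTop.const_mul_atTop (by positivity)
      filter_upwards [h2.eventually_ge_atTop (log 4)] with n hn
      have e : 4 * exp ((r:ℝ) / 2 * n) = exp (log 4 + (r:ℝ) / 2 * n) := by
        rw [Real.exp_add, Real.exp_log (by norm_num)]
      rw [e]
      apply Real.exp_le_exp.2
      linarith
    refine (h.and_eventually h1).mono ?_
    rintro n ⟨b1, b2⟩
    have b3 := (pl_norm lam x y n).2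
    linarith
  · rintro ⟨r, hr, h⟩
    obtain ⟨q, hq1, hq2⟩ := exists_rat_btwn hr
    refine ⟨q, by exact_mod_cast hq1, ?_⟩
    refine (h.and_eventually (eventually_ge_atTop 1)).mono ?_
    rintro n ⟨b1, b2⟩
    have hn : (0:ℝ) < n := by exact_mod_cast b2
    have b3 : exp ((q:ℝ) * n) < exp (r * n) :=
      Real.exp_lt_exp.2 (mul_lt_mul_of_pos_right hq2 hn)
    exact b3.trans_le (b1.trans (pl_norm lam x y n).1)

end Pool.Agent.V1152.SMI
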