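import Pool.Agent.V1152.SMIF

set_option autoImplicit false

/-!
# Sets invariant under a power of the standard map
-/

namespace Pool.Agent.V1152.SMI

open Real MeasureTheory Function Pool.Agent.TH705.SM Filter Topology
open scoped ENNReal

/-- a set invariant under `S^q` and a box -/
theorem box_q {a : ℝ} (ha : 1 ≤ |a|) {q : ℕ} (hq : 1 ≤ q) {A : Set T2} (hA : MeasurableSet A)
    (hinv : (S a)^[q] ⁻¹' A = A) {E J : Set UnitAddCircle} (hE : MeasurableSet E)
    (hJ : MeasurableSet J) (happ : Smoothable J 2) :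
    |volume.real (A ∩ (E ×ˢ J)) - volume.real A * (volume.real E * volume.real J)| ≤
      √(20 + 5 * CC) * √(volume.real A) * (q / |a|) ^ (1 / 6 : ℝ) := by
  have hCC := CC_pos
  have ha0 : 0 < |a| := by linarith
  have hq0 : (0:ℝ) < q := by exact_mod_cast hq
  have hv0 : 0 ≤ volume.real A := measureReal_nonneg
  have hv1 : volume.real A ≤ 1 := measureReal_le_one
  set R : Set T2 := E ×ˢ J with hR
  have hRm : MeasurableSet R := hE.prod hJ
  set ρ := volume.real E * volume.real J with hρ
  have hvolR : volume.real R = ρ := by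
    have : (volume : Measure T2) (E ×ˢ J) = volume E * volume J := by
      rw [vol_T2, Measure.prod_prod]
    rw [hR, measureReal_def, this, ENNReal.toReal_mul]
    rfl
  have hρ0 : 0 ≤ ρ := by rw [← hvolR]; exact measureReal_nonneg
  have hρ1 : ρ ≤ 1 := by rw [← hvolR]; exact measureReal_le_one
  set i : T2 → ℝ := R.indicator (fun _ => (1:ℝ)) with hi
  have im : Measurable i := measurable_const.indicator hRm
  have i01 : ∀ x, 0 ≤ i x ∧ i x ≤ 1 := by
    intro x
    by_cases h : x ∈ R
    · rw [hi, Set.indicator_of_mem h]; norm_num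
    · rw [hi, Set.indicator_of_notMem h]; norm_num
  have ib : ∀ x, |i x| ≤ 1 := fun x => abs_le.2 ⟨by linarith [(i01 x).1], (i01 x).2⟩
  have ii : Integrable i := hint im 1 ib
  have iR : ∫ x, i x = ρ := by
    rw [hi, integral_indicator hRm, setIntegral_const, smul_eq_mul, mul_one, hvolR]
  set f : T2 → ℝ := fun x => i x - ρ with hf
  have fm : Measurable f := im.sub measurable_const
  have f2 : ∀ x, |f x| ≤ 2 := by
    intro x
    show |i x - ρ| ≤ 2
    obtain ⟨h1, h2⟩ := i01 x
    rw [abs_le]
    constructor <;> linarith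
  have hfA : ∫ x in A, f x = volume.real (A ∩ R) - volume.real A * ρ := by
    rw [hf, integral_sub ii.integrableOn (integrable_const ρ).integrableOn, hi,
      setIntegral_indicator hRm, setIntegral_const, setIntegral_const, smul_eq_mul, smul_eq_mul,
      mul_one]
  rw [← hfA]
  -- the exponent
  set z : ℝ := q / |a| with hz
  have hz0 : 0 < z := by positivity
  have hz6 : 0 < z ^ (1 / 6 : ℝ) := Real.rpow_pos_of_pos hz0 _
  have hC0 : 0 ≤ 20 + 5 * CC := by linarith
  apply abs_le_of_sq_le_sq _ (by positivity)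
  have hsq : (√(20 + 5 * CC) * √(volume.real A) * z ^ (1 / 6 : ℝ)) ^ 2 =
      volume.real A * ((20 + 5 * CC) * z ^ (1 / 3 : ℝ)) := by
    rw [mul_pow, mul_pow, Real.sq_sqrt hC0, Real.sq_sqrt hv0, ← Real.rpow_natCast,
      ← Real.rpow_mul hz0.le]
    norm_num
    ring
  rw [hsq]
  rcases le_or_gt 1 z with hz1 | hz1
  · -- the trivial case
    have h1 : |∫ x in A, f x| ≤ 2 * volume.real A := by
      have := norm_setIntegral_le_of_norm_le_const (μ := (volume : Measure T2)) (s := A) (f := f)
        (C := 2) (measure_lt_top _ _) (fun x _ => by rw [Real.norm_eq_abs]; exact f2 x)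
      rwa [Real.norm_eq_abs] at this
    have h2 : (∫ x in A, f x) ^ 2 ≤ (2 * volume.real A) ^ 2 := by
      rw [← sq_abs]
      exact pow_le_pow_left₀ (abs_nonneg _) h1 2
    have h3 : (1:ℝ) ≤ z ^ (1 / 3 : ℝ) := Real.one_le_rpow hz1 (by norm_num)
    refine h2.trans ?_
    have h4 : (20 + 5 * CC) * 1 ≤ (20 + 5 * CC) * z ^ (1 / 3 : ℝ) :=
      mul_le_mul_of_nonneg_left h3 hC0
    have h5 : volume.real A * ((20 + 5 * CC) * 1) ≤ volume.real A * ((20 + 5 * CC) * z ^ (1 / 3 : ℝ)) :=
      mul_le_mul_of_nonneg_left h4 hv0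
    refine le_trans ?_ h5
    nlinarith
  · obtain ⟨r, hr⟩ : ∃ r : ℝ, r = (1 / z) ^ (1 / 3 : ℝ) := ⟨_, rfl⟩
    have hz1' : 1 ≤ 1 / z := by rw [le_div_iff₀ hz0]; linarith
    have hr1 : 1 ≤ r := by rw [hr]; exact Real.one_le_rpow hz1' (by norm_num)
    have hr0 : 0 < r := by linarith
    have hr3 : r ^ 3 = 1 / z := by
      rw [hr, ← Real.rpow_natCast, ← Real.rpow_mul (by positivity)]
      norm_num
    have hrinv : z ^ (1 / 3 : ℝ) = 1 / r := by
      rw [hr, one_div z, Real.inv_rpow hz0.le]
      simp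
    rw [hrinv]
    set n := ⌈r⌉₊ with hn
    have hnr : r ≤ n := Nat.le_ceil r
    have hnr2 : (n : ℝ) ≤ 2 * r := by
      have := (Nat.ceil_lt_add_one hr0.le).le
      rw [← hn] at this
      linarith
    have hn1 : 1 ≤ n := by
      have h1 : (1 : ℝ) ≤ n := hr1.trans hnr
      exact_mod_cast h1
    set B := CC * (1 + 2) * √(2 * r * z) with hB
    have hB0 : 0 ≤ B := by rw [hB]; positivity
    have hcor : ∀ k, 3 ≤ k → k < n → |∫ x, f (((S a)^[q])^[k] x) * f x| ≤ B := by
      intro k hk hkn
      rw [← iterate_mul]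
      have hqk : 3 ≤ q * k := by nlinarith
      have h1 := mix_box ha hqk hE hJ hE hJ happ happ
      rw [← hR, ← hρ] at h1
      have mS := (iter_mp a (q * k)).measurable
      have j1 : Integrable (fun x => i ((S a)^[q * k] x)) :=
        hint (im.comp mS) 1 fun x => ib _
      have j2 : Integrable (fun x => i ((S a)^[q * k] x) * i x) := by
        refine hint ((im.comp mS).mul im) 1 fun x => ?_
        show |i ((S a)^[q * k] x) * i x| ≤ 1
        rw [abs_mul]
        nlinarith [ib ((S a)^[q * k] x), ib x, abs_nonneg (i ((S a)^[q * k] x)), abs_nonneg (i x)]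
      have e0 : ∫ x, i ((S a)^[q * k] x) = ρ := by
        rw [← iR]
        have h4 := (iter_mp a (q * k)).map_eq
        calc ∫ x : T2, i ((S a)^[q * k] x) = ∫ x, i x ∂(Measure.map ((S a)^[q * k]) volume) := by
              rw [integral_map mS.aemeasurable im.aestronglyMeasurable]
          _ = _ := by rw [h4]
      have e1 : ∫ x, i ((S a)^[q * k] x) * i x =
          volume.real ((S a)^[q * k] ⁻¹' R ∩ R) := by
        have e : (fun x => i ((S a)^[q * k] x) * i x) =
            ((S a)^[q * k] ⁻¹' R ∩ R).indicator (fun _ => (1:ℝ)) := by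
          funext x
          rw [hi]
          by_cases h1 : (S a)^[q * k] x ∈ R <;> by_cases h2 : x ∈ R <;>
            simp [Set.indicator, Set.mem_preimage, h1, h2]
        rw [e, integral_indicator ((mS hRm).inter hRm), setIntegral_const, smul_eq_mul, mul_one]
      have e2 : ∫ x, f ((S a)^[q * k] x) * f x =
          volume.real ((S a)^[q * k] ⁻¹' R ∩ R) - ρ * ρ := by
        have e3 : ∀ x, f ((S a)^[q * k] x) * f x =
            i ((S a)^[q * k] x) * i x - ρ * i ((S a)^[q * k] x) - ρ * i x + ρ * ρ := by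
          intro x
          show (i ((S a)^[q * k] x) - ρ) * (i x - ρ) = _
          ring
        simp_rw [e3]
        have k1 : Integrable (fun x => ρ * i ((S a)^[q * k] x)) := j1.const_mul ρ
        have k2 : Integrable (fun x => ρ * i x) := ii.const_mul ρ
        have k3 : Integrable (fun x => i ((S a)^[q * k] x) * i x - ρ * i ((S a)^[q * k] x)) :=
          j2.sub k1
        have k4 : Integrable (fun x => i ((S a)^[q * k] x) * i x - ρ * i ((S a)^[q * k] x) -
          ρ * i x) := k3.sub k2
        rw [integral_add k4 (integrable_const _), integral_sub k3 k2, integral_sub j2 k1,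
          integral_const_mul, integral_const_mul, e0, iR, e1, integral_const]
        simp
      rw [e2]
      refine h1.trans ?_
      rw [hB]
      apply mul_le_mul_of_nonneg_left _ (by positivity)
      apply Real.sqrt_le_sqrt
      have hk2 : (k : ℝ) ≤ 2 * r := (by exact_mod_cast hkn.le : (k : ℝ) ≤ n).trans hnr2
      push_cast
      rw [hz]
      calc (q : ℝ) * k / |a| = k * (q / |a|) := by ring
        _ ≤ 2 * r * (q / |a|) := mul_le_mul_of_nonneg_right hk2 (by positivity)
    have h2 := invariant_set ((S_mp a).iterate q) hA hinv fm f2 hn1 hB0 hcor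
    refine h2.trans (mul_le_mul_of_nonneg_left ?_ hv0)
    have h3 : 20 / (n : ℝ) ≤ 20 / r := div_le_div_of_nonneg_left (by norm_num) hr0 hnr
    have h4 : √(2 * r * z) ≤ (5 / 3) / r := by
      apply Real.sqrt_le_iff.2
      refine ⟨by positivity, ?_⟩
      have e : z = 1 / r ^ 3 := by rw [hr3]; field_simp
      rw [e, div_pow]
      have e5 : 2 * r * (1 / r ^ 3) = 2 / r ^ 2 := by field_simp
      rw [e5]
      apply div_le_div_of_nonneg_right _ (by positivity)
      norm_num
    calc 20 / (n : ℝ) + B ≤ 20 / r + CC * (1 + 2) * ((5 / 3) / r) := by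
          rw [hB]
          exact add_le_add h3 (mul_le_mul_of_nonneg_left h4 (by positivity))
      _ = (20 + 5 * CC) * (1 / r) := by ring

/-- the smaller of the two measures -/
theorem box_q_min {a : ℝ} (ha : 1 ≤ |a|) {q : ℕ} (hq : 1 ≤ q) {A : Set T2} (hA : MeasurableSet A)
    (hinv : (S a)^[q] ⁻¹' A = A) {E J : Set UnitAddCircle} (hE : MeasurableSet E)
    (hJ : MeasurableSet J) (happ : Smoothable J 2) :
    |volume.real (A ∩ (E ×ˢ J)) - volume.real A * (volume.real E * volume.real J)| ≤
      √(20 + 5 * CC) * √(min (volume.real A) (1 - volume.real A)) * (q / |a|) ^ (1 / 6 : ℝ) := by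
  have h1 := box_q ha hq hA hinv hE hJ happ
  have hinvc : (S a)^[q] ⁻¹' Aᶜ = Aᶜ := by rw [Set.preimage_compl, hinv]
  have h2 := box_q ha hq hA.compl hinvc hE hJ happ
  have hc : volume.real Aᶜ = 1 - volume.real A := by
    rw [measureReal_compl hA]
    simp
  have hR : volume.real (E ×ˢ J) = volume.real E * volume.real J := by
    have : (volume : Measure T2) (E ×ˢ J) = volume E * volume J := by
      rw [vol_T2, Measure.prod_prod]
    rw [measureReal_def, this, ENNReal.toReal_mul]
    rfl
  have hc2 : volume.real (Aᶜ ∩ (E ×ˢ J)) =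
      volume.real E * volume.real J - volume.real (A ∩ (E ×ˢ J)) := by
    rw [← hR]
    have h3 := measureReal_inter_add_sdiff (μ := (volume : Measure T2)) (s := E ×ˢ J) hA
    have e1 : (E ×ˢ J) ∩ A = A ∩ (E ×ˢ J) := Set.inter_comm _ _
    have e2 : (E ×ˢ J) \ A = Aᶜ ∩ (E ×ˢ J) := by
      rw [Set.sdiff_eq, Set.inter_comm]
    rw [e1, e2] at h3
    linarith
  rw [hc2, hc] at h2
  have e3 : volume.real E * volume.real J - volume.real (A ∩ E ×ˢ J) -
      (1 - volume.real A) * (volume.real E * volume.real J) =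
      -(volume.real (A ∩ (E ×ˢ J)) - volume.real A * (volume.real E * volume.real J)) := by ring
  rw [e3, abs_neg] at h2
  rcases le_total (volume.real A) (1 - volume.real A) with h | h
  · rw [min_eq_left h]
    exact h1
  · rw [min_eq_right h]
    exact h2

theorem swap_iter (a : ℝ) (n : ℕ) (x : T2) : (S a)^[n] (((S a)^[n] x).swap) = x.swap := by
  have e : ∀ y : T2, S a (S a y).swap = y.swap := by
    intro y
    unfold S
    simp
    rfl
  induction n with
  | zero => rfl
  | succ n ih =>
    rw [iterate_succ_apply' (S a) n x, iterate_succ_apply, e, ih]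

theorem swap_inv_q {a : ℝ} {q : ℕ} {A : Set T2} (hinv : (S a)^[q] ⁻¹' A = A) :
    (S a)^[q] ⁻¹' (Prod.swap ⁻¹' A) = Prod.swap ⁻¹' A := by
  have hiff : ∀ y, (S a)^[q] y ∈ A ↔ y ∈ A := fun y => by rw [← Set.mem_preimage, hinv]
  ext x
  rw [Set.mem_preimage, Set.mem_preimage, Set.mem_preimage, ← hiff ((S a)^[q] x).swap, swap_iter]

theorem box_q_swap {a : ℝ} (ha : 1 ≤ |a|) {q : ℕ} (hq : 1 ≤ q) {A : Set T2} (hA : MeasurableSet A)
    (hinv : (S a)^[q] ⁻¹' A = A) {E J : Set UnitAddCircle} (hE : MeasurableSet E)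
    (hJ : MeasurableSet J) (happ : Smoothable J 2) :
    |volume.real (A ∩ (J ×ˢ E)) - volume.real A * (volume.real J * volume.real E)| ≤
      √(20 + 5 * CC) * √(min (volume.real A) (1 - volume.real A)) * (q / |a|) ^ (1 / 6 : ℝ) := by
  have hB := measurable_swap hA
  have h := box_q_min ha hq hB (swap_inv_q hinv) hE hJ happ
  have e1 : (Prod.swap ⁻¹' A) ∩ (E ×ˢ J) = Prod.swap ⁻¹' (A ∩ (J ×ˢ E)) := by
    ext ⟨x, y⟩
    simp only [Set.mem_inter_iff, Set.mem_preimage, Prod.swap_prod_mk, Set.mem_prod]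
    tauto
  rw [e1, vol_swap _ (hA.inter (hJ.prod hE)), vol_swap _ hA, mul_comm (volume.real E)] at h
  exact h

end Pool.Agent.V1152.SMI
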