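import Pool.Agent.Y332.SM.Fin
import Pool.Agent.TH705.SM.Torus

set_option autoImplicit false

/-!
# Coexistence of an invariant set and its complement at tiny scales
-/

namespace Pool.Agent.V1152.SMI

open Real MeasureTheory Function Pool.Agent.TH705.SM Filter Topology
open scoped ENNReal

/-- the largest open set in which `A` is null -/
def NN (A : Set T2) : Set T2 := {x | ∃ V : Set T2, IsOpen V ∧ x ∈ V ∧ volume (V ∩ A) = 0}

theorem NN_open (A : Set T2) : IsOpen (NN A) := by
  rw [isOpen_iff_forall_mem_open]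
  rintro x ⟨V, hV, hx, h0⟩
  exact ⟨V, fun y hy => ⟨V, hV, hy, h0⟩, hV, hx⟩

theorem NN_null (A : Set T2) : volume (NN A ∩ A) = 0 := by
  apply measure_null_of_locally_null
  rintro x ⟨⟨V, hV, hx, h0⟩, -⟩
  refine ⟨V ∩ A, ?_, h0⟩
  rw [mem_nhdsWithin]
  exact ⟨V, hV, hx, fun y hy => ⟨hy.1, hy.2.2⟩⟩

theorem NN_inv {a : ℝ} {A : Set T2} (hA : MeasurableSet A) (hinv : S a ⁻¹' A = A) :
    S a ⁻¹' NN A = NN A := by
  have hSSi : ∀ p, S a (Si a p) = p := by
    intro p
    unfold S Si
    simp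
  ext x
  constructor
  · rintro ⟨V, hV, hx, h0⟩
    refine ⟨S a ⁻¹' V, hV.preimage (S_cont a), hx, ?_⟩
    have e : S a ⁻¹' V ∩ A = S a ⁻¹' (V ∩ A) := by
      rw [Set.preimage_inter, hinv]
    rw [e, (S_mp a).measure_preimage (hV.measurableSet.inter hA).nullMeasurableSet]
    exact h0
  · rintro ⟨V, hV, hx, h0⟩
    have hW : IsOpen (Si a ⁻¹' V) := hV.preimage (Si_cont a)
    refine ⟨Si a ⁻¹' V, hW, ?_, ?_⟩
    · show Si a (S a x) ∈ V
      rw [Si_S]
      exact hx
    · have e : S a ⁻¹' (Si a ⁻¹' V ∩ A) = V ∩ A := by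
        ext y
        rw [Set.mem_preimage, Set.mem_inter_iff, Set.mem_preimage, Si_S, Set.mem_inter_iff]
        have : S a y ∈ A ↔ y ∈ A := by rw [← Set.mem_preimage, hinv]
        rw [this]
      rw [← (S_mp a).measure_preimage (hW.measurableSet.inter hA).nullMeasurableSet, e]
      exact h0

/-- both sets have positive measure in the ball -/
def Both (A : Set T2) (r : ℝ) (p : T2) : Prop :=
  0 < volume (A ∩ Metric.ball p r) ∧ 0 < volume (Aᶜ ∩ Metric.ball p r)

theorem open_pos {U : Set T2} (hU : IsOpen U) (hne : U.Nonempty) : 0 < volume U := by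
  have h : (volume : Measure T2) = (volume : Measure UnitAddCircle).prod volume := vol_T2
  rw [h]
  exact hU.measure_pos _ hne

/-- near the frontier of `NN A` both have positive measure -/
theorem both_frontier {A : Set T2} {δ : ℝ} (hδ : 0 < δ) {p : T2}
    (hp : p ∈ Metric.cthickening δ (frontier (NN A))) : Both A (2 * δ) p := by
  have hc : IsCompact (frontier (NN A)) := isClosed_frontier.isCompact
  rw [hc.cthickening_eq_biUnion_closedBall hδ.le] at hp
  simp only [Set.mem_iUnion, exists_prop] at hp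
  obtain ⟨z, hz, hpz⟩ := hp
  have hzb : z ∈ Metric.ball p (2 * δ) := by
    rw [Metric.mem_ball, dist_comm]
    have : dist p z ≤ δ := hpz
    linarith
  have hB : IsOpen (Metric.ball p (2 * δ)) := Metric.isOpen_ball
  constructor
  · have hzn : z ∉ NN A := by
      rw [(NN_open A).frontier_eq] at hz
      exact hz.2
    rw [pos_iff_ne_zero]
    intro h0
    apply hzn
    refine ⟨_, hB, hzb, ?_⟩
    rwa [Set.inter_comm] at h0
  · have hzc : z ∈ closure (NN A) := frontier_subset_closure hz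
    have hne : (Metric.ball p (2 * δ) ∩ NN A).Nonempty :=
      mem_closure_iff.1 hzc _ hB hzb
    have h1 := open_pos (hB.inter (NN_open A)) hne
    have h2 : volume (Metric.ball p (2 * δ) ∩ NN A) ≤
        volume (Aᶜ ∩ Metric.ball p (2 * δ)) + volume (NN A ∩ A) := by
      refine le_trans (measure_mono ?_) (measure_union_le _ _)
      intro y hy
      by_cases h : y ∈ A
      · exact Or.inr ⟨hy.2, h⟩
      · exact Or.inl ⟨h, hy.1⟩
    rw [NN_null, add_zero] at h2
    exact h1.trans_le h2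

theorem both_compl {A : Set T2} {r : ℝ} {p : T2} (h : Both Aᶜ r p) : Both A r p := by
  obtain ⟨h1, h2⟩ := h
  rw [compl_compl] at h2
  exact ⟨h2, h1⟩

/-- outside `NN A ∪ NN Aᶜ` both have positive measure in all balls -/
theorem both_rest {A : Set T2} {r : ℝ} (hr : 0 < r) {p : T2} (h1 : p ∉ NN A) (h2 : p ∉ NN Aᶜ) :
    Both A r p := by
  constructor
  · rw [pos_iff_ne_zero]
    intro h0
    exact h1 ⟨_, Metric.isOpen_ball, Metric.mem_ball_self hr, by rwa [Set.inter_comm] at h0⟩
  · rw [pos_iff_ne_zero]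
    intro h0
    exact h2 ⟨_, Metric.isOpen_ball, Metric.mem_ball_self hr, by rwa [Set.inter_comm] at h0⟩

theorem NN_le {A : Set T2} : volume A ≤ volume (NN A)ᶜ := by
  calc volume A ≤ volume ((NN A)ᶜ ∪ (NN A ∩ A)) := by
        apply measure_mono
        intro y hy
        by_cases h : y ∈ NN A
        · exact Or.inr ⟨h, hy⟩
        · exact Or.inl h
    _ ≤ volume (NN A)ᶜ + volume (NN A ∩ A) := measure_union_le _ _
    _ = volume (NN A)ᶜ := by rw [NN_null, add_zero]

/-- **coexistence at tiny scales**, in terms of a bound for the thickened frontiers -/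
theorem coexist {a : ℝ} {A : Set T2} (hA : MeasurableSet A) (hinv : S a ⁻¹' A = A) {η e δ : ℝ}
    (hδ : 0 < δ) (h1 : ENNReal.ofReal η ≤ volume A) (h2 : ENNReal.ofReal η ≤ volume Aᶜ)
    (H : ∀ B : Set T2, S a ⁻¹' B = B → ENNReal.ofReal (η / 2) ≤ volume B →
      ENNReal.ofReal (η / 2) ≤ volume Bᶜ →
        ENNReal.ofReal (η / 2) ≤ ENNReal.ofReal e + volume (Metric.cthickening δ (frontier B))) :
    ∃ K : Set T2, IsClosed K ∧ ENNReal.ofReal (η / 2) ≤ ENNReal.ofReal e + volume K ∧
      ∀ p ∈ K, Both A (2 * δ) p := by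
  rcases le_or_gt η 0 with hη | hη
  · refine ⟨∅, isClosed_empty, ?_, fun p hp => absurd hp (Set.notMem_empty p)⟩
    rw [ENNReal.ofReal_of_nonpos (by linarith)]
    exact zero_le
  have hhalf : ENNReal.ofReal (η / 2) ≤ ENNReal.ofReal η := ENNReal.ofReal_le_ofReal (by linarith)
  by_cases c1 : ENNReal.ofReal (η / 2) ≤ volume (NN A)
  · exact ⟨_, Metric.isClosed_cthickening, H (NN A) (NN_inv hA hinv) c1
      ((hhalf.trans h1).trans NN_le), fun p hp => both_frontier hδ hp⟩
  by_cases c2 : ENNReal.ofReal (η / 2) ≤ volume (NN Aᶜ)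
  · have hinvc : S a ⁻¹' Aᶜ = Aᶜ := by rw [Set.preimage_compl, hinv]
    exact ⟨_, Metric.isClosed_cthickening, H (NN Aᶜ) (NN_inv hA.compl hinvc) c2
      ((hhalf.trans h2).trans NN_le), fun p hp => both_compl (both_frontier hδ hp)⟩
  rw [not_le] at c1 c2
  have hU : IsOpen (NN A ∪ NN Aᶜ) := (NN_open A).union (NN_open _)
  refine ⟨(NN A ∪ NN Aᶜ)ᶜ, hU.isClosed_compl, ?_, fun p hp => ?_⟩
  · have h3 : volume (NN A ∪ NN Aᶜ) ≤ ENNReal.ofReal η := by
      calc volume (NN A ∪ NN Aᶜ) ≤ volume (NN A) + volume (NN Aᶜ) := measure_union_le _ _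
        _ ≤ ENNReal.ofReal (η / 2) + ENNReal.ofReal (η / 2) := add_le_add c1.le c2.le
        _ = ENNReal.ofReal η := by
            rw [← ENNReal.ofReal_add (by linarith) (by linarith)]
            congr 1
            ring
    have h4 : volume A + volume Aᶜ = 1 := by
      rw [measure_add_measure_compl hA, measure_univ]
    have h5 : ENNReal.ofReal η + ENNReal.ofReal η ≤ 1 := by
      rw [← h4]
      exact add_le_add h1 h2
    have h6 : volume (NN A ∪ NN Aᶜ) + volume (NN A ∪ NN Aᶜ)ᶜ = 1 := by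
      rw [measure_add_measure_compl hU.measurableSet, measure_univ]
    have h7 : ENNReal.ofReal η ≤ volume (NN A ∪ NN Aᶜ)ᶜ := by
      by_contra hcon
      rw [not_le] at hcon
      have h8 : (1 : ℝ≥0∞) < 1 := by
        calc (1 : ℝ≥0∞) = volume (NN A ∪ NN Aᶜ) + volume (NN A ∪ NN Aᶜ)ᶜ := h6.symm
          _ < ENNReal.ofReal η + ENNReal.ofReal η :=
              ENNReal.add_lt_add_of_le_of_lt (measure_ne_top _ _) h3 hcon
          _ ≤ 1 := h5
      exact lt_irrefl _ h8
    exact (hhalf.trans h7).trans le_add_self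
  · rw [Set.mem_compl_iff, Set.mem_union, not_or] at hp
    exact both_rest (by positivity) hp.1 hp.2

end Pool.Agent.V1152.SMI
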