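import Pool.Agent.V1152.SMIL

set_option autoImplicit false

/-!
# The essential boundary of an invariant set
-/

namespace Pool.Agent.V1152.SMI

open Real MeasureTheory Function Filter Topology Pool.Agent.TH705.SM
open Pool.Agent.Y332.SM (HasCurve bad hnbd good_point seg_sub curve_inv bs_ge vol_bad meet
  front_swap hnbd_sub norm_coe_le)
open scoped ENNReal

/-- an invariant set with no full crossing -/
theorem sub_of_no_curve {a M : ℝ} (hM : 16 ≤ M) (haM : |a| = M ^ 2) {n : ℕ} (hn : 1 ≤ n)
    {B : Set T2} (hB : S a ⁻¹' B = B) (hno : ¬ HasCurve B) :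
    B ⊆ bad a M n ∪ hnbd ((1 / √M) ^ (n + 1) / 5) (frontier B) := by
  intro p hp
  by_contra hcon
  rw [Set.mem_union, not_or] at hcon
  obtain ⟨hcon1, hcon2⟩ := hcon
  unfold bad at hcon1
  rw [Set.mem_union, not_or] at hcon1
  obtain ⟨p1, p2⟩ := p
  induction p1 using QuotientAddGroup.induction_on with
  | H t =>
    induction p2 using QuotientAddGroup.induction_on with
    | H s =>
      obtain ⟨h3, h4⟩ := good_point hM haM hn hcon1.1 hcon1.2
      have h5 := seg_sub (by positivity) hp hcon2
      refine hno (curve_inv (bs_ge hM n) h3 hB (subset_trans ?_ h5))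
      rintro q ⟨u, hu, rfl⟩
      exact ⟨u, hu.trans h4, rfl⟩

theorem hnbd_swap_sub {r : ℝ} {F : Set T2} {p : T2} (hp : p.swap ∈ hnbd r (Prod.swap ⁻¹' F)) :
    p ∈ Metric.cthickening r F := by
  obtain ⟨b, hb, hp⟩ := hp
  have hp' : (p.1, p.2 + (b : UnitAddCircle)) ∈ F := hp
  have h1 : dist p.2 (p.2 + (b : UnitAddCircle)) = ‖(b : UnitAddCircle)‖ := by
    rw [dist_eq_norm, sub_add_cancel_left, norm_neg]
  have h2 : dist (p.1, p.2) (p.1, p.2 + (b : UnitAddCircle)) ≤ r := by
    rw [Prod.dist_eq, dist_self, h1]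
    exact max_le ((abs_nonneg b).trans hb) ((norm_coe_le b).trans hb)
  exact Metric.mem_cthickening_of_dist_le (p.1, p.2) (p.1, p.2 + (b : UnitAddCircle)) r F hp' h2

/-- **the essential boundary** -/
theorem essential {a M : ℝ} (hM : 16 ≤ M) (haM : |a| = M ^ 2) {n : ℕ} (hn : 1 ≤ n) {A : Set T2}
    (hA : MeasurableSet A) (hinv : S a ⁻¹' A = A) {δ : ℝ} (hδ : 0 < δ)
    (hδ2 : (1 / √M) ^ (n + 1) / 5 ≤ δ) :
    ∃ K : Set T2, IsClosed K ∧ min (volume A) (volume Aᶜ) ≤
        ENNReal.ofReal (3 * n / |a| + 3.71 / M) + volume K ∧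
      ∀ p ∈ K, Both A (2 * δ) p := by
  have hinvc : S a ⁻¹' Aᶜ = Aᶜ := by rw [Set.preimage_compl, hinv]
  set K1 := Metric.cthickening δ (frontier (NN A)) with hK1
  set K2 := Metric.cthickening δ (frontier (NN Aᶜ)) with hK2
  set K3 := (NN A ∪ NN Aᶜ)ᶜ with hK3
  have hU : IsOpen (NN A ∪ NN Aᶜ) := (NN_open A).union (NN_open _)
  have hKc : IsClosed (K1 ∪ K2 ∪ K3) :=
    (Metric.isClosed_cthickening.union Metric.isClosed_cthickening).union hU.isClosed_compl
  refine ⟨K1 ∪ K2 ∪ K3, hKc, ?_, ?_⟩
  · have hv := vol_bad hM haM hn (n := n)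
    -- the dichotomy for one open set
    have dich : ∀ B : Set T2, S a ⁻¹' B = B →
        B ⊆ bad a M n ∪ Metric.cthickening δ (frontier B) ∨
        Bᶜ ⊆ Prod.swap ⁻¹' bad a M n ∪ Metric.cthickening δ (frontier B) := by
      intro B hB
      by_cases h1 : HasCurve B
      · right
        have h2 : ¬ HasCurve (Prod.swap ⁻¹' Bᶜ) := by
          intro h2
          obtain ⟨p, hp1, hp2⟩ := meet h1 h2
          exact hp2 hp1
        have h3 := sub_of_no_curve hM haM hn (Y332.SM.swap_inv hB) h2
        intro p hp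
        have h4 : p.swap ∈ Prod.swap ⁻¹' Bᶜ := by
          rw [Set.mem_preimage, Prod.swap_swap]
          exact hp
        rcases h3 h4 with h5 | h5
        · exact Or.inl h5
        · right
          rw [front_swap] at h5
          exact Metric.cthickening_mono hδ2 _ (hnbd_swap_sub h5)
      · left
        have h3 := sub_of_no_curve hM haM hn hB h1
        intro p hp
        rcases h3 hp with h5 | h5
        · exact Or.inl h5
        · exact Or.inr (Metric.cthickening_mono hδ2 _ (hnbd_sub _ _ h5))
    have hvs : volume (Prod.swap ⁻¹' bad a M n) ≤ ENNReal.ofReal (3 * n / |a| + 3.71 / M) := by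
      rw [Y332.SM.vol_swap]
      exact hv
    have hKmono : ∀ L : Set T2, L ⊆ K1 ∪ K2 ∪ K3 → volume L ≤ volume (K1 ∪ K2 ∪ K3) :=
      fun L hL => measure_mono hL
    rcases dich (NN A) (NN_inv hA hinv) with d1 | d1
    · rcases dich (NN Aᶜ) (NN_inv hA.compl hinvc) with d2 | d2
      · -- everything
        have h1 : (Set.univ : Set T2) ⊆ bad a M n ∪ (K1 ∪ K2 ∪ K3) := by
          intro p _
          by_cases h1 : p ∈ NN A
          · rcases d1 h1 with h | h
            · exact Or.inl h
            · exact Or.inr (Or.inl (Or.inl h))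
          · by_cases h2 : p ∈ NN Aᶜ
            · rcases d2 h2 with h | h
              · exact Or.inl h
              · exact Or.inr (Or.inl (Or.inr h))
            · right
              right
              rw [hK3, Set.mem_compl_iff, Set.mem_union, not_or]
              exact ⟨h1, h2⟩
        calc min (volume A) (volume Aᶜ) ≤ volume (Set.univ : Set T2) :=
              (min_le_left _ _).trans (measure_mono (Set.subset_univ _))
          _ ≤ volume (bad a M n) + volume (K1 ∪ K2 ∪ K3) :=
              (measure_mono h1).trans (measure_union_le _ _)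
          _ ≤ _ := add_le_add hv le_rfl
      · calc min (volume A) (volume Aᶜ) ≤ volume Aᶜ := min_le_right _ _
          _ ≤ volume (NN Aᶜ)ᶜ := NN_le
          _ ≤ volume (Prod.swap ⁻¹' bad a M n) + volume K2 :=
              (measure_mono d2).trans (measure_union_le _ _)
          _ ≤ _ := add_le_add hvs (hKmono _ fun p hp => Or.inl (Or.inr hp))
    · calc min (volume A) (volume Aᶜ) ≤ volume A := min_le_left _ _
        _ ≤ volume (NN A)ᶜ := NN_le
        _ ≤ volume (Prod.swap ⁻¹' bad a M n) + volume K1 :=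
            (measure_mono d1).trans (measure_union_le _ _)
        _ ≤ _ := add_le_add hvs (hKmono _ fun p hp => Or.inl (Or.inl hp))
  · rintro p ((hp | hp) | hp)
    · exact both_frontier hδ hp
    · exact both_compl (both_frontier hδ hp)
    · rw [hK3, Set.mem_compl_iff, Set.mem_union, not_or] at hp
      exact both_rest (by positivity) hp.1 hp.2

end Pool.Agent.V1152.SMI
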